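import Mathlib

/-!
Exterior powers of `M × L` with `L` invertible.
-/

namespace Pool.Agent.MP_bac99f_ag.H96

open TensorProduct

section

variable {D : Type} [CommRing D] {M L : Type}
  [AddCommGroup M] [Module D M] [AddCommGroup L] [Module D L]

lemma ext_dual_comm [Module.Invertible D L] (f : Module.Dual D L) (l l' : L) :
    f l • l' = f l' • l := by
  have h := congrArg (fun t => TensorProduct.lid D L (f.rTensor L t))
    (Module.Invertible.tmul_comm (R := D) (m₁ := l) (m₂ := l'))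
  simpa using h

lemma ext_tensor_eq_zero [Module.Invertible D L] {N : Type} [AddCommGroup N] [Module D N]
    (t : L ⊗[D] N) (h : ∀ f : Module.Dual D L, TensorProduct.lid D N (f.rTensor N t) = 0) :
    t = 0 := by
  have h1 : ∀ (f : Module.Dual D L) (l' : L) (u : L ⊗[D] N),
      f l' • u = l' ⊗ₜ TensorProduct.lid D N (f.rTensor N u) := by
    intro f l' u
    induction u with
    | zero => simp
    | tmul l n => simp [smul_tmul', ext_dual_comm f l' l]
    | add a b ha hb => simp only [smul_add, map_add, tmul_add, ha, hb]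
  have h2 : ∀ τ : Module.Dual D L ⊗[D] L, contractLeft D L τ • t = 0 := by
    intro τ
    induction τ with
    | zero => simp
    | tmul f l' => rw [contractLeft_apply, h1, h, tmul_zero]
    | add a b ha hb => rw [map_add, add_smul, ha, hb, add_zero]
  obtain ⟨τ, hτ⟩ := (Module.Invertible.bijective (R := D) (M := L)).2 1
  simpa [hτ] using h2 τ

lemma ext_pow_add {S : Type} [Semiring S] {a b : S} (hab : Commute a b) (hb : b * b = 0)
    (hi : ∀ x : S, x + x = x) (n : ℕ) : (a + b) ^ (n + 1) = a ^ (n + 1) + b * a ^ n := by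
  induction n with
  | zero => simp
  | succ n ih =>
    have h1 : a ^ (n + 1) * b = b * a ^ (n + 1) := (hab.pow_left _).eq
    have h2 : b * a ^ n * b = 0 := by
      rw [mul_assoc, (hab.pow_left n).eq, ← mul_assoc, hb, zero_mul]
    rw [pow_succ, ih, add_mul, mul_add, mul_add, h1, h2, add_zero, ← pow_succ, mul_assoc,
      ← pow_succ, add_assoc, hi]

lemma ext_coe_map {N : Type} [AddCommGroup N] [Module D N] (f : M →ₗ[D] N) (n : ℕ)
    (w : ⋀[D]^n M) :
    (exteriorPower.map n f w : ExteriorAlgebra D N) = ExteriorAlgebra.map f w := by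
  have : (⋀[D]^n N).subtype ∘ₗ exteriorPower.map n f =
      (ExteriorAlgebra.map f).toLinearMap ∘ₗ (⋀[D]^n M).subtype := by
    ext a
    simp [ExteriorAlgebra.map_apply_ιMulti]
  exact LinearMap.congr_fun this w

variable (D M L) in
/-- wedge with an element of `L` -/
noncomputable def extJ (k : ℕ) : L ⊗[D] ⋀[D]^k M →ₗ[D] ExteriorAlgebra D (M × L) :=
  LinearMap.mul' D _ ∘ₗ TensorProduct.map (ExteriorAlgebra.ι D ∘ₗ LinearMap.inr D M L)
    ((ExteriorAlgebra.map (LinearMap.inl D M L)).toLinearMap ∘ₗ (⋀[D]^k M).subtype)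

lemma extJ_tmul (k : ℕ) (l : L) (w : ⋀[D]^k M) : extJ D M L k (l ⊗ₜ w) =
    ExteriorAlgebra.ι D (0, l) * ExteriorAlgebra.map (LinearMap.inl D M L) w := rfl

lemma extJ_mem (k : ℕ) (t : L ⊗[D] ⋀[D]^k M) : extJ D M L k t ∈ ⋀[D]^(k + 1) (M × L) := by
  induction t with
  | zero => simp
  | tmul l w =>
    rw [extJ_tmul, ← ext_coe_map, ExteriorAlgebra.exteriorPower, pow_succ']
    exact Submodule.mul_mem_mul (LinearMap.mem_range_self _ _) (Subtype.prop _)
  | add a b ha hb => rw [map_add]; exact add_mem ha hb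

lemma ext_fst_inl (w : ExteriorAlgebra D M) : ExteriorAlgebra.map (LinearMap.fst D M L)
    (ExteriorAlgebra.map (LinearMap.inl D M L) w) = w := by
  rw [← AlgHom.comp_apply, ExteriorAlgebra.map_comp_map, LinearMap.fst_comp_inl,
    ExteriorAlgebra.map_id, AlgHom.id_apply]

lemma ext_fst_extJ (k : ℕ) (t : L ⊗[D] ⋀[D]^k M) :
    ExteriorAlgebra.map (LinearMap.fst D M L) (extJ D M L k t) = 0 := by
  induction t with
  | zero => simp
  | tmul l w => simp [extJ_tmul]
  | add a b ha hb => simp only [map_add, ha, hb, add_zero]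

lemma ext_contract_extJ (k : ℕ) (f : Module.Dual D L) (t : L ⊗[D] ⋀[D]^k M) :
    ExteriorAlgebra.map (LinearMap.fst D M L)
      (CliffordAlgebra.contractLeft (Q := 0) (f ∘ₗ LinearMap.snd D M L) (extJ D M L k t)) =
      (TensorProduct.lid D _ (f.rTensor _ t) : ⋀[D]^k M) := by
  induction t with
  | zero => simp
  | tmul l w =>
    have h := CliffordAlgebra.contractLeft_ι_mul (Q := 0) (f ∘ₗ LinearMap.snd D M L) (0, l)
      (ExteriorAlgebra.map (LinearMap.inl D M L) w)
    rw [extJ_tmul]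
    refine (congrArg (ExteriorAlgebra.map (LinearMap.fst D M L)) h).trans ?_
    have h0 : ExteriorAlgebra.map (LinearMap.fst D M L) (CliffordAlgebra.ι 0 ((0, l) : M × L)) = 0 :=
      (ExteriorAlgebra.map_apply_ι _ _).trans (map_zero _)
    rw [map_sub, map_mul, h0, zero_mul, sub_zero, map_smul, ext_fst_inl]
    simp
  | add a b ha hb => simp only [map_add, ha, hb, Submodule.coe_add]

lemma ext_le [Module.Invertible D L] (h : D) (h2 : 2 * h = 1) (k : ℕ) :
    ⋀[D]^(k + 1) (M × L) ≤ LinearMap.range (extJ D M L k) ⊔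
      (⋀[D]^(k + 1) M).map (ExteriorAlgebra.map (LinearMap.inl D M L)).toLinearMap := by
  set a : Submodule D (ExteriorAlgebra D (M × L)) :=
    LinearMap.range (ExteriorAlgebra.ι D ∘ₗ LinearMap.inl D M L) with ha
  set b : Submodule D (ExteriorAlgebra D (M × L)) :=
    LinearMap.range (ExteriorAlgebra.ι D ∘ₗ LinearMap.inr D M L) with hb
  have hsw : ∀ x y : M × L, ExteriorAlgebra.ι D x * ExteriorAlgebra.ι D y =
      -(ExteriorAlgebra.ι D y * ExteriorAlgebra.ι D x) :=
    fun x y => eq_neg_of_add_eq_zero_left (ExteriorAlgebra.ι_add_mul_swap x y)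
  have e1 : LinearMap.range (ExteriorAlgebra.ι D (M := M × L)) = a + b := by
    rw [ha, hb, LinearMap.range_comp, LinearMap.range_comp, Submodule.add_eq_sup,
      ← Submodule.map_sup, LinearMap.sup_range_inl_inr, Submodule.map_top]
  have e2 : Commute a b := by
    refine le_antisymm (Submodule.mul_le.2 ?_) (Submodule.mul_le.2 ?_) <;>
    · rintro - ⟨x, rfl⟩ - ⟨y, rfl⟩
      simp only [LinearMap.comp_apply]
      rw [hsw]
      exact neg_mem (Submodule.mul_mem_mul ⟨y, rfl⟩ ⟨x, rfl⟩)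
  have e3 : b * b = 0 := by
    refine le_antisymm (Submodule.mul_le.2 ?_) bot_le
    rintro - ⟨x, rfl⟩ - ⟨y, rfl⟩
    have h3 := congrArg (LinearMap.mul' D _ ∘ₗ TensorProduct.map
      (ExteriorAlgebra.ι D ∘ₗ LinearMap.inr D M L) (ExteriorAlgebra.ι D ∘ₗ LinearMap.inr D M L))
      (Module.Invertible.tmul_comm (R := D) (m₁ := x) (m₂ := y))
    simp only [LinearMap.comp_apply, TensorProduct.map_tmul, LinearMap.mul'_apply] at h3 ⊢
    have h4 := ExteriorAlgebra.ι_add_mul_swap (R := D) (LinearMap.inr D M L x) (LinearMap.inr D M L y)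
    rw [← h3, ← two_smul D] at h4
    rw [Submodule.zero_eq_bot, Submodule.mem_bot, ← one_smul D (_ * _), ← h2, mul_comm 2 h, mul_smul,
      h4, smul_zero]
  have e4 : ∀ n, a ^ n =
      (⋀[D]^n M).map (ExteriorAlgebra.map (LinearMap.inl D M L)).toLinearMap := by
    intro n
    rw [ExteriorAlgebra.exteriorPower, Submodule.map_pow, ← LinearMap.range_comp,
      ExteriorAlgebra.map_comp_ι]
  rw [ExteriorAlgebra.exteriorPower, e1, ext_pow_add e2 e3 (fun x => sup_idem x), e4, e4,
    Submodule.add_eq_sup, sup_comm]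
  refine sup_le_sup_right (Submodule.mul_le.2 ?_) _
  rintro - ⟨l, rfl⟩ - ⟨w, hw, rfl⟩
  exact ⟨l ⊗ₜ ⟨w, hw⟩, rfl⟩

end

theorem exteriorPower_prod {D : Type} [CommRing D] (h : D) (h2 : 2 * h = 1) (M L : Type)
    [AddCommGroup M] [Module D M] [AddCommGroup L] [Module D L] [Module.Invertible D L] (k : ℕ) :
    Nonempty (⋀[D]^(k + 1) (M × L) ≃ₗ[D] (L ⊗[D] ⋀[D]^k M) × ⋀[D]^(k + 1) M) := by
  refine ⟨(LinearEquiv.ofBijective (((extJ D M L k).codRestrict _ (extJ_mem k)).coprod
    (exteriorPower.map (k + 1) (LinearMap.inl D M L))) ⟨?_, ?_⟩).symm⟩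
  · rw [injective_iff_map_eq_zero]
    rintro ⟨t, w⟩ h0
    have h1 : extJ D M L k t + ExteriorAlgebra.map (LinearMap.inl D M L) w = 0 := by
      rw [← ext_coe_map]; exact congrArg Subtype.val h0
    have h3 := congrArg (ExteriorAlgebra.map (LinearMap.fst D M L)) h1
    rw [map_add, ext_fst_extJ, ext_fst_inl, zero_add, map_zero] at h3
    rw [h3, map_zero, add_zero] at h1
    refine Prod.ext (ext_tensor_eq_zero t fun f => Subtype.ext ?_) (Subtype.ext h3)
    rw [← ext_contract_extJ, h1, map_zero, map_zero]; rfl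
  · rintro ⟨x, hx⟩
    obtain ⟨-, ⟨t, rfl⟩, -, ⟨w, hw, rfl⟩, rfl⟩ := Submodule.mem_sup.1 (ext_le h h2 k hx)
    refine ⟨(t, ⟨w, hw⟩), Subtype.ext ?_⟩
    exact congrArg (extJ D M L k t + ·) (ext_coe_map _ _ _)

theorem exteriorPower_subsingleton (D : Type) [CommRing D] (M : Type) [AddCommGroup M]
    [Module D M] [Module.Finite D M] : ∃ N, ∀ k, N ≤ k → Subsingleton (⋀[D]^k M) := by
  obtain ⟨n, v, hv⟩ := Module.Finite.exists_fin (R := D) (M := M)
  refine ⟨n + 1, fun k hk => ?_⟩
  have h := exteriorPower.ιMulti_family_span_of_span D (n := k) hv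
  have : IsEmpty (Set.powersetCard (Fin n) k) := ⟨fun s => by
    have h1 : s.1.card = k := s.2
    have h2 := s.1.card_le_univ
    simp at h2; omega⟩
  rw [Set.range_eq_empty, Submodule.span_empty] at h
  exact (Submodule.subsingleton_iff D).1 (subsingleton_of_bot_eq_top h)

end Pool.Agent.MP_bac99f_ag.H96
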