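import Pool.Agent.MP_bac99f_ag.H96.Chi
import Pool.Agent.MP_bac99f_ag.H96.Ext

/-!
The sum of the invariants of all exterior powers, computed in the group ring.
-/

namespace Pool.Agent.MP_bac99f_ag.H96

open TensorProduct CommRing

namespace Euler

/-- The elementary abelian group of rank `n`. -/
abbrev G (n : ℕ) : Type := Fin n → ZMod 2

/-- Its group ring over the field with two elements. -/
abbrev Lam (n : ℕ) : Type := AddMonoidAlgebra (ZMod 2) (G n)

variable {n : ℕ}

/-- A group element in the group ring. -/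
noncomputable def e (g : G n) : Lam n := AddMonoidAlgebra.single g 1

lemma add_self (g : G n) : g + g = 0 := by
  ext i
  exact CharTwo.add_self_eq_zero (g i)

lemma e_mul (g h : G n) : e g * e h = e (g + h) := by
  simp [e, AddMonoidAlgebra.single_mul_single]

lemma e_zero : e (0 : G n) = 1 := rfl

lemma e_sq (g : G n) : e g * e g = 1 := by rw [e_mul, add_self, e_zero]

lemma two_eq : (2 : Lam n) = 0 := by
  have : (2 : Lam n) = algebraMap (ZMod 2) (Lam n) 2 := (map_ofNat _ 2).symm
  rw [this, show (2 : ZMod 2) = 0 from rfl, map_zero]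

lemma coeff_e (g h : G n) : (e g).coeff h = if g = h then 1 else 0 := by
  simp [e, Finsupp.single_apply]

lemma coeff_e_mul (h g : G n) (x : Lam n) : (e h * x).coeff g = x.coeff (g + h) := by
  have := AddMonoidAlgebra.coeff_single_mul_add x (1 : ZMod 2) h (g + h)
  rw [show h + (g + h) = g by rw [add_comm g h, ← add_assoc, add_self, zero_add], one_mul] at this
  exact this

lemma coeff_natCast (r : ℕ) (g : G n) :
    ((r : ℕ) : Lam n).coeff g = r * if g = 0 then 1 else 0 := by
  rw [AddMonoidAlgebra.coeff_natCast, Finsupp.single_apply]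
  by_cases h : g = 0
  · simp [h]
  · simp [h, Ne.symm h]

lemma coeff_sum_e (l : Multiset (G n)) (g : G n) :
    (l.map e).sum.coeff g = (l.count g : ZMod 2) := by
  induction l using Multiset.induction_on with
  | empty => simp
  | cons a l ih =>
    rw [Multiset.map_cons, Multiset.sum_cons, AddMonoidAlgebra.coeff_add, Finsupp.add_apply, ih,
      coeff_e, Multiset.count_cons]
    by_cases h : a = g
    · simp [h, add_comm]
    · simp [h, Ne.symm h]

open Polynomial in
/-- The product of the factors `1 + g X`. -/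
noncomputable def P (l : Multiset (G n)) : (Lam n)[X] := (l.map fun g => 1 + C (e g) * X).prod

open Polynomial in
lemma P_cons (g : G n) (l : Multiset (G n)) : P (g ::ₘ l) = (1 + C (e g) * X) * P l := by
  simp [P]

open Polynomial in
lemma P_add (l l' : Multiset (G n)) : P (l + l') = P l * P l' := by
  simp [P]

open Polynomial in
lemma two_poly : (2 : (Lam n)[X]) = 0 := by
  have : (2 : (Lam n)[X]) = C 2 := rfl
  rw [this, two_eq, map_zero]

open Polynomial in
lemma C_sq (g : G n) : C (e g) * C (e g) = (1 : (Lam n)[X]) := by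
  rw [← map_mul, e_sq, map_one]

open Polynomial in
lemma P_mul_self (l : Multiset (G n)) : P l * P l = (1 + X) ^ (2 * l.card) := by
  induction l using Multiset.induction_on with
  | empty => simp [P]
  | cons a l ih =>
    rw [P_cons, Multiset.card_cons, mul_mul_mul_comm, ih]
    have h1 := C_sq a
    have h2 := two_poly (n := n)
    have : (1 + C (e a) * X) * (1 + C (e a) * X) = ((1 + X) ^ 2 : (Lam n)[X]) := by
      linear_combination X ^ 2 * h1 + (C (e a) * X - X) * h2
    rw [this]
    ring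

open Polynomial in
lemma P_coeff (l : Multiset (G n)) : (P l).coeff 0 = 1 ∧ (P l).coeff 1 = (l.map e).sum := by
  induction l using Multiset.induction_on with
  | empty => simp [P, Polynomial.coeff_one]
  | cons a l ih =>
    rw [P_cons, add_mul, one_mul, mul_assoc, Multiset.map_cons, Multiset.sum_cons]
    refine ⟨by simp [ih.1], ?_⟩
    rw [coeff_add, coeff_C_mul, coeff_X_mul, ih.1, ih.2, mul_one, add_comm]

open Polynomial in
lemma key (H : G n) (hH0 : H ≠ 0) (l : Multiset (G n))
    (hl : (1 + e H) * (l.map e).sum = (1 + e H) * l.card) :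
    ∃ w : (Lam n)[X], (1 + X) ^ 2 * P l =
      (1 + X) ^ (l.card + 2) + C (1 + e H) * (1 + X) ^ l.card * w := by
  induction l using Multiset.strongInductionOn with
  | _ l ih =>
  have h2 := two_poly (n := n)
  have h2' := two_eq (n := n)
  have hH := C_sq H
  have hH' := e_sq H
  rcases l.empty_or_exists_mem with rfl | ⟨g, hg⟩
  · exact ⟨0, by simp [P]⟩
  obtain ⟨l', rfl⟩ := Multiset.exists_cons_of_mem hg
  rw [Multiset.map_cons, Multiset.sum_cons, Multiset.card_cons] at hl
  push_cast at hl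
  by_cases hg0 : g = 0
  · subst hg0
    rw [e_zero] at hl
    obtain ⟨w, hw⟩ := ih l' (Multiset.lt_cons_self _ _) (by linear_combination hl)
    refine ⟨w, ?_⟩
    rw [P_cons, Multiset.card_cons, e_zero, map_one]
    linear_combination (1 + X) * hw
  by_cases hgH : g = H
  · subst hgH
    obtain ⟨w, hw⟩ := ih l' (Multiset.lt_cons_self _ _) (by linear_combination hl - hH')
    refine ⟨w + X * (1 + X), ?_⟩
    rw [P_cons, Multiset.card_cons, map_add, map_one] at *
    linear_combination (1 + C (e g) * X) * hw + (X * (1 + X) ^ l'.card * w) * hH -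
      (X * (1 + X) ^ (l'.card + 2)) * h2
  have hc := congrArg (fun x : Lam n => x.coeff g) hl
  have hcast : ((l'.card : Lam n) + 1) = ((l'.card + 1 : ℕ) : Lam n) := by push_cast; rfl
  have hgH' : g + H ≠ 0 := fun h => hgH (by rw [← add_zero g, ← add_self H, ← add_assoc, h, zero_add])
  have hgg : g ≠ g + H := fun h => hH0 (by simpa using h.symm)
  simp only [hcast, add_mul, one_mul, AddMonoidAlgebra.coeff_add, Finsupp.add_apply, coeff_e_mul,
    coeff_natCast, coeff_sum_e, coeff_e, if_neg hg0, if_neg hgH', if_neg hgg, if_true] at hc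
  have hmem : g ∈ l' ∨ g + H ∈ l' := by
    by_contra hn
    rw [not_or] at hn
    rw [Multiset.count_eq_zero.mpr hn.1, Multiset.count_eq_zero.mpr hn.2] at hc
    simp at hc
  have hlt : ∀ (g' : G n) (l'' : Multiset (G n)), l'' < g ::ₘ g' ::ₘ l'' := fun g' l'' =>
    (Multiset.lt_cons_self _ _).trans (Multiset.lt_cons_self _ _)
  rcases hmem with hm | hm
  · obtain ⟨l'', rfl⟩ := Multiset.exists_cons_of_mem hm
    rw [Multiset.map_cons, Multiset.sum_cons, Multiset.card_cons] at hl
    push_cast at hl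
    obtain ⟨w, hw⟩ := ih l'' (hlt _ _) (by linear_combination hl + (1 + e H) * (1 - e g) * h2')
    refine ⟨w, ?_⟩
    have hg2 := C_sq g
    rw [P_cons, P_cons, Multiset.card_cons, Multiset.card_cons]
    linear_combination (1 + X) ^ 2 * hw +
      (1 + X) ^ 2 * P l'' * (X ^ 2 * hg2 + (C (e g) * X - X) * h2)
  · obtain ⟨l'', rfl⟩ := Multiset.exists_cons_of_mem hm
    rw [Multiset.map_cons, Multiset.sum_cons, Multiset.card_cons, ← e_mul] at hl
    push_cast at hl
    obtain ⟨w, hw⟩ := ih l'' (hlt _ _)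
      (by linear_combination hl - e g * hH' + ((1 + e H) * (1 - e g)) * h2')
    refine ⟨w + C (e g) * X + X ^ 2, ?_⟩
    have hg2 := C_sq g
    rw [P_cons, P_cons, Multiset.card_cons, Multiset.card_cons, ← e_mul, map_mul]
    rw [map_add, map_one] at *
    linear_combination ((1 + C (e g) * X) * (1 + C (e g) * C (e H) * X)) * hw +
      ((1 + X) ^ (l''.card + 2) + (1 + C (e H)) * (1 + X) ^ l''.card * w) *
        (C (e H) * X ^ 2 * hg2 - (X + X ^ 2) * h2) +
      ((1 + X) ^ l''.card * w * (C (e g) * X + X ^ 2)) * (hH + (1 + C (e H)) * h2)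

section modules

variable {D : Type} [CommRing D] {τ : D} (c : Chi D τ) (L : G n → Pic D)

/-- The class of a module in the group ring. -/
noncomputable def cl (N : Type) [AddCommGroup N] [Module D N] : Lam n :=
  ∑ g, AddMonoidAlgebra.single g (c.χ (L g ⊗[D] N))

lemma coeff_cl (N : Type) [AddCommGroup N] [Module D N] (g : G n) :
    (cl c L N).coeff g = c.χ (L g ⊗[D] N) := by
  simp [cl, Finsupp.finsetSum_apply, Finsupp.single_apply]

variable {M N : Type} [AddCommGroup M] [Module D M] [AddCommGroup N] [Module D N]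

lemma cl_congr [Module.Finite D M] (f : M ≃ₗ[D] N) : cl c L M = cl c L N := by
  ext g
  rw [coeff_cl, coeff_cl, c.congr (f.lTensor (L g))]

lemma cl_prod [Module.Finite D M] [Module.Finite D N] :
    cl c L (M × N) = cl c L M + cl c L N := by
  ext g
  rw [AddMonoidAlgebra.coeff_add, Finsupp.add_apply, coeff_cl, coeff_cl, coeff_cl,
    c.congr (TensorProduct.prodRight D D (L g) M N), c.prod]

lemma cl_subsingleton [Subsingleton M] : cl c L M = 0 := by
  ext g
  rw [coeff_cl, c.of_subsingleton]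
  rfl

variable {L}

lemma cl_tensor (hL : ∀ g g', L (g + g') = L g * L g') [Module.Finite D M] (h : G n) :
    cl c L (L h ⊗[D] M) = e h * cl c L M := by
  ext g
  rw [coeff_e_mul, coeff_cl, coeff_cl]
  obtain ⟨f⟩ : Nonempty ((L g ⊗[D] L h) ≃ₗ[D] L (g + h)) := by
    rw [← Pic.mk_eq_iff, hL, Pic.mul_eq_tensor]
  exact c.congr ((TensorProduct.assoc D (L g) (L h) M).symm.trans (f.rTensor M))

lemma cl_self (hχ : ∀ g, c.χ (L g) = if g = 0 then 1 else 0) : cl c L D = 1 := by
  ext g
  rw [coeff_cl, c.congr (TensorProduct.rid D (L g)), hχ, ← e_zero, coeff_e]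
  simp [eq_comm]

lemma coeff_cl_zero (hL : ∀ g g', L (g + g') = L g * L g') [Module.Finite D M] :
    (cl c L M).coeff 0 = c.χ M := by
  have h0 : L 0 = 1 := by
    have := hL 0 0
    rw [add_zero] at this
    exact left_eq_mul.mp this
  obtain ⟨f⟩ : Nonempty (L 0 ≃ₗ[D] D) := by
    rw [← Pic.mk_eq_one_iff, Pic.mk_eq_self, h0]
  rw [coeff_cl]
  exact c.congr ((f.rTensor M).trans (TensorProduct.lid D M))

/-- Exterior powers of isomorphic modules. -/
noncomputable def extCongr (k : ℕ) (f : M ≃ₗ[D] N) : ⋀[D]^k M ≃ₗ[D] ⋀[D]^k N :=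
  LinearEquiv.ofLinearMap (exteriorPower.map k f.toLinearMap) (exteriorPower.map k f.symm.toLinearMap)
    (by rw [← exteriorPower.map_comp]; simp) (by rw [← exteriorPower.map_comp]; simp)

variable (L) in
/-- The generating series of the classes of the exterior powers. -/
noncomputable def Phi (M : Type) [AddCommGroup M] [Module D M] : PowerSeries (Lam n) :=
  PowerSeries.mk fun k => cl c L (⋀[D]^k M)

lemma Phi_congr [Module.Finite D M] (f : M ≃ₗ[D] N) : Phi c L M = Phi c L N := by
  ext1 k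
  simp only [Phi, PowerSeries.coeff_mk]
  exact cl_congr c L (extCongr k f)

lemma Phi_zero (hχ : ∀ g, c.χ (L g) = if g = 0 then 1 else 0) [Module.Finite D M] :
    PowerSeries.coeff 0 (Phi c L M) = 1 := by
  simp only [Phi, PowerSeries.coeff_mk]
  rw [cl_congr c L (exteriorPower.zeroEquiv D M), cl_self c hχ]

lemma Phi_one [Module.Finite D M] : PowerSeries.coeff 1 (Phi c L M) = cl c L M := by
  simp only [Phi, PowerSeries.coeff_mk]
  rw [cl_congr c L (exteriorPower.oneEquiv D M)]

lemma Phi_subsingleton (hχ : ∀ g, c.χ (L g) = if g = 0 then 1 else 0) [Subsingleton M] :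
    Phi c L M = 1 := by
  ext1 k
  rcases k with _ | k
  · rw [Phi_zero c hχ]
    simp
  · have : Subsingleton (⋀[D]^(k + 1) M) := by
      refine subsingleton_of_forall_eq 0 fun x => ?_
      have h : (LinearMap.id : ⋀[D]^(k + 1) M →ₗ[D] _) = 0 := by
        refine exteriorPower.linearMap_ext ?_
        ext v
        simp [(exteriorPower.ιMulti D (k + 1)).map_coord_zero (m := v) 0 (Subsingleton.elim _ _)]
      exact LinearMap.congr_fun h x
    simp only [Phi, PowerSeries.coeff_mk]
    rw [cl_subsingleton, PowerSeries.coeff_one, if_neg (by omega)]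

lemma Phi_prod (h : D) (h2 : 2 * h = 1) (hL : ∀ g g', L (g + g') = L g * L g')
    (hχ : ∀ g, c.χ (L g) = if g = 0 then 1 else 0) [Module.Finite D M] (g : G n) :
    Phi c L (M × L g) = (1 + PowerSeries.C (e g) * PowerSeries.X) * Phi c L M := by
  ext1 k
  rw [add_mul, one_mul, mul_assoc, map_add, PowerSeries.coeff_C_mul]
  rcases k with _ | k
  · rw [Phi_zero c hχ, Phi_zero c hχ]
    simp
  · obtain ⟨f⟩ := exteriorPower_prod h h2 M (L g) k
    rw [PowerSeries.coeff_succ_X_mul]
    simp only [Phi, PowerSeries.coeff_mk]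
    rw [cl_congr c L f, cl_prod, cl_tensor c hL, add_comm]

lemma Phi_pi_fin (h : D) (h2 : 2 * h = 1) (hL : ∀ g g', L (g + g') = L g * L g')
    (hχ : ∀ g, c.χ (L g) = if g = 0 then 1 else 0) [Module.Finite D M] (k : ℕ)
    (f : Fin k → G n) :
    Phi c L (M × ∀ i, L (f i)) = Phi c L M * (P (Finset.univ.val.map f) : PowerSeries (Lam n)) := by
  induction k with
  | zero =>
    rw [Phi_congr c (LinearEquiv.prodUnique (R := D) (M := M) (M₂ := ∀ i : Fin 0, L (f i)))]
    simp [P]
  | succ k ih =>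
    have e1 : (M × ∀ i, L (f i)) ≃ₗ[D] (M × ∀ i : Fin k, L (f i.succ)) × L (f 0) :=
      ((LinearEquiv.refl D M).prodCongr
        ((Fin.consLinearEquiv D fun i => L (f i)).symm.trans (LinearEquiv.prodComm D _ _))).trans
        (LinearEquiv.prodAssoc D _ _ _).symm
    have e2 : Finset.univ.val.map f = f 0 ::ₘ Finset.univ.val.map fun i : Fin k => f i.succ := by
      rw [Fin.univ_val_map, Fin.univ_val_map, List.ofFn_succ, Multiset.cons_coe]
    rw [Phi_congr c e1, Phi_prod c h h2 hL hχ, ih, e2, P_cons]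
    simp only [Polynomial.coe_mul, Polynomial.coe_add, Polynomial.coe_one, Polynomial.coe_C,
      Polynomial.coe_X]
    ring

lemma Phi_pi (h : D) (h2 : 2 * h = 1) (hL : ∀ g g', L (g + g') = L g * L g')
    (hχ : ∀ g, c.χ (L g) = if g = 0 then 1 else 0) [Module.Finite D M] {ι : Type} [Fintype ι]
    (f : ι → G n) :
    Phi c L (M × ∀ i, L (f i)) = Phi c L M * (P (Finset.univ.val.map f) : PowerSeries (Lam n)) := by
  let σ := (Fintype.equivFin ι).symm
  have e1 : (M × ∀ i, L (f (σ i))) ≃ₗ[D] (M × ∀ i, L (f i)) :=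
    (LinearEquiv.refl D M).prodCongr (LinearEquiv.piCongrLeft D (fun i => L (f i)) σ)
  have e2 : Finset.univ.val.map f = Finset.univ.val.map fun i => f (σ i) := by
    rw [← Finset.map_univ_equiv σ, Finset.map_val, Multiset.map_map]
    rfl
  rw [← Phi_congr c e1, Phi_pi_fin c h h2 hL hχ, e2]

lemma Phi_pi' (h : D) (h2 : 2 * h = 1) (hL : ∀ g g', L (g + g') = L g * L g')
    (hχ : ∀ g, c.χ (L g) = if g = 0 then 1 else 0) {ι : Type} [Fintype ι] (f : ι → G n) :
    Phi c L (∀ i, L (f i)) = (P (Finset.univ.val.map f) : PowerSeries (Lam n)) := by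
  rw [← Phi_congr c (LinearEquiv.uniqueProd (R := D) (M := ∀ i, L (f i)) (M₂ := PUnit)),
    Phi_pi c h h2 hL hχ, Phi_subsingleton c hχ, one_mul]

lemma sum_eq (hL : ∀ g g', L (g + g') = L g * L g') [Module.Finite D M]
    (p : Polynomial (Lam n)) (hp : Phi c L M = p) (N : ℕ)
    (hN : ∀ k, N ≤ k → Subsingleton (⋀[D]^k M)) :
    ∑ k ∈ Finset.range N, c.χ (⋀[D]^k M) = (p.eval 1).coeff 0 := by
  have h1 : ∀ k, p.coeff k = cl c L (⋀[D]^k M) := fun k => by
    rw [← Polynomial.coeff_coe, ← hp, Phi, PowerSeries.coeff_mk]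
  have h0 : ∀ k, N ≤ k → p.coeff k = 0 := fun k hk => by
    have := hN k hk
    rw [h1, cl_subsingleton]
  have hd : p.natDegree < N + 1 :=
    Nat.lt_succ_of_le (Polynomial.natDegree_le_iff_coeff_eq_zero.mpr fun k hk => h0 k hk.le)
  rw [Polynomial.eval_eq_sum_range' hd, Finset.sum_range_succ, h0 N le_rfl, zero_mul, add_zero,
    AddMonoidAlgebra.coeff_sum, Finsupp.finsetSum_apply]
  refine Finset.sum_congr rfl fun k _ => ?_
  rw [one_pow, mul_one, h1, coeff_cl_zero c hL]

end modules

end Euler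

open Euler

theorem euler_zero {D : Type} [CommRing D] {τ : D} (c : Chi D τ) (h : D) (h2 : 2 * h = 1)
    {n : ℕ} (L : (Fin n → ZMod 2) → Pic D) (hL : ∀ g g', L (g + g') = L g * L g')
    (hχ : ∀ g, c.χ (L g) = if g = 0 then 1 else 0)
    (F : Type) [AddCommGroup F] [Module D F] [Module.Finite D F]
    {ι₀ ι₁ : Type} [Fintype ι₀] [Fintype ι₁] (f₀ : ι₀ → Fin n → ZMod 2)
    (f₁ : ι₁ → Fin n → ZMod 2) (e : (F × ∀ i, L (f₁ i)) ≃ₗ[D] ∀ i, L (f₀ i))
    {r : ℕ} (hr : 3 ≤ r) (hcard : Fintype.card ι₀ = Fintype.card ι₁ + r) (H : Fin n → ZMod 2)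
    (hH0 : H ≠ 0) (hH : ∀ g, c.χ (L g ⊗[D] F) + c.χ (L (g + H) ⊗[D] F) =
      r * ((if g = 0 then 1 else 0) + if g + H = 0 then 1 else 0))
    (N : ℕ) (hN : ∀ k, N ≤ k → Subsingleton (⋀[D]^k F)) :
    ∑ k ∈ Finset.range N, c.χ (⋀[D]^k F) = 0 := by
  set l₀ := Finset.univ.val.map f₀ with hl₀
  set l₁ := Finset.univ.val.map f₁ with hl₁
  have hc₀ : l₀.card = l₁.card + r := by simpa [hl₀, hl₁] using hcard
  have h1 : Phi c L F * (P l₁ : PowerSeries (Lam n)) = P l₀ := by
    rw [← Phi_pi c h h2 hL hχ, Phi_congr c e, Phi_pi' c h h2 hL hχ]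
  have h3 : cl c L F + (l₁.map Euler.e).sum = (l₀.map Euler.e).sum := by
    have := congrArg (PowerSeries.coeff 1) h1
    rw [PowerSeries.coeff_mul, Finset.Nat.sum_antidiagonal_eq_sum_range_succ_mk,
      Finset.sum_range_succ, Finset.sum_range_one] at this
    simp only [Nat.sub_zero, Nat.sub_self, Polynomial.coeff_coe, (P_coeff _).1, (P_coeff _).2,
      Phi_zero c hχ, Phi_one, one_mul, mul_one] at this
    rw [← this, add_comm]
  have h4 : (1 + Euler.e H) * cl c L F = (1 + Euler.e H) * r := by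
    ext g
    simp only [add_mul, one_mul, AddMonoidAlgebra.coeff_add, Finsupp.add_apply, coeff_e_mul,
      coeff_cl, coeff_natCast]
    rw [hH, mul_add]
  have h2' := two_eq (n := n)
  obtain ⟨w, hw⟩ := key H hH0 (l₀ + l₁) (by
    rw [Multiset.map_add, Multiset.sum_add, Multiset.card_add, hc₀, ← h3]
    push_cast
    linear_combination h4 + (1 + Euler.e H) * ((l₁.map Euler.e).sum - l₁.card) * h2')
  obtain ⟨r, rfl⟩ : ∃ r', r = r' + 3 := ⟨r - 3, by omega⟩
  have h5 : Phi c L F = ((1 + Polynomial.X) ^ (r + 3) +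
      Polynomial.C (1 + Euler.e H) * (1 + Polynomial.X) ^ (r + 1) * w : Polynomial (Lam n)) := by
    have hu : IsUnit ((((1 + Polynomial.X) ^ (2 * l₁.card + 2) : Polynomial (Lam n)) :
        PowerSeries (Lam n))) := by
      rw [Polynomial.coe_pow]
      refine IsUnit.pow _ ?_
      rw [PowerSeries.isUnit_iff_constantCoeff]
      simp
    refine hu.mul_left_cancel ?_
    have h6 : ((1 + Polynomial.X) ^ (2 * l₁.card + 2) : Polynomial (Lam n)) =
        (1 + Polynomial.X) ^ 2 * (P l₁ * P l₁) := by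
      rw [P_mul_self]
      ring
    rw [← Polynomial.coe_mul]
    conv_lhs => rw [h6]
    have h7 : ((((1 + Polynomial.X) ^ 2 * (P l₁ * P l₁) : Polynomial (Lam n)) :
        PowerSeries (Lam n))) * Phi c L F =
        (((1 + Polynomial.X) ^ 2 * P (l₀ + l₁) : Polynomial (Lam n)) : PowerSeries (Lam n)) := by
      rw [P_add]
      simp only [Polynomial.coe_mul]
      rw [← h1]
      ring
    rw [h7, hw, Multiset.card_add, hc₀]
    congr 1
    ring
  rw [sum_eq c hL _ h5 N hN]
  have h8 : (1 : Lam n) + 1 = 0 := by rw [← h2']; norm_num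
  simp [h8]

theorem euler_one {D : Type} [CommRing D] {τ : D} (c : Chi D τ) (h : D) (h2 : 2 * h = 1)
    {n : ℕ} (L : (Fin n → ZMod 2) → Pic D) (hL : ∀ g g', L (g + g') = L g * L g')
    (hχ : ∀ g, c.χ (L g) = if g = 0 then 1 else 0)
    (N : ℕ) (hN : ∀ k, N ≤ k → Subsingleton (⋀[D]^k (∀ i : Fin n, L (Pi.single i 1)))) :
    ∑ k ∈ Finset.range N, c.χ (⋀[D]^k (∀ i : Fin n, L (Pi.single i 1))) = 1 := by
  rw [sum_eq c hL _ (Phi_pi' c h h2 hL hχ fun i : Fin n => Pi.single i 1) N hN]
  have h1 : (P (Finset.univ.val.map fun i : Fin n => (Pi.single i 1 : G n))).eval 1 =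
      ∏ i : Fin n, (1 + e (Pi.single i 1)) := by
    rw [P, Multiset.map_map, Polynomial.eval_multiset_prod, Multiset.map_map]
    simp [List.prod_ofFn]
  have h3 : ∀ t : Finset (Fin n), ∏ i ∈ t, e (Pi.single i 1 : G n) =
      e (∑ i ∈ t, Pi.single i 1) := fun t => by
    induction t using Finset.induction_on with
    | empty => simp [e_zero]
    | insert a t ha ih => rw [Finset.prod_insert ha, Finset.sum_insert ha, ih, e_mul]
  rw [h1, Finset.prod_one_add, AddMonoidAlgebra.coeff_sum, Finsupp.finsetSum_apply,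
    Finset.sum_eq_single ∅]
  · simp
  · intro t _ ht
    obtain ⟨i, hi⟩ := Finset.nonempty_iff_ne_empty.mpr ht
    rw [h3, coeff_e, if_neg]
    intro h0
    have := congrFun h0 i
    simp [Finset.sum_apply, Pi.single_apply, hi] at this
  · simp

end Pool.Agent.MP_bac99f_ag.H96
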