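import Pool.Agent.MP_bac99f_ag.H96.Chi

/-!
Euler characteristics of Koszul complexes that agree near the zero locus.
-/

namespace Pool.Agent.MP_bac99f_ag.H96

open ExteriorAlgebra

section kz

variable {D : Type} [CommRing D] {M M' : Type} [AddCommGroup M] [Module D M]
  [AddCommGroup M'] [Module D M']

/-- The Koszul differential. -/
noncomputable def kzD (s : M →ₗ[D] D) : ExteriorAlgebra D M →ₗ[D] ExteriorAlgebra D M :=
  CliffordAlgebra.contractLeft (Q := (0 : QuadraticForm D M)) s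

lemma kzD_mul (s : M →ₗ[D] D) (m : M) (x : ExteriorAlgebra D M) :
    kzD s (ι D m * x) = s m • x - ι D m * kzD s x :=
  CliffordAlgebra.contractLeft_ι_mul s m x

lemma kzD_alg (s : M →ₗ[D] D) (r : D) : kzD s (algebraMap D (ExteriorAlgebra D M) r) = 0 :=
  CliffordAlgebra.contractLeft_algebraMap _ s r

lemma kzD_kzD (s : M →ₗ[D] D) (x : ExteriorAlgebra D M) : kzD s (kzD s x) = 0 :=
  CliffordAlgebra.contractLeft_contractLeft s x

lemma kz_mul_mem {k : ℕ} (m : M) {x : ExteriorAlgebra D M} (hx : x ∈ ⋀[D]^k M) :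
    ι D m * x ∈ ⋀[D]^(k + 1) M := by
  rw [exteriorPower, pow_succ']
  exact Submodule.mul_mem_mul ⟨m, rfl⟩ hx

lemma kz_ind {k : ℕ} {P : ExteriorAlgebra D M → Prop}
    (h1 : ∀ m, ∀ x ∈ ⋀[D]^k M, P (ι D m * x)) (h2 : ∀ x y, P x → P y → P (x + y))
    {x : ExteriorAlgebra D M} (hx : x ∈ ⋀[D]^(k + 1) M) : P x := by
  rw [exteriorPower, pow_succ'] at hx
  refine Submodule.mul_induction_on hx ?_ h2
  rintro _ ⟨m, rfl⟩ y hy
  exact h1 m y hy

lemma kz_zero {x : ExteriorAlgebra D M} (hx : x ∈ ⋀[D]^0 M) :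
    ∃ r, x = algebraMap D (ExteriorAlgebra D M) r := by
  rw [exteriorPower, pow_zero, Submodule.mem_one] at hx
  obtain ⟨r, rfl⟩ := hx
  exact ⟨r, rfl⟩

lemma kz_alg_mem (r : D) : algebraMap D (ExteriorAlgebra D M) r ∈ ⋀[D]^0 M := by
  rw [exteriorPower, pow_zero, Submodule.mem_one]
  exact ⟨r, rfl⟩

lemma kzD_zero (s : M →ₗ[D] D) {x : ExteriorAlgebra D M} (hx : x ∈ ⋀[D]^0 M) : kzD s x = 0 := by
  obtain ⟨r, rfl⟩ := kz_zero hx
  exact kzD_alg s r

lemma kzD_mem (s : M →ₗ[D] D) (k : ℕ) :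
    ∀ x ∈ ⋀[D]^(k + 1) M, kzD s x ∈ ⋀[D]^k M := by
  induction k with
  | zero =>
    intro x hx
    refine kz_ind (P := fun x => kzD s x ∈ ⋀[D]^0 M) (fun m y hy => ?_) (fun a b ha hb => ?_) hx
    · rw [kzD_mul, kzD_zero s hy, mul_zero, sub_zero]
      exact Submodule.smul_mem _ _ hy
    · rw [map_add]
      exact add_mem ha hb
  | succ k ih =>
    intro x hx
    refine kz_ind (P := fun x => kzD s x ∈ ⋀[D]^(k + 1) M) (fun m y hy => ?_)
      (fun a b ha hb => ?_) hx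
    · rw [kzD_mul]
      exact sub_mem (Submodule.smul_mem _ _ hy) (kz_mul_mem m (ih y hy))
    · rw [map_add]
      exact add_mem ha hb

lemma kz_map_mem (f : M →ₗ[D] M') (k : ℕ) :
    ∀ x ∈ ⋀[D]^k M, ExteriorAlgebra.map f x ∈ ⋀[D]^k M' := by
  induction k with
  | zero =>
    intro x hx
    obtain ⟨r, rfl⟩ := kz_zero hx
    rw [AlgHom.commutes]
    exact kz_alg_mem r
  | succ k ih =>
    intro x hx
    refine kz_ind (P := fun x => ExteriorAlgebra.map f x ∈ ⋀[D]^(k + 1) M') (fun m y hy => ?_)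
      (fun a b ha hb => ?_) hx
    · rw [map_mul, map_apply_ι]
      exact kz_mul_mem _ (ih y hy)
    · rw [map_add]
      exact add_mem ha hb

lemma kzD_map (s : M →ₗ[D] D) (s' : M' →ₗ[D] D) (f : M →ₗ[D] M') (α : D)
    (hf : ∀ m, s' (f m) = α * s m) (x : ExteriorAlgebra D M) :
    kzD s' (ExteriorAlgebra.map f x) = α • ExteriorAlgebra.map f (kzD s x) := by
  induction x using CliffordAlgebra.left_induction with
  | algebraMap r => rw [AlgHom.commutes, kzD_alg, kzD_alg, map_zero, smul_zero]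
  | add x y hx hy => rw [map_add, map_add, hx, hy, map_add, map_add, smul_add]
  | ι_mul x m hx =>
    change kzD s' (ExteriorAlgebra.map f (ι D m * x)) =
      α • ExteriorAlgebra.map f (kzD s (ι D m * x))
    rw [map_mul, map_apply_ι, kzD_mul, kzD_mul, hx, hf, map_sub, map_smul, map_mul, map_apply_ι,
      smul_sub, mul_smul, mul_smul_comm]

lemma kz_map_map (f : M →ₗ[D] M') (g : M' →ₗ[D] M) (β : D) (hgf : ∀ m, g (f m) = β • m) (k : ℕ) :
    ∀ x ∈ ⋀[D]^k M, ExteriorAlgebra.map g (ExteriorAlgebra.map f x) = β ^ k • x := by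
  induction k with
  | zero =>
    intro x hx
    obtain ⟨r, rfl⟩ := kz_zero hx
    rw [AlgHom.commutes, AlgHom.commutes, pow_zero, one_smul]
  | succ k ih =>
    intro x hx
    refine kz_ind (P := fun x => ExteriorAlgebra.map g (ExteriorAlgebra.map f x) = β ^ (k + 1) • x)
      (fun m y hy => ?_) (fun a b ha hb => ?_) hx
    · rw [map_mul, map_mul, map_apply_ι, map_apply_ι, ih y hy, hgf, map_smul, smul_mul_smul_comm,
        pow_succ']
    · rw [map_add, map_add, ha, hb, smul_add]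

/-- Cycles. -/
noncomputable def kzZ (s : M →ₗ[D] D) (k : ℕ) : Submodule D (ExteriorAlgebra D M) :=
  ⋀[D]^k M ⊓ LinearMap.ker (kzD s)

/-- Boundaries. -/
noncomputable def kzB (s : M →ₗ[D] D) (k : ℕ) : Submodule D (ExteriorAlgebra D M) :=
  (⋀[D]^(k + 1) M).map (kzD s)

lemma kzB_le (s : M →ₗ[D] D) (k : ℕ) : kzB s k ≤ kzZ s k := by
  rintro _ ⟨x, hx, rfl⟩
  exact ⟨kzD_mem s k x hx, kzD_kzD s x⟩

lemma kz_smul_mem (s : M →ₗ[D] D) {k : ℕ} (m : M) {z : ExteriorAlgebra D M} (hz : z ∈ kzZ s k) :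
    s m • z ∈ kzB s k :=
  ⟨ι D m * z, kz_mul_mem m hz.1, by
    rw [kzD_mul, show kzD s z = 0 from hz.2, mul_zero, sub_zero]⟩

/-- Homology. -/
abbrev kzH (s : M →ₗ[D] D) (k : ℕ) : Type :=
  (kzZ s k) ⧸ (kzB s k).comap (kzZ s k).subtype

lemma kzH_smul (s : M →ₗ[D] D) {k : ℕ} {b : D} {m : M} (h : b + s m = 1) (x : kzH s k) :
    b • x = x := by
  obtain ⟨z, rfl⟩ := Submodule.Quotient.mk_surjective _ x
  rw [← Submodule.Quotient.mk_smul, eq_comm, Submodule.Quotient.eq]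
  have : (z : ExteriorAlgebra D M) - b • (z : ExteriorAlgebra D M) =
      s m • (z : ExteriorAlgebra D M) := by
    rw [eq_sub_of_add_eq' h, sub_smul, one_smul]
  change (z : ExteriorAlgebra D M) - b • (z : ExteriorAlgebra D M) ∈ kzB s k
  rw [this]
  exact kz_smul_mem s m z.2

lemma kzH_pow_smul (s : M →ₗ[D] D) {k : ℕ} {b : D} {m : M} (h : b + s m = 1) (j : ℕ)
    (x : kzH s k) : b ^ j • x = x := by
  induction j with
  | zero => rw [pow_zero, one_smul]
  | succ j ih => rw [pow_succ, mul_smul, kzH_smul s h, ih]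

lemma kz_map_Z (s : M →ₗ[D] D) (s' : M' →ₗ[D] D) (f : M →ₗ[D] M') (α : D)
    (hf : ∀ m, s' (f m) = α * s m) (k : ℕ) :
    ∀ z ∈ kzZ s k, (ExteriorAlgebra.map f).toLinearMap z ∈ kzZ s' k := fun z hz =>
  ⟨kz_map_mem f k z hz.1, by
    change kzD s' (ExteriorAlgebra.map f z) = 0
    rw [kzD_map s s' f α hf, show kzD s z = 0 from hz.2, map_zero, smul_zero]⟩

lemma kz_map_B (s : M →ₗ[D] D) (s' : M' →ₗ[D] D) (f : M →ₗ[D] M') (α : D)
    (hf : ∀ m, s' (f m) = α * s m) (hα : ∃ a m', a * α + s' m' = 1) (k : ℕ) :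
    ∀ z ∈ kzB s k, ExteriorAlgebra.map f z ∈ kzB s' k := by
  intro z hz
  obtain ⟨a, m', e⟩ := hα
  have h1 := kz_smul_mem s' m' (kz_map_Z s s' f α hf k z (kzB_le s k hz))
  obtain ⟨w, hw, rfl⟩ := hz
  have h2 : a • α • ExteriorAlgebra.map f (kzD s w) ∈ kzB s' k :=
    Submodule.smul_mem _ _ ⟨_, kz_map_mem f _ w hw, kzD_map s s' f α hf w⟩
  have h3 := add_mem h2 h1
  rwa [AlgHom.toLinearMap_apply, ← mul_smul, ← add_smul, e, one_smul] at h3

/-- The map induced in homology. -/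
noncomputable def kzMap (s : M →ₗ[D] D) (s' : M' →ₗ[D] D) (f : M →ₗ[D] M') (α : D)
    (hf : ∀ m, s' (f m) = α * s m) (hα : ∃ a m', a * α + s' m' = 1) (k : ℕ) :
    kzH s k →ₗ[D] kzH s' k :=
  Submodule.mapQ _ _ ((ExteriorAlgebra.map f).toLinearMap.restrict (kz_map_Z s s' f α hf k))
    fun z hz => kz_map_B s s' f α hf hα k z hz

lemma kzMap_kzMap (s : M →ₗ[D] D) (s' : M' →ₗ[D] D) (f : M →ₗ[D] M') (g : M' →ₗ[D] M)
    (α α' β : D) (hf : ∀ m, s' (f m) = α * s m) (hg : ∀ m', s (g m') = α' * s' m')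
    (hgf : ∀ m, g (f m) = β • m) (hα : ∃ a m', a * α + s' m' = 1)
    (hα' : ∃ a m, a * α' + s m = 1) (k : ℕ) (x : kzH s k) :
    kzMap s' s g α' hg hα' k (kzMap s s' f α hf hα k x) = β ^ k • x := by
  obtain ⟨z, rfl⟩ := Submodule.Quotient.mk_surjective _ x
  rw [kzMap, kzMap, Submodule.mapQ_apply, Submodule.mapQ_apply, ← Submodule.Quotient.mk_smul]
  congr 1
  exact Subtype.ext (kz_map_map f g β hgf k z z.2.1)

variable [IsNoetherianRing D] [Module.Finite D M] {τ : D} (c : Chi D τ)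

lemma kzZ_finite (s : M →ₗ[D] D) (k : ℕ) : Module.Finite D (kzZ s k) :=
  Module.Finite.of_injective _
    (Submodule.inclusion_injective (inf_le_left : kzZ s k ≤ ⋀[D]^k M))

lemma kz_chi_Z (s : M →ₗ[D] D) (k : ℕ) :
    c.χ (kzZ s k) = c.χ (kzB s k) + c.χ (kzH s k) := by
  have := kzZ_finite s k
  refine c.exact (Submodule.inclusion (kzB_le s k)) (Submodule.mkQ _)
    (Submodule.inclusion_injective _) (Submodule.mkQ_surjective _) ?_
  rintro ⟨z, hz⟩
  constructor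
  · intro e
    exact ⟨⟨z, (Submodule.Quotient.mk_eq_zero ((kzB s k).comap (kzZ s k).subtype)).mp e⟩, rfl⟩
  · rintro ⟨⟨w, hw⟩, e⟩
    obtain rfl : w = z := congrArg Subtype.val e
    exact (Submodule.Quotient.mk_eq_zero _).mpr hw

omit [IsNoetherianRing D] in
lemma kz_chi_succ (s : M →ₗ[D] D) (k : ℕ) :
    c.χ (⋀[D]^(k + 1) M) = c.χ (kzZ s (k + 1)) + c.χ (kzB s k) := by
  refine c.exact (Submodule.inclusion (inf_le_left : kzZ s (k + 1) ≤ ⋀[D]^(k + 1) M))
    ((kzD s).submoduleMap (⋀[D]^(k + 1) M)) (Submodule.inclusion_injective _)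
    (LinearMap.submoduleMap_surjective _ _) ?_
  rintro ⟨z, hz⟩
  constructor
  · intro e
    exact ⟨⟨z, hz, congrArg Subtype.val e⟩, rfl⟩
  · rintro ⟨⟨w, hw⟩, e⟩
    obtain rfl : w = z := congrArg Subtype.val e
    exact Subtype.ext hw.2

lemma kz_chi_sum (s : M →ₗ[D] D) (n : ℕ) :
    ∑ k ∈ Finset.range (n + 1), c.χ (⋀[D]^k M) =
      ∑ k ∈ Finset.range (n + 1), c.χ (kzH s k) + c.χ (kzB s n) := by
  induction n with
  | zero =>
    have e : ⋀[D]^0 M = kzZ s 0 := (inf_eq_left.mpr fun x hx => kzD_zero s hx).symm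
    rw [Finset.sum_range_one, Finset.sum_range_one, c.congr (LinearEquiv.ofEq _ _ e), kz_chi_Z,
      add_comm]
  | succ n ih =>
    rw [Finset.sum_range_succ, ih, Finset.sum_range_succ _ (n + 1), kz_chi_succ c s, kz_chi_Z]
    have h2 : c.χ (kzB s n) + c.χ (kzB s n) = 0 := CharTwo.add_self_eq_zero _
    linear_combination h2

omit [IsNoetherianRing D] [Module.Finite D M] in
lemma kz_chi_B (s : M →ₗ[D] D) (n : ℕ) (h : Subsingleton (⋀[D]^(n + 1) M)) :
    c.χ (kzB s n) = 0 := by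
  have : Subsingleton (kzB s n) :=
    (LinearMap.submoduleMap_surjective (kzD s) (⋀[D]^(n + 1) M)).subsingleton
  exact c.of_subsingleton

end kz

theorem koszul {D : Type} [CommRing D] [IsNoetherianRing D] {τ : D} (c : Chi D τ)
    {M M' : Type} [AddCommGroup M] [Module D M] [Module.Finite D M]
    [AddCommGroup M'] [Module D M'] [Module.Finite D M']
    (s : M →ₗ[D] D) (s' : M' →ₗ[D] D) (f : M →ₗ[D] M') (g : M' →ₗ[D] M) (α α' β : D)
    (hf : ∀ m, s' (f m) = α * s m) (hg : ∀ m', s (g m') = α' * s' m')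
    (hgf : ∀ m, g (f m) = β • m) (hfg : ∀ m', f (g m') = β • m')
    (hα : ∃ a m', a * α + s' m' = 1) (hα' : ∃ a m, a * α' + s m = 1)
    (hβ : ∃ a m, a * β + s m = 1) (hβ' : ∃ a m', a * β + s' m' = 1)
    (N : ℕ) (hN : Subsingleton (⋀[D]^N M)) (hN' : Subsingleton (⋀[D]^N M')) :
    ∑ k ∈ Finset.range N, c.χ (⋀[D]^k M) = ∑ k ∈ Finset.range N, c.χ (⋀[D]^k M') := by
  cases N with
  | zero => simp
  | succ n =>
    rw [kz_chi_sum c s, kz_chi_sum c s', kz_chi_B c s n hN, kz_chi_B c s' n hN', add_zero,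
      add_zero]
    refine Finset.sum_congr rfl fun k _ => ?_
    have := kzZ_finite s k
    obtain ⟨a, m, e⟩ := hβ
    obtain ⟨a', m', e'⟩ := hβ'
    refine c.congr (LinearEquiv.ofBijective (kzMap s s' f α hf hα k) ⟨?_, fun y => ?_⟩)
    · rw [injective_iff_map_eq_zero]
      intro x hx
      have h1 := kzMap_kzMap s s' f g α α' β hf hg hgf hα hα' k x
      rw [hx, map_zero] at h1
      rw [← kzH_pow_smul s e k x, mul_pow, mul_smul, ← h1, smul_zero]
    · refine ⟨a' ^ k • kzMap s' s g α' hg hα' k y, ?_⟩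
      rw [map_smul, kzMap_kzMap s' s g f α' α β hg hf hfg hα' hα k y, ← mul_smul, ← mul_pow,
        kzH_pow_smul s' e' k y]

end Pool.Agent.MP_bac99f_ag.H96
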