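import Pool.Agent.MP_bac99f_ag.H96.Stage
import Pool.Agent.MP_bac99f_ag.H96.Koszul
import Pool.Agent.MP_bac99f_ag.H96.Euler

/-!
Linear forms that agree up to scalars, and the counting lemmas at the hypersurface `x = 1`.
-/

namespace Pool.Agent.MP_bac99f_ag.H96

open Function TensorProduct CommRing

variable {D : Type} [CommRing D] {M M' M'' : Type} [AddCommGroup M] [Module D M]
  [AddCommGroup M'] [Module D M'] [AddCommGroup M''] [Module D M'']

/-- Two linear forms that become isomorphic after inverting `α`, `α'`, `β`. -/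
def AIso (s : M →ₗ[D] D) (s' : M' →ₗ[D] D) (α α' β : D) : Prop :=
  ∃ (f : M →ₗ[D] M') (g : M' →ₗ[D] M), (∀ m, s' (f m) = α * s m) ∧ (∀ m', s (g m') = α' * s' m') ∧
    (∀ m, g (f m) = β • m) ∧ ∀ m', f (g m') = β • m'

lemma AIso.trans {s : M →ₗ[D] D} {s' : M' →ₗ[D] D} {s'' : M'' →ₗ[D] D} {α α' β γ γ' δ : D}
    (h : AIso s s' α α' β) (h' : AIso s' s'' γ γ' δ) : AIso s s'' (α * γ) (α' * γ') (β * δ) := by
  obtain ⟨f, g, h1, h2, h3, h4⟩ := h
  obtain ⟨f', g', h1', h2', h3', h4'⟩ := h'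
  refine ⟨f' ∘ₗ f, g ∘ₗ g', fun m => ?_, fun m => ?_, fun m => ?_, fun m => ?_⟩
  · simp only [LinearMap.comp_apply, h1, h1']
    ring
  · simp only [LinearMap.comp_apply, h2, h2']
    ring
  · simp only [LinearMap.comp_apply, h3, h3', map_smul, smul_smul, mul_comm]
  · simp only [LinearMap.comp_apply, h4, h4', map_smul, smul_smul]

lemma exists_of_isUnit (s : M →ₗ[D] D) {z : D}
    (h : IsUnit (Ideal.Quotient.mk (LinearMap.range s) z)) : ∃ a m, a * z + s m = 1 := by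
  obtain ⟨b, hb⟩ := h.exists_left_inv
  obtain ⟨a, rfl⟩ := Ideal.Quotient.mk_surjective b
  rw [← map_mul, ← map_one (Ideal.Quotient.mk _), eq_comm, Ideal.Quotient.eq] at hb
  obtain ⟨m, hm⟩ := hb
  exact ⟨a, m, by rw [hm]; ring⟩

lemma AIso.koszul [IsNoetherianRing D] {τ : D} (χ : Chi D τ) [Module.Finite D M]
    [Module.Finite D M'] {s : M →ₗ[D] D} {s' : M' →ₗ[D] D} {α α' β H : D}
    (h : AIso s s' α α' β) (hα : ∃ k, α ∣ H ^ k) (hα' : ∃ k, α' ∣ H ^ k) (hβ : ∃ k, β ∣ H ^ k)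
    (hs : IsUnit (Ideal.Quotient.mk (LinearMap.range s) H))
    (hs' : IsUnit (Ideal.Quotient.mk (LinearMap.range s') H))
    (N : ℕ) (hN : Subsingleton (⋀[D]^N M)) (hN' : Subsingleton (⋀[D]^N M')) :
    ∑ k ∈ Finset.range N, χ.χ (⋀[D]^k M) = ∑ k ∈ Finset.range N, χ.χ (⋀[D]^k M') := by
  obtain ⟨f, g, h1, h2, h3, h4⟩ := h
  have key : ∀ (I : Ideal D) (z : D), IsUnit (Ideal.Quotient.mk I H) → (∃ k, z ∣ H ^ k) →
      IsUnit (Ideal.Quotient.mk I z) := fun I z hI ⟨k, hk⟩ =>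
    isUnit_of_dvd_unit (map_dvd _ hk) (by rw [map_pow]; exact hI.pow k)
  exact H96.koszul χ s s' f g α α' β h1 h2 h3 h4 (exists_of_isUnit _ (key _ _ hs' hα))
    (exists_of_isUnit _ (key _ _ hs hα')) (exists_of_isUnit _ (key _ _ hs hβ))
    (exists_of_isUnit _ (key _ _ hs' hβ)) N hN hN'

lemma lTensor_bijective (Q : Type) [AddCommGroup Q] [Module D Q] (f : M →ₗ[D] M')
    (g : M' →ₗ[D] M) {β v : D} (h : ∀ m, g (f m) = β • m) (h' : ∀ m, f (g m) = β • m)
    (hQ : ∀ z : Q, (v * β) • z = z) : Bijective (f.lTensor Q) := by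
  refine bijective_iff_has_inverse.mpr ⟨(v • g.lTensor Q : _ →ₗ[D] _), fun t => ?_, fun t => ?_⟩
  · induction t with
    | zero => simp
    | tmul a m => simp [h, smul_smul, smul_tmul', hQ]
    | add a b ha hb => rw [map_add, map_add, ha, hb]
  · induction t with
    | zero => simp
    | tmul a m => simp [h', smul_smul, smul_tmul', hQ, mul_comm β v]
    | add a b ha hb => rw [map_add, map_add, ha, hb]

lemma Cx.smul_eq_self (c : Cx D) {Q : Type} [AddCommGroup Q] [Module D Q]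
    (hQ : ∀ z : Q, (c.x - 1) • z = 0) (k : ℕ) (z : Q) : (c.h ^ k * (1 + c.x) ^ k) • z = z := by
  rw [← mul_pow]
  induction k with
  | zero => simp
  | succ k ih =>
    rw [pow_succ, mul_smul]
    convert ih using 2
    linear_combination (norm := module) c.h • hQ z + c.hh • z

variable {n : ℕ} (c : Fin n → Cx D) {τ : D} (χ : Chi D τ)

lemma exists_iota (i : Fin n) (hy : (c i).y ∈ nonZeroDivisors D) (g : Fin n → ZMod 2) :
    ∃ ι : ell c (g + Pi.single i 1) →ₗ[D] ell c g, Injective ι ∧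
      ∀ z, ((c i).x - 1) • z ∈ LinearMap.range ι := by
  have : Pic.mk D ((c i).Tw D ⊗[D] ell c g) = ell c (g + Pi.single i 1) := by
    rw [Pic.mk_tensor, ell_add, ell_single, Pic.mk_eq_self, mul_comm]
  obtain ⟨e⟩ := Pic.mk_eq_iff.mp this
  refine ⟨(TensorProduct.lid D _).toLinearMap ∘ₗ ((c i).q D).rTensor _ ∘ₗ e.symm.toLinearMap,
    (TensorProduct.lid D _).injective.comp ((Module.Flat.rTensor_preserves_injective_linearMap _
      ((c i).q_injective hy)).comp e.symm.injective), fun z => ?_⟩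
  obtain ⟨s, hs⟩ := (c i).x_mem
  exact ⟨e (s ⊗ₜ z), by simp [hs]⟩

lemma chi_pair (i : Fin n) (hy : (c i).y ∈ nonZeroDivisors D) (g : Fin n → ZMod 2)
    [Module.Finite D M] [Module.Flat D M] [Module.Finite D M'] [Module.Flat D M']
    (f : M →ₗ[D] M') (f' : M' →ₗ[D] M) {k : ℕ} (h : ∀ m, f' (f m) = (1 + (c i).x) ^ k • m)
    (h' : ∀ m, f (f' m) = (1 + (c i).x) ^ k • m) :
    χ.χ (ell c g ⊗[D] M) + χ.χ (ell c (g + Pi.single i 1) ⊗[D] M) =
      χ.χ (ell c g ⊗[D] M') + χ.χ (ell c (g + Pi.single i 1) ⊗[D] M') := by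
  obtain ⟨ι, h1, h2⟩ := exists_iota c i hy g
  have key : ∀ (M : Type) [AddCommGroup M] [Module D M] [Module.Finite D M] [Module.Flat D M],
      χ.χ (ell c g ⊗[D] M) + χ.χ (ell c (g + Pi.single i 1) ⊗[D] M) =
        χ.χ ((ell c g ⧸ LinearMap.range ι) ⊗[D] M) := fun M _ _ _ _ => by
    rw [χ.exact (ι.rTensor M) ((LinearMap.range ι).mkQ.rTensor M)
      (Module.Flat.rTensor_preserves_injective_linearMap _ h1)
      (LinearMap.rTensor_surjective M (LinearMap.range ι).mkQ_surjective)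
      (rTensor_exact M (LinearMap.exact_map_mkQ_range ι) (LinearMap.range ι).mkQ_surjective),
      add_right_comm, CharTwo.add_self_eq_zero, zero_add]
  rw [key, key]
  refine χ.congr (LinearEquiv.ofBijective _ (lTensor_bijective _ f f' h h'
    ((c i).smul_eq_self (fun z => ?_) k)))
  obtain ⟨z, rfl⟩ := (LinearMap.range ι).mkQ_surjective z
  exact (Submodule.Quotient.mk_eq_zero _).mpr (h2 z)

lemma finrank_pi_pic (κ : Type) [Field κ] [Algebra D κ] (ι : Type) [Fintype ι] (f : ι → Pic D) :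
    Module.finrank κ (κ ⊗[D] ∀ i, f i) = Fintype.card ι := by
  classical
  rw [(TensorProduct.piRight D κ κ fun i => f i).finrank_eq, Module.finrank_pi_fintype]
  simp [Module.Invertible.finrank_eq_one]

lemma card_eq_aux (c : Cx D) (κ : Type) [Field κ] [Algebra D κ]
    (hκ : algebraMap D κ (c.x - 1) = 0) {r : ℕ} [Module.Finite D M]
    (f : M →ₗ[D] Fin r → D) (f' : (Fin r → D) →ₗ[D] M) {k : ℕ}
    (h : ∀ m, f' (f m) = (1 + c.x) ^ k • m) (h' : ∀ m, f (f' m) = (1 + c.x) ^ k • m)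
    {ι₀ ι₁ : Type} [Fintype ι₀] [Fintype ι₁] (f₀ : ι₀ → Pic D) (f₁ : ι₁ → Pic D)
    (e : (M × ∀ i, f₁ i) ≃ₗ[D] ∀ i, f₀ i) : Fintype.card ι₀ = Fintype.card ι₁ + r := by
  have h1 : Bijective (f.baseChange κ) := lTensor_bijective κ f f' h h'
    (c.smul_eq_self (fun z => by rw [Algebra.smul_def, hκ, zero_mul]) k)
  rw [← finrank_pi_pic κ _ f₀, ← finrank_pi_pic κ _ f₁, ← (e.baseChange D κ _ _).finrank_eq,
    (TensorProduct.prodRight D κ κ M (∀ i, f₁ i)).finrank_eq, Module.finrank_prod,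
    (LinearEquiv.ofBijective _ h1).finrank_eq, add_comm,
    (TensorProduct.piScalarRight D κ κ (Fin r)).finrank_eq]
  simp

lemma card_eq (i : Fin n) (hy : (c i).y ∈ nonZeroDivisors D)
    (hχ : ∀ g, χ.χ (ell c g) = if g = 0 then 1 else 0) {r : ℕ} [Module.Finite D M]
    (f : M →ₗ[D] Fin r → D) (f' : (Fin r → D) →ₗ[D] M) {k : ℕ}
    (h : ∀ m, f' (f m) = (1 + (c i).x) ^ k • m) (h' : ∀ m, f (f' m) = (1 + (c i).x) ^ k • m)
    {ι₀ ι₁ : Type} [Fintype ι₀] [Fintype ι₁] (f₀ : ι₀ → Pic D) (f₁ : ι₁ → Pic D)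
    (e : (M × ∀ i, f₁ i) ≃ₗ[D] ∀ i, f₀ i) : Fintype.card ι₀ = Fintype.card ι₁ + r := by
  have hne : LinearMap.range ((c i).q D) ≠ ⊤ := fun e => by
    have h1 := χ.congr (LinearEquiv.ofBijective _ ⟨(c i).q_injective hy,
      LinearMap.range_eq_top.mp e⟩)
    obtain ⟨e1⟩ := Pic.mk_eq_iff.mp (ell_single c i).symm
    have h0 : Pic.mk D D = ell c 0 := by simp [ell, Pic.mk_self]
    obtain ⟨e0⟩ := Pic.mk_eq_iff.mp h0
    rw [χ.congr e1, χ.congr e0, hχ, hχ, if_pos rfl,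
      if_neg fun h => absurd (congrFun h i) (by simp)] at h1
    exact zero_ne_one h1
  obtain ⟨𝔪, h𝔪, hle⟩ := Ideal.exists_le_maximal _ hne
  let := Ideal.Quotient.field 𝔪
  exact card_eq_aux (c i) (D ⧸ 𝔪) (Ideal.Quotient.eq_zero_iff_mem.mpr (hle (c i).x_mem))
    f f' h h' f₀ f₁ e

end Pool.Agent.MP_bac99f_ag.H96
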