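import Mathlib

/-!
Additive invariants modulo two of finitely generated modules, and their propagation from a ring
to a conic over it.
-/

namespace Pool.Agent.MP_bac99f_ag.H96

open Function Filter

set_option linter.unusedSectionVars false

/-- An additive invariant with values in `ZMod 2` that vanishes on modules with a square root
of `τ`. -/
structure Chi (A : Type) [CommRing A] (τ : A) where
  χ : ∀ (M : Type) [AddCommGroup M] [Module A M], ZMod 2
  exact : ∀ {M' M M'' : Type} [AddCommGroup M'] [Module A M'] [AddCommGroup M] [Module A M]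
    [AddCommGroup M''] [Module A M''] [Module.Finite A M] (f : M' →ₗ[A] M) (g : M →ₗ[A] M''),
    Injective f → Surjective g → Exact f g → χ M = χ M' + χ M''
  theta : ∀ {M : Type} [AddCommGroup M] [Module A M] [Module.Finite A M] (θ : M →ₗ[A] M),
    (∀ m, θ (θ m) = τ • m) → χ M = 0

namespace Chi

variable {A : Type} [CommRing A] {τ : A} (c : Chi A τ) {M N : Type} [AddCommGroup M] [Module A M]
  [AddCommGroup N] [Module A N]

lemma of_subsingleton [Subsingleton M] : c.χ M = 0 :=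
  c.theta 0 fun _ => Subsingleton.elim _ _

lemma congr [Module.Finite A M] (e : M ≃ₗ[A] N) : c.χ M = c.χ N := by
  rw [c.exact (0 : PUnit →ₗ[A] M) e.toLinearMap (fun _ _ _ => rfl) e.surjective
    (fun m => ⟨fun h => ⟨0, (e.map_eq_zero_iff.mp h).symm⟩, fun ⟨_, h⟩ => h ▸ map_zero _⟩),
    c.of_subsingleton, zero_add]

lemma prod [Module.Finite A M] [Module.Finite A N] : c.χ (M × N) = c.χ M + c.χ N :=
  c.exact (LinearMap.inl A M N) (LinearMap.snd A M N) LinearMap.inl_injective
    LinearMap.snd_surjective Function.Exact.inl_snd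

lemma ker_add (f : M →ₗ[A] N) [Module.Finite A M] (hf : Surjective f) :
    c.χ M = c.χ (LinearMap.ker f) + c.χ N :=
  c.exact _ f (Submodule.subtype_injective _) hf (LinearMap.exact_subtype_ker_map f)

lemma pi [Module.Finite A M] (n : ℕ) : c.χ (Fin n → M) = n * c.χ M := by
  induction n with
  | zero => simp [c.of_subsingleton]
  | succ n ih =>
    rw [← c.congr (Fin.consLinearEquiv A fun _ : Fin (n + 1) => M), c.prod, ih]
    push_cast
    ring

end Chi

section filtration

variable {A A' : Type} [CommRing A] [CommRing A'] [Algebra A A'] {τ : A} {x y : A'}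
  {M : Type} [AddCommGroup M] [Module A' M] [Module A M] [IsScalarTower A A' M]

variable (A) in
/-- Multiplication by an element of the larger ring. -/
def mulBy (a : A') : M →ₗ[A] M where
  toFun m := a • m
  map_add' := smul_add a
  map_smul' r m := smul_comm a r m

@[simp] lemma mulBy_apply (a : A') (m : M) : mulBy A a m = a • m := rfl

/-- Multiplication by `x` and by `y` raises the index by one. -/
def Compat (x y : A') (G : ℕ → Submodule A M) : Prop :=
  ∀ j, ∀ m ∈ G j, x • m ∈ G (j + 1) ∧ y • m ∈ G (j + 1)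

/-- A good filtration. -/
structure Good (x y : A') (F : ℕ → Submodule A M) : Prop where
  fg : ∀ j, (F j).FG
  mono : Monotone F
  compat : Compat x y F
  exh : ∀ m, ∃ j, m ∈ F j
  surj : ∀ᶠ j in atTop, ∀ m ∈ F (j + 1), ∃ m' ∈ F j, m - y • m' ∈ F j

variable {F G : ℕ → Submodule A M}

lemma Good.shift (h : Good x y F) (i : ℕ) : Good x y fun j => F (j + i) where
  fg j := h.fg _
  mono a b hab := h.mono (by omega)
  compat j m hm := by simpa only [Nat.add_right_comm j 1 i] using h.compat _ m hm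
  exh m := by
    obtain ⟨j, hj⟩ := h.exh m
    exact ⟨j, h.mono (by omega) hj⟩
  surj := by
    simpa only [Nat.add_right_comm _ 1 i] using (tendsto_add_atTop_nat i).eventually h.surj

lemma Compat.pow_mem (h : Compat x y F) {j : ℕ} {m : M} (hm : m ∈ F j) (k : ℕ) :
    y ^ k • m ∈ F (j + k) := by
  induction k with
  | zero => simpa using hm
  | succ k ih =>
    rw [pow_succ', mul_smul]
    exact (h _ _ ih).2

lemma Good.iter (h : Good x y F) : ∃ j₀, ∀ k, ∀ m ∈ F (j₀ + k + 1), ∃ m₀ ∈ F (j₀ + 1),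
    m - y ^ k • m₀ ∈ F (j₀ + k) := by
  obtain ⟨j₀, hj⟩ := eventually_atTop.mp h.surj
  refine ⟨j₀, fun k => ?_⟩
  induction k with
  | zero => exact fun m hm => ⟨m, hm, by simp⟩
  | succ k ih =>
    intro m hm
    obtain ⟨m', h1, h2⟩ := hj (j₀ + k + 1) (by omega) m hm
    obtain ⟨m₀, h3, h4⟩ := ih m' h1
    refine ⟨m₀, h3, ?_⟩
    have := add_mem h2 (h.compat _ _ h4).2
    rwa [smul_sub, sub_add_sub_cancel, ← mul_smul, ← pow_succ'] at this

variable [IsNoetherianRing A]

lemma Good.relsurj (h : Good x y F) (hG : Compat x y G) : ∀ᶠ j in atTop,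
    ∀ m ∈ F (j + 2), (∃ g ∈ G (j + 1), m - g ∈ F (j + 1)) →
      ∃ m' ∈ F (j + 1) ⊓ G j, m - y • m' ∈ F (j + 1) := by
  obtain ⟨j₀, hj⟩ := h.iter
  have : Module.Finite A (F (j₀ + 1)) := Module.Finite.iff_fg.mpr (h.fg _)
  let N : ℕ →o Submodule A (F (j₀ + 1)) :=
    ⟨fun k => (F (j₀ + k) ⊔ G (j₀ + k)).comap ((mulBy A (y ^ k)).comp (F (j₀ + 1)).subtype),
      monotone_nat_of_le_succ fun k m hm => by
        obtain ⟨a, ha, b, hb, hab⟩ := Submodule.mem_sup.mp hm
        refine Submodule.mem_sup.mpr ⟨_, (h.compat _ _ ha).2, _, (hG _ _ hb).2, ?_⟩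
        rw [← smul_add, hab]
        simp [pow_succ', mul_smul]⟩
  obtain ⟨k₀, hk⟩ := monotone_stabilizes_iff_noetherian.mpr inferInstance N
  refine eventually_atTop.mpr ⟨j₀ + k₀, fun j hj' m hm ⟨g, hg, hmg⟩ => ?_⟩
  obtain ⟨k, rfl⟩ : ∃ k, j = j₀ + k := ⟨j - j₀, by omega⟩
  obtain ⟨m₀, h1, h2⟩ := hj (k + 1) m hm
  have h3 : (⟨m₀, h1⟩ : F (j₀ + 1)) ∈ N (k + 1) :=
    Submodule.mem_sup.mpr ⟨_, sub_mem hmg h2, g, hg, by simp⟩
  rw [← hk (k + 1) (by omega), hk k (by omega)] at h3
  obtain ⟨a, ha, b, hb, hab⟩ := Submodule.mem_sup.mp h3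
  have hab' : a + b = y ^ k • m₀ := hab
  refine ⟨b, ⟨?_, hb⟩, ?_⟩
  · rw [eq_sub_of_add_eq' hab']
    exact sub_mem (by simpa only [Nat.add_right_comm j₀ 1 k] using h.compat.pow_mem h1 k)
      (h.mono (by omega) ha)
  · have := add_mem h2 (h.compat _ _ ha).2
    rwa [pow_succ', mul_smul, ← hab', smul_add, sub_add_eq_add_sub, add_comm m,
      add_sub_add_left_eq_sub] at this

lemma Good.inj (h : Good x y F) : ∀ᶠ j in atTop,
    ∀ m ∈ F (j + 1), y • m ∈ F (j + 1) → m ∈ F j := by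
  obtain ⟨j₀, hj⟩ := h.iter
  have : Module.Finite A (F (j₀ + 1)) := Module.Finite.iff_fg.mpr (h.fg _)
  let N : ℕ →o Submodule A (F (j₀ + 1)) :=
    ⟨fun k => (F (j₀ + k)).comap ((mulBy A (y ^ k)).comp (F (j₀ + 1)).subtype),
      monotone_nat_of_le_succ fun k m hm => by
        have := (h.compat _ _ hm).2
        simpa [pow_succ', mul_smul, ← add_assoc] using this⟩
  obtain ⟨k₀, hk⟩ := monotone_stabilizes_iff_noetherian.mpr inferInstance N
  refine eventually_atTop.mpr ⟨j₀ + k₀, fun j hj' m hm hy => ?_⟩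
  obtain ⟨k, rfl⟩ : ∃ k, j = j₀ + k := ⟨j - j₀, by omega⟩
  obtain ⟨m₀, h1, h2⟩ := hj k m hm
  have h3 : (⟨m₀, h1⟩ : F (j₀ + 1)) ∈ N (k + 1) := by
    have := sub_mem hy (h.compat _ _ h2).2
    rw [smul_sub, sub_sub_cancel, ← mul_smul, ← pow_succ'] at this
    exact this
  rw [← hk (k + 1) (by omega), hk k (by omega)] at h3
  simpa using add_mem h2 h3

lemma Good.exists_theta (hxy : x * x = algebraMap A A' τ * (y * y) + 1) (h : Good x y F)
    (hG : Compat x y G) : ∀ᶠ j in atTop,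
    ∃ θ : (F (j + 1) ⊓ G j).map (F j).mkQ →ₗ[A] (F (j + 1) ⊓ G j).map (F j).mkQ,
      (∀ q, θ (θ q) = τ • q) ∧ ∀ (g g' : M) (hg : g ∈ F (j + 1) ⊓ G j), g' ∈ F (j + 1) →
        x • g - y • g' ∈ F (j + 1) →
          (θ ⟨(F j).mkQ g, Submodule.mem_map_of_mem hg⟩ : M ⧸ F j) = (F j).mkQ g' := by
  filter_upwards [h.relsurj hG, h.inj, (tendsto_add_atTop_nat 1).eventually h.inj]
    with j h1 h2 h3
  let X : (M ⧸ F j) →ₗ[A] M ⧸ F (j + 1) := Submodule.mapQ _ _ (mulBy A x) fun m hm =>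
    (h.compat _ _ hm).1
  let Y : (M ⧸ F j) →ₗ[A] M ⧸ F (j + 1) := Submodule.mapQ _ _ (mulBy A y) fun m hm =>
    (h.compat _ _ hm).2
  set Q := (F (j + 1) ⊓ G j).map (F j).mkQ
  have hY : ∀ g ∈ F (j + 1), ∀ g' ∈ F (j + 1), Y ((F j).mkQ g) = Y ((F j).mkQ g') →
      (F j).mkQ g = (F j).mkQ g' := fun g hg g' hg' e =>
    (Submodule.Quotient.eq _).mpr (h2 _ (sub_mem hg hg') (by
      rw [smul_sub]
      exact (Submodule.Quotient.eq _).mp e))
  have hinj : Injective (Y.comp Q.subtype) := by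
    rintro ⟨_, g, hg, rfl⟩ ⟨_, g', hg', rfl⟩ e
    exact Subtype.ext (hY g hg.1 g' hg'.1 e)
  have hex : ∀ g ∈ F (j + 1) ⊓ G j, ∃ g' ∈ F (j + 1) ⊓ G j, x • g - y • g' ∈ F (j + 1) :=
    fun g hg => h1 _ (h.compat _ _ hg.1).1 ⟨_, (hG _ _ hg.2).1, by simp⟩
  have hrange : ∀ q, (X.comp Q.subtype) q ∈ LinearMap.range (Y.comp Q.subtype) := by
    rintro ⟨_, g, hg, rfl⟩
    obtain ⟨g', hg', e⟩ := hex g hg
    exact ⟨⟨_, g', hg', rfl⟩, ((Submodule.Quotient.eq _).mpr e).symm⟩
  let θ := (LinearEquiv.ofInjective _ hinj).symm.toLinearMap.comp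
    ((X.comp Q.subtype).codRestrict _ hrange)
  have hθ : ∀ q, Y (θ q : M ⧸ F j) = X q := fun q =>
    congrArg Subtype.val ((LinearEquiv.ofInjective _ hinj).apply_symm_apply ⟨_, hrange q⟩)
  have hθ' : ∀ (g g' : M) (hg : g ∈ F (j + 1) ⊓ G j), g' ∈ F (j + 1) →
      x • g - y • g' ∈ F (j + 1) →
        (θ ⟨(F j).mkQ g, Submodule.mem_map_of_mem hg⟩ : M ⧸ F j) = (F j).mkQ g' := by
    intro g g' hg hg' e
    obtain ⟨g'', hg'', e'⟩ := (θ ⟨(F j).mkQ g, Submodule.mem_map_of_mem hg⟩).2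
    rw [← e']
    refine hY _ hg''.1 _ hg' ?_
    rw [e', hθ]
    exact (Submodule.Quotient.eq _).mpr e
  refine ⟨θ, ?_, hθ'⟩
  rintro ⟨_, g, hg, rfl⟩
  obtain ⟨g', hg', e'⟩ := hex g hg
  obtain ⟨g'', hg'', e''⟩ := hex g' hg'
  have e1 : θ ⟨(F j).mkQ g, Submodule.mem_map_of_mem hg⟩ =
      ⟨(F j).mkQ g', Submodule.mem_map_of_mem hg'⟩ := Subtype.ext (hθ' g g' hg hg'.1 e')
  refine Subtype.ext ?_
  rw [e1, hθ' g' g'' hg' hg''.1 e'']
  have h4 : g'' - τ • g ∈ F (j + 1) := sub_mem hg''.1 (Submodule.smul_mem _ _ hg.1)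
  refine (Submodule.Quotient.eq _).mpr (h2 _ h4 (h3 _ (h.compat _ _ h4).2 ?_))
  have h5 := sub_mem (h.mono (Nat.le_succ _) hg.1)
    (add_mem (h.compat _ _ e').1 (h.compat _ _ e'').2)
  convert h5 using 1
  change y • y • (g'' - τ • g) = _
  rw [smul_sub, smul_sub, smul_sub, smul_sub, ← mul_smul x x, hxy, ← algebraMap_smul A' τ g]
  module

variable (c : Chi A τ)

omit [IsScalarTower A A' M] [IsNoetherianRing A] in
lemma Good.finite (h : Good x y F) (j : ℕ) : Module.Finite A (F j) :=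
  Module.Finite.iff_fg.mpr (h.fg _)

omit [IsScalarTower A A' M] in
lemma Good.finite_of_le (h : Good x y F) {j : ℕ} {N : Submodule A M} (hN : N ≤ F j) :
    Module.Finite A N :=
  have := h.finite j
  Module.Finite.of_injective _ (Submodule.inclusion_injective hN)

lemma Good.chi_step (hxy : x * x = algebraMap A A' τ * (y * y) + 1) (h : Good x y F)
    (hG : Compat x y G) : ∀ᶠ j in atTop, c.χ ↥(F (j + 1) ⊓ G j) = c.χ ↥(F j ⊓ G j) := by
  filter_upwards [h.exists_theta hxy hG] with j ⟨θ, hθ, _⟩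
  have := h.finite_of_le (inf_le_left : F (j + 1) ⊓ G j ≤ _)
  have hs := LinearMap.submoduleMap_surjective (F j).mkQ (F (j + 1) ⊓ G j)
  have := Module.Finite.of_surjective _ hs
  rw [c.exact (Submodule.inclusion (inf_le_inf_right (G j) (h.mono (Nat.le_succ j)))) _
    (Submodule.inclusion_injective _) hs, c.theta θ hθ, add_zero]
  rintro ⟨m, hm⟩
  constructor
  · intro e
    exact ⟨⟨m, (Submodule.Quotient.mk_eq_zero _).mp (congrArg Subtype.val e), hm.2⟩, rfl⟩
  · rintro ⟨⟨m', hm'⟩, e⟩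
    obtain rfl : m' = m := congrArg Subtype.val e
    exact Subtype.ext ((Submodule.Quotient.mk_eq_zero _).mpr hm'.1)

lemma Good.chi_shift (hxy : x * x = algebraMap A A' τ * (y * y) + 1) (h : Good x y F)
    (hG : Compat x y G) (i : ℕ) :
    ∀ᶠ j in atTop, c.χ ↥(F (j + i) ⊓ G j) = c.χ ↥(F j ⊓ G j) := by
  induction i with
  | zero => simp
  | succ i ih =>
    filter_upwards [ih, (h.shift i).chi_step c hxy hG] with j h1 h2
    rw [← h1, ← h2, Nat.add_right_comm j 1 i]
    rfl

omit [IsScalarTower A A' M] [IsNoetherianRing A] in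
lemma Good.exists_le (h : Good x y F) {N : Submodule A M} (hN : N.FG) : ∃ j, N ≤ F j := by
  obtain ⟨s, rfl⟩ := hN
  choose f hf using h.exh
  exact ⟨s.sup f, Submodule.span_le.mpr fun m hm => h.mono (Finset.le_sup hm) (hf m)⟩

lemma Good.chi_eq_inf (hxy : x * x = algebraMap A A' τ * (y * y) + 1) (h : Good x y F)
    (hG : Good x y G) : ∀ᶠ j in atTop, c.χ (G j) = c.χ ↥(F j ⊓ G j) := by
  obtain ⟨j₀, hj⟩ := eventually_atTop.mp hG.surj
  obtain ⟨i, hi⟩ := h.exists_le (hG.fg j₀)
  have key : ∀ j, j₀ ≤ j → G j ≤ F (j + i) := by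
    intro j hj'
    induction j, hj' using Nat.le_induction with
    | base => exact hi.trans (h.mono (by omega))
    | succ j hj' ih =>
      intro m hm
      obtain ⟨m', h1, h2⟩ := hj j hj' m hm
      have := add_mem (h.mono (Nat.le_succ _) (ih h2)) (h.compat _ _ (ih h1)).2
      rw [sub_add_cancel] at this
      rwa [Nat.add_right_comm]
  filter_upwards [h.chi_shift c hxy hG.compat i, eventually_ge_atTop j₀] with j h1 h2
  rw [← h1, inf_eq_right.mpr (key j h2)]

lemma Good.chi_unique (hxy : x * x = algebraMap A A' τ * (y * y) + 1) (h : Good x y F)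
    (hG : Good x y G) : ∀ᶠ j in atTop, c.χ (F j) = c.χ (G j) := by
  filter_upwards [h.chi_eq_inf c hxy hG, hG.chi_eq_inf c hxy h] with j h1 h2
  rw [h1, h2, inf_comm]

lemma Good.chi_const (hxy : x * x = algebraMap A A' τ * (y * y) + 1) (h : Good x y F) :
    ∃ v, ∀ᶠ j in atTop, c.χ (F j) = v := by
  obtain ⟨j₀, hj⟩ := eventually_atTop.mp (h.chi_unique c hxy (h.shift 1))
  refine ⟨c.χ (F j₀), eventually_atTop.mpr ⟨j₀, fun j hj' => ?_⟩⟩
  induction j, hj' using Nat.le_induction with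
  | base => rfl
  | succ j hj' ih => rw [← hj j hj', ih]

/-- The filtration generated by a submodule. -/
def stdFil (x y : A') (N : Submodule A M) : ℕ → Submodule A M
  | 0 => N
  | j + 1 => stdFil x y N j ⊔ (stdFil x y N j).map (mulBy A x) ⊔ (stdFil x y N j).map (mulBy A y)

omit [IsNoetherianRing A] in
lemma good_stdFil (hxy : x * x = algebraMap A A' τ * (y * y) + 1)
    (hgen : Algebra.adjoin A {x, y} = ⊤) {N : Submodule A M} (hN : N.FG)
    (hsp : Submodule.span A' (N : Set M) = ⊤) : Good x y (stdFil x y N) := by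
  have hmono : ∀ j, stdFil x y N j ≤ stdFil x y N (j + 1) := fun j =>
    le_sup_left.trans le_sup_left
  have hc : Compat x y (stdFil x y N) := fun j m hm =>
    ⟨Submodule.mem_sup_left (Submodule.mem_sup_right ⟨m, hm, rfl⟩),
      Submodule.mem_sup_right ⟨m, hm, rfl⟩⟩
  have hdec : ∀ j, ∀ m ∈ stdFil x y N (j + 1), ∃ a ∈ stdFil x y N j, ∃ b ∈ stdFil x y N j,
      ∃ d ∈ stdFil x y N j, m = a + x • b + y • d := by
    intro j m hm
    obtain ⟨_, h1, _, ⟨d, hd, rfl⟩, rfl⟩ := Submodule.mem_sup.mp hm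
    obtain ⟨a, ha, _, ⟨b, hb, rfl⟩, rfl⟩ := Submodule.mem_sup.mp h1
    exact ⟨a, ha, b, hb, d, hd, rfl⟩
  have hadd : ∀ m m', (∃ j, m ∈ stdFil x y N j) → (∃ j, m' ∈ stdFil x y N j) →
      ∃ j, m + m' ∈ stdFil x y N j := fun m m' ⟨i, hi⟩ ⟨j, hj⟩ =>
    ⟨max i j, add_mem (monotone_nat_of_le_succ hmono (le_max_left i j) hi)
      (monotone_nat_of_le_succ hmono (le_max_right i j) hj)⟩
  refine ⟨fun j => ?_, monotone_nat_of_le_succ hmono, hc, fun m => ?_, ?_⟩
  · induction j with
    | zero => exact hN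
    | succ j ih => exact (ih.sup (ih.map _)).sup (ih.map _)
  · have hs : ∀ a ∈ Algebra.adjoin A {x, y}, ∀ m, (∃ j, m ∈ stdFil x y N j) →
        ∃ j, a • m ∈ stdFil x y N j := by
      intro a ha
      induction ha using Algebra.adjoin_induction with
      | mem a ha =>
        rintro m ⟨j, hj⟩
        rcases ha with rfl | rfl
        exacts [⟨_, (hc _ _ hj).1⟩, ⟨_, (hc _ _ hj).2⟩]
      | algebraMap r =>
        rintro m ⟨j, hj⟩
        exact ⟨j, by simpa using Submodule.smul_mem _ r hj⟩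
      | add a b _ _ ha hb =>
        intro m hm
        rw [add_smul]
        exact hadd _ _ (ha m hm) (hb m hm)
      | mul a b _ _ ha hb =>
        intro m hm
        rw [mul_smul]
        exact ha _ (hb m hm)
    have hm : m ∈ Submodule.span A' (N : Set M) := hsp ▸ Submodule.mem_top
    induction hm using Submodule.span_induction with
    | mem m hm => exact ⟨0, hm⟩
    | zero => exact ⟨0, zero_mem _⟩
    | add a b _ _ ha hb => exact hadd _ _ ha hb
    | smul a m _ hm => exact hs a (hgen ▸ Algebra.mem_top) m hm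
  · refine eventually_atTop.mpr ⟨1, fun j hj m hm => ?_⟩
    obtain ⟨j, rfl⟩ : ∃ k, j = k + 1 := ⟨j - 1, by omega⟩
    obtain ⟨a, ha, b, hb, d, hd, rfl⟩ := hdec _ m hm
    obtain ⟨a', ha', b', hb', d', hd', rfl⟩ := hdec _ b hb
    refine ⟨d + x • d' + τ • y • b', add_mem (add_mem hd (hc _ _ hd').1)
      (Submodule.smul_mem _ _ (hc _ _ hb').2), ?_⟩
    convert add_mem (add_mem ha (hc _ _ ha').1) (hmono _ hb') using 1
    rw [smul_add x, smul_add x, ← mul_smul x x, hxy, ← algebraMap_smul A' τ]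
    module

omit [IsNoetherianRing A] in
lemma exists_good (hxy : x * x = algebraMap A A' τ * (y * y) + 1)
    (hgen : Algebra.adjoin A {x, y} = ⊤) [Module.Finite A' M] :
    ∃ F : ℕ → Submodule A M, Good x y F ∧ Submodule.span A' (F 0 : Set M) = ⊤ := by
  obtain ⟨s, hs⟩ := Module.Finite.fg_top (R := A') (M := M)
  have : Submodule.span A' (Submodule.span A (s : Set M) : Set M) = ⊤ := by
    rw [Submodule.span_span_of_tower, hs]
  exact ⟨_, good_stdFil hxy hgen ⟨s, rfl⟩ this, this⟩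

end filtration

section step

variable {A A' : Type} [CommRing A] [CommRing A'] [Algebra A A'] {τ : A} {x y : A'}
  [IsNoetherianRing A] (c : Chi A τ)

open Classical in
/-- The eventual value of the invariant along a good filtration. -/
noncomputable def stepχ (x y : A') (M : Type) [AddCommGroup M] [Module A' M] : ZMod 2 :=
  letI : Module A M := Module.compHom M (algebraMap A A')
  if h : ∃ v, ∃ F : ℕ → Submodule A M, Good x y F ∧ ∀ᶠ j in atTop, c.χ (F j) = v then h.choose
  else 0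

lemma stepχ_eq (hxy : x * x = algebraMap A A' τ * (y * y) + 1) {M : Type} [AddCommGroup M]
    [Module A' M] [inst : Module A M] [IsScalarTower A A' M] {F : ℕ → Submodule A M}
    (h : Good x y F) : ∀ᶠ j in atTop, stepχ c x y M = c.χ (F j) := by
  obtain rfl : inst = Module.compHom M (algebraMap A A') :=
    Module.ext' _ _ fun r m => (algebraMap_smul A' r m).symm
  let : Module A M := Module.compHom M (algebraMap A A')
  obtain ⟨v, hv⟩ := h.chi_const c hxy
  have hex : ∃ v, ∃ F : ℕ → Submodule A M, Good x y F ∧ ∀ᶠ j in atTop, c.χ (F j) = v :=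
    ⟨v, F, h, hv⟩
  obtain ⟨G, hG, hG'⟩ := hex.choose_spec
  filter_upwards [hG', h.chi_unique c hxy hG] with j h1 h2
  rw [stepχ, dif_pos hex, h2, h1]

/-- The invariant on the conic. -/
noncomputable def Chi.step (hxy : x * x = algebraMap A A' τ * (y * y) + 1)
    (hgen : Algebra.adjoin A {x, y} = ⊤) : Chi A' (algebraMap A A' τ) where
  χ := stepχ c x y
  exact {M' M M''} _ _ _ _ _ _ _ f g hf hg hfg := by
    let : Module A M := Module.compHom M (algebraMap A A')
    let : Module A M' := Module.compHom M' (algebraMap A A')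
    let : Module A M'' := Module.compHom M'' (algebraMap A A')
    have : IsScalarTower A A' M := IsScalarTower.of_algebraMap_smul fun _ _ => rfl
    have : IsScalarTower A A' M' := IsScalarTower.of_algebraMap_smul fun _ _ => rfl
    have : IsScalarTower A A' M'' := IsScalarTower.of_algebraMap_smul fun _ _ => rfl
    obtain ⟨F, hF, -⟩ := exists_good (M := M) hxy hgen
    have h1 : Good x y fun j => (F j).map (g.restrictScalars A) := by
      refine ⟨fun j => (hF.fg j).map _, fun a b hab => Submodule.map_mono (hF.mono hab), ?_,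
        fun m => ?_, ?_⟩
      · rintro j _ ⟨m, hm, rfl⟩
        exact ⟨⟨_, (hF.compat _ _ hm).1, by simp⟩, ⟨_, (hF.compat _ _ hm).2, by simp⟩⟩
      · obtain ⟨m, rfl⟩ := hg m
        obtain ⟨j, hj⟩ := hF.exh m
        exact ⟨j, m, hj, rfl⟩
      · filter_upwards [hF.surj] with j hj
        rintro _ ⟨m, hm, rfl⟩
        obtain ⟨m', h1, h2⟩ := hj m hm
        exact ⟨_, ⟨m', h1, rfl⟩, _, h2, by simp⟩
    have h2 : Good x y fun j => (F j).comap (f.restrictScalars A) := by
      refine ⟨fun j => ?_, fun a b hab => Submodule.comap_mono (hF.mono hab), fun j m hm => ?_,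
        fun m => hF.exh (f m), ?_⟩
      · have := hF.finite j
        exact Module.Finite.iff_fg.mp (Module.Finite.of_injective
          ((f.restrictScalars A).submoduleComap (F j)) fun a b e =>
            Subtype.ext (hf (congrArg Subtype.val e)))
      · simpa using hF.compat _ _ hm
      · have hc : Compat x y fun _ => LinearMap.range (f.restrictScalars A) := by
          rintro _ _ ⟨m, rfl⟩
          exact ⟨⟨x • m, by simp⟩, ⟨y • m, by simp⟩⟩
        obtain ⟨j₀, hj⟩ := eventually_atTop.mp (hF.relsurj hc)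
        refine eventually_atTop.mpr ⟨j₀ + 1, fun j hj' m hm => ?_⟩
        obtain ⟨j, rfl⟩ : ∃ k, j = k + 1 := ⟨j - 1, by omega⟩
        obtain ⟨_, ⟨h1, m', rfl⟩, h2⟩ := hj j (by omega) (f m) hm ⟨f m, ⟨m, rfl⟩, by simp⟩
        exact ⟨m', h1, by simpa using h2⟩
    obtain ⟨j, ⟨e, e1⟩, e2⟩ := (((stepχ_eq c hxy hF).and (stepχ_eq c hxy h1)).and
      (stepχ_eq c hxy h2)).exists
    have := hF.finite j
    rw [e, e1, e2]
    refine c.exact ((f.restrictScalars A).submoduleComap (F j))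
      ((g.restrictScalars A).submoduleMap (F j))
      (fun a b e => Subtype.ext (hf (congrArg Subtype.val e)))
      (LinearMap.submoduleMap_surjective _ _) ?_
    rintro ⟨m, hm⟩
    constructor
    · intro e
      obtain ⟨m', rfl⟩ := (hfg m).mp (congrArg Subtype.val e)
      exact ⟨⟨m', hm⟩, rfl⟩
    · rintro ⟨⟨m', hm'⟩, e⟩
      exact Subtype.ext ((hfg m).mpr ⟨m', congrArg Subtype.val e⟩)
  theta {M} _ _ _ θ hθ := by
    let : Module A M := Module.compHom M (algebraMap A A')
    have : IsScalarTower A A' M := IsScalarTower.of_algebraMap_smul fun _ _ => rfl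
    obtain ⟨F, hF, -⟩ := exists_good (M := M) hxy hgen
    have h1 : Good x y fun j => F j ⊔ (F j).map (θ.restrictScalars A) := by
      refine ⟨fun j => (hF.fg j).sup ((hF.fg j).map _), fun a b hab =>
        sup_le_sup (hF.mono hab) (Submodule.map_mono (hF.mono hab)), fun j m hm => ?_,
        fun m => (hF.exh m).imp fun j hj => Submodule.mem_sup_left hj, ?_⟩
      · obtain ⟨a, ha, _, ⟨b, hb, rfl⟩, rfl⟩ := Submodule.mem_sup.mp hm
        exact ⟨Submodule.mem_sup.mpr ⟨_, (hF.compat _ _ ha).1, _,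
          ⟨_, (hF.compat _ _ hb).1, rfl⟩, by simp⟩, Submodule.mem_sup.mpr
            ⟨_, (hF.compat _ _ ha).2, _, ⟨_, (hF.compat _ _ hb).2, rfl⟩, by simp⟩⟩
      · filter_upwards [hF.surj] with j hj m hm
        obtain ⟨a, ha, _, ⟨b, hb, rfl⟩, rfl⟩ := Submodule.mem_sup.mp hm
        obtain ⟨a', h1, h2⟩ := hj a ha
        obtain ⟨b', h3, h4⟩ := hj b hb
        refine ⟨_, Submodule.mem_sup.mpr ⟨a', h1, _, ⟨b', h3, rfl⟩, rfl⟩,
          Submodule.mem_sup.mpr ⟨_, h2, _, ⟨_, h4, rfl⟩, ?_⟩⟩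
        simp only [LinearMap.restrictScalars_apply, map_sub, map_smul, smul_add]
        abel
    obtain ⟨j, e⟩ := (stepχ_eq c hxy h1).exists
    have := h1.finite j
    rw [e]
    refine c.theta ((θ.restrictScalars A).restrict fun m hm => ?_) fun m => Subtype.ext (hθ m)
    obtain ⟨a, ha, _, ⟨b, hb, rfl⟩, rfl⟩ := Submodule.mem_sup.mp hm
    refine Submodule.mem_sup.mpr ⟨τ • b, Submodule.smul_mem _ _ hb, _, ⟨a, ha, rfl⟩, ?_⟩
    simp only [LinearMap.restrictScalars_apply, map_add, hθ, algebraMap_smul]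
    abel

lemma Chi.step_eq (hxy : x * x = algebraMap A A' τ * (y * y) + 1)
    (hgen : Algebra.adjoin A {x, y} = ⊤) {M : Type} [AddCommGroup M]
    [Module A' M] [Module A M] [IsScalarTower A A' M] {F : ℕ → Submodule A M}
    (h : Good x y F) {v : ZMod 2} (hv : ∀ j, c.χ (F j) = v) : (c.step hxy hgen).χ M = v := by
  obtain ⟨j, e⟩ := (stepχ_eq c hxy h).exists
  exact e.trans (hv j)

lemma Chi.step_of_finite (hxy : x * x = algebraMap A A' τ * (y * y) + 1)
    (hgen : Algebra.adjoin A {x, y} = ⊤) (M : Type) [AddCommGroup M]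
    [Module A' M] [Module A M] [IsScalarTower A A' M] [Module.Finite A M] :
    (c.step hxy hgen).χ M = c.χ M :=
  c.step_eq hxy hgen (F := fun _ => ⊤) ⟨fun _ => Module.Finite.fg_top, monotone_const,
    fun _ _ _ => ⟨trivial, trivial⟩, fun _ => ⟨0, trivial⟩,
    Eventually.of_forall fun _ _ _ => ⟨0, trivial, trivial⟩⟩
    fun _ => c.congr Submodule.topEquiv

end step

/-- The parity of the dimension over a field in which `τ` is not a square. -/
noncomputable def Chi.base {K : Type} [Field K] {τ : K} (hτ : ¬ IsSquare τ) : Chi K τ where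
  χ M _ _ := (Module.finrank K M : ZMod 2)
  exact f g hf hg hfg := by
    rw [← Nat.cast_add, ← LinearMap.finrank_range_add_finrank_ker g, add_comm,
      LinearMap.range_eq_top.mpr hg, finrank_top, hfg.linearMap_ker_eq,
      LinearMap.finrank_range_of_inj hf]
  theta {M} _ _ _ θ hθ := by
    by_contra h
    have hodd : Odd (Module.finrank K M) := by
      rwa [← Nat.not_even_iff_odd, even_iff_two_dvd, ← ZMod.natCast_eq_zero_iff]
    obtain ⟨n, hn⟩ := hodd
    have h1 : θ ∘ₗ θ = τ • LinearMap.id := LinearMap.ext hθ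
    have h2 := congrArg LinearMap.det h1
    rw [LinearMap.det_comp, LinearMap.det_smul, LinearMap.det_id, mul_one, hn] at h2
    have h0 : τ ≠ 0 := fun e => hτ (e ▸ IsSquare.zero)
    refine hτ ⟨LinearMap.det θ / τ ^ n, ?_⟩
    rw [div_mul_div_comm, h2]
    field_simp
    ring

end Pool.Agent.MP_bac99f_ag.H96
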