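import Mathlib

/-!
The twisted module attached to a point `(x, y)` of the conic `x ^ 2 = τ y ^ 2 + 1`.
-/

namespace Pool.Agent.MP_bac99f_ag.H96

open Function TensorProduct

/-- A point of the conic, with inverses of `τ` and of `2`. -/
structure Cx (D : Type) [CommRing D] where
  τ : D
  σ : D
  h : D
  x : D
  y : D
  hτ : τ * σ = 1
  hh : 2 * h = 1
  rel : x * x = τ * (y * y) + 1

namespace Cx

variable {D : Type} [CommRing D] (c : Cx D) (M : Type) [AddCommGroup M] [Module D M]

/-- The twist of a module, as a submodule. -/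
def TwS : Submodule D (M × M) where
  carrier := {w | (1 - c.x) • w.1 + (c.τ * c.y) • w.2 = 0 ∧ c.y • w.1 = (1 + c.x) • w.2}
  add_mem' {a b} ha hb := ⟨by
    simp only [Prod.fst_add, Prod.snd_add]
    linear_combination (norm := module) ha.1 + hb.1, by
    simp only [Prod.fst_add, Prod.snd_add]
    linear_combination (norm := module) ha.2 + hb.2⟩
  zero_mem' := by simp
  smul_mem' r a ha := ⟨by
    simp only [Prod.smul_fst, Prod.smul_snd]
    linear_combination (norm := module) r • ha.1, by
    simp only [Prod.smul_fst, Prod.smul_snd]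
    linear_combination (norm := module) r • ha.2⟩

/-- The twist of a module. -/
def Tw : Type := c.TwS M

instance : AddCommGroup (c.Tw M) := inferInstanceAs (AddCommGroup (c.TwS M))

instance module' {A : Type} [CommRing A] [SMul A D] [Module A M] [IsScalarTower A D M] :
    Module A (c.Tw M) := inferInstanceAs (Module A (c.TwS M))

instance : Module D (c.Tw M) := c.module' M

instance {A : Type} [CommRing A] [SMul A D] [Module A M] [IsScalarTower A D M] :
    IsScalarTower A D (c.Tw M) := inferInstanceAs (IsScalarTower A D (c.TwS M))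

/-- First component. -/
def p : c.Tw M →ₗ[D] M := LinearMap.fst D M M ∘ₗ (c.TwS M).subtype

/-- Second component. -/
def q : c.Tw M →ₗ[D] M := LinearMap.snd D M M ∘ₗ (c.TwS M).subtype

/-- First generator. -/
def X : M →ₗ[D] c.Tw M :=
  (LinearMap.prod ((c.h * (1 + c.x)) • LinearMap.id) ((c.h * c.y) • LinearMap.id)).codRestrict
    (c.TwS M)
    fun m => ⟨by
      simp only [LinearMap.prod_apply, Function.prod, LinearMap.smul_apply, LinearMap.id_apply]
      linear_combination (norm := module) (-c.h) • c.rel • m, by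
      simp only [LinearMap.prod_apply, Function.prod, LinearMap.smul_apply, LinearMap.id_apply]
      module⟩

/-- Second generator. -/
def Y : M →ₗ[D] c.Tw M :=
  (LinearMap.prod ((c.h * c.y) • LinearMap.id)
    ((c.h * c.σ * (c.x - 1)) • LinearMap.id)).codRestrict
    (c.TwS M)
    fun m => ⟨by
      simp only [LinearMap.prod_apply, Function.prod, LinearMap.smul_apply, LinearMap.id_apply]
      linear_combination (norm := module) (c.h * c.y * (c.x - 1)) • c.hτ • m, by
      simp only [LinearMap.prod_apply, Function.prod, LinearMap.smul_apply, LinearMap.id_apply]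
      linear_combination (norm := module) (-(c.h * c.σ)) • c.rel • m -
        (c.h * c.y * c.y) • c.hτ • m⟩

variable {M}

@[simp] lemma p_X (m : M) : c.p M (c.X M m) = (c.h * (1 + c.x)) • m := rfl
@[simp] lemma q_X (m : M) : c.q M (c.X M m) = (c.h * c.y) • m := rfl
@[simp] lemma p_Y (m : M) : c.p M (c.Y M m) = (c.h * c.y) • m := rfl
@[simp] lemma q_Y (m : M) : c.q M (c.Y M m) = (c.h * c.σ * (c.x - 1)) • m := rfl

lemma rel₁ (w : c.Tw M) : (1 - c.x) • c.p M w + (c.τ * c.y) • c.q M w = 0 := w.2.1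
lemma rel₂ (w : c.Tw M) : c.y • c.p M w = (1 + c.x) • c.q M w := w.2.2

lemma ext {w w' : c.Tw M} (h₁ : c.p M w = c.p M w') (h₂ : c.q M w = c.q M w') : w = w' :=
  Subtype.ext (Prod.ext h₁ h₂)

lemma X_sub_Y (w : c.Tw M) : c.X M (c.p M w) - c.τ • c.Y M (c.q M w) = w := by
  refine c.ext ?_ ?_
  · simp only [map_sub, map_smul, p_X, p_Y]
    linear_combination (norm := module) (-c.h) • c.rel₁ w + c.hh • c.p M w
  · simp only [map_sub, map_smul, q_X, q_Y]
    linear_combination (norm := module) c.h • c.rel₂ w + c.hh • c.q M w -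
      (c.h * (c.x - 1)) • c.hτ • c.q M w

lemma X_q (w : c.Tw M) : c.X M (c.q M w) = c.Y M (c.p M w) := by
  refine c.ext ?_ ?_
  · simp only [p_X, p_Y]
    linear_combination (norm := module) (-c.h) • c.rel₂ w
  · simp only [q_X, q_Y]
    linear_combination (norm := module) (c.h * c.σ) • c.rel₁ w - (c.h * c.y) • c.hτ • c.q M w

lemma two_X_q (w : c.Tw M) : (2 : D) • c.X M (c.q M w) = c.y • w := by
  refine c.ext ?_ ?_
  · simp only [map_smul, p_X]
    linear_combination (norm := module) (1 + c.x) • c.hh • c.q M w - c.rel₂ w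
  · simp only [map_smul, q_X]
    linear_combination (norm := module) c.y • c.hh • c.q M w

lemma two_X_p (w : c.Tw M) : (2 : D) • c.X M (c.p M w) = (1 + c.x) • w := by
  refine c.ext ?_ ?_
  · simp only [map_smul, p_X]
    linear_combination (norm := module) (1 + c.x) • c.hh • c.p M w
  · simp only [map_smul, q_X]
    linear_combination (norm := module) c.y • c.hh • c.p M w + c.rel₂ w

lemma cross (s : c.Tw D) (w : c.Tw M) : c.q D s • c.p M w = c.p D s • c.q M w := by
  have h1 := c.rel₁ s
  have h2 := c.rel₂ s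
  simp only [smul_eq_mul] at h1 h2
  linear_combination (norm := module) (c.h * c.q D s) • c.rel₁ w - c.h • h2 • c.p M w +
    (c.h * c.p D s) • c.rel₂ w - c.h • h1 • c.q M w -
    c.hh • (c.q D s • c.p M w - c.p D s • c.q M w)

lemma smul_X (a : D) : a • c.X D 1 = c.X D a := by rw [← map_smul, smul_eq_mul, mul_one]
lemma smul_Y (a : D) : a • c.Y D 1 = c.Y D a := by rw [← map_smul, smul_eq_mul, mul_one]

lemma X_tmul (a : D) (s : c.Tw D) : c.X D a ⊗ₜ[D] s = c.X D 1 ⊗ₜ[D] (a • s) := by
  rw [← c.smul_X a, smul_tmul]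

lemma Y_tmul (a : D) (s : c.Tw D) : c.Y D a ⊗ₜ[D] s = c.Y D 1 ⊗ₜ[D] (a • s) := by
  rw [← c.smul_Y a, smul_tmul]

/-- The pairing on the twisted module. -/
def pair : c.Tw D ⊗[D] c.Tw D →ₗ[D] D :=
  LinearMap.mul' D D ∘ₗ (TensorProduct.map (c.p D) (c.p D) - c.τ • TensorProduct.map (c.q D) (c.q D))

lemma pair_tmul (s s' : c.Tw D) :
    c.pair (s ⊗ₜ s') = c.p D s * c.p D s' - c.τ * (c.q D s * c.q D s') := by
  simp [pair]

lemma pair_smul (s s' t : c.Tw D) : c.pair (s ⊗ₜ s') • t = c.pair (t ⊗ₜ s') • s := by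
  have h := c.cross s t
  simp only [smul_eq_mul] at h
  refine c.ext ?_ ?_
  · simp only [map_smul, pair_tmul, smul_eq_mul]
    linear_combination (-c.τ * c.q D s') * h
  · simp only [map_smul, pair_tmul, smul_eq_mul]
    linear_combination (-c.p D s') * h

lemma pair_one : c.pair (c.X D 1 ⊗ₜ c.X D 1) - c.τ * c.pair (c.Y D 1 ⊗ₜ c.Y D 1) = 1 := by
  simp only [pair_tmul, p_X, q_X, p_Y, q_Y, smul_eq_mul]
  linear_combination (2 * c.h ^ 2) * c.rel + (2 * c.h + 1) * c.hh +
    (c.h ^ 2 * (c.x - 1) ^ 2 * (c.τ * c.σ + 1)) * c.hτ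

/-- The twisted module squares to the trivial one. -/
noncomputable def pairEquiv : c.Tw D ⊗[D] c.Tw D ≃ₗ[D] D :=
  LinearEquiv.ofLinearMap c.pair
    (LinearMap.toSpanSingleton D _ (c.X D 1 ⊗ₜ c.X D 1 - c.τ • c.Y D 1 ⊗ₜ c.Y D 1))
    (by
      ext
      simp [c.pair_one])
    (by
      refine TensorProduct.ext' fun s s' => ?_
      have e : ∀ t t' : c.Tw D, c.pair (s ⊗ₜ s') • t ⊗ₜ[D] t' = s ⊗ₜ (c.pair (t' ⊗ₜ t) • s') := by
        intro t t'
        rw [smul_tmul', c.pair_smul s s' t, smul_tmul, c.pair_smul t' t s']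
        congr 2
        simp only [pair_tmul]
        ring
      simp only [LinearMap.comp_apply, LinearMap.toSpanSingleton_apply, LinearMap.id_apply,
        smul_sub, smul_comm _ c.τ, e]
      rw [← tmul_smul, ← tmul_sub, ← mul_smul]
      rw [← sub_smul, c.pair_one, one_smul])

instance : Module.Invertible D (c.Tw D) := .left c.pairEquiv

lemma mk_sq : CommRing.Pic.mk D (c.Tw D) * CommRing.Pic.mk D (c.Tw D) = 1 := by
  rw [← CommRing.Pic.mk_tensor, CommRing.Pic.mk_eq_one_iff]
  exact ⟨c.pairEquiv⟩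

lemma q_injective (hy : c.y ∈ nonZeroDivisors D) : Injective (c.q D) := by
  rw [injective_iff_map_eq_zero]
  intro s hs
  refine c.ext ?_ (by rw [hs, map_zero])
  have := c.rel₂ s
  rw [hs, smul_zero, smul_eq_mul] at this
  rw [map_zero]
  exact hy.1 _ this

lemma y_mem : c.y ∈ LinearMap.range (c.q D) :=
  ⟨c.X D 2, by rw [q_X, smul_eq_mul]; linear_combination c.y * c.hh⟩

lemma x_mem : c.x - 1 ∈ LinearMap.range (c.q D) :=
  ⟨c.Y D (2 * c.τ), by
    rw [q_Y, smul_eq_mul]
    linear_combination (c.x - 1) * c.τ * c.σ * c.hh + (c.x - 1) * c.hτ⟩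

lemma q_eq (s : c.Tw D) : c.q D s = c.h * c.p D s * c.y - c.h * c.q D s * (c.x - 1) := by
  have := c.rel₂ s
  simp only [smul_eq_mul] at this
  linear_combination (-c.h) * this - c.q D s * c.hh

/-- The image of a point in an algebra. -/
def map (D' : Type) [CommRing D'] [Algebra D D'] : Cx D' where
  τ := algebraMap D D' c.τ
  σ := algebraMap D D' c.σ
  h := algebraMap D D' c.h
  x := algebraMap D D' c.x
  y := algebraMap D D' c.y
  hτ := by rw [← map_mul, c.hτ, map_one]
  hh := by simpa only [map_mul, map_ofNat, map_one] using congrArg (algebraMap D D') c.hh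
  rel := by simpa only [map_mul, map_add, map_one] using congrArg (algebraMap D D') c.rel

lemma mapAlgebra_mk (D' : Type) [CommRing D'] [Algebra D D'] :
    CommRing.Pic.mapAlgebra D D' (CommRing.Pic.mk D (c.Tw D)) =
      CommRing.Pic.mk D' ((c.map D').Tw D') := by
  let f : (c.map D').Tw D' →ₗ[D'] D' ⊗[D] c.Tw D :=
    LinearMap.toSpanSingleton D' _ (1 ⊗ₜ c.X D 1) ∘ₗ (c.map D').p D' -
      LinearMap.toSpanSingleton D' _ (1 ⊗ₜ (c.τ • c.Y D 1)) ∘ₗ (c.map D').q D'
  have hf : Surjective f := by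
    rw [← LinearMap.range_eq_top, eq_top_iff]
    rintro t -
    induction t with
    | zero => exact zero_mem _
    | add a b ha hb => exact add_mem ha hb
    | tmul a s =>
      have h1 := congrArg (algebraMap D D') (c.rel₁ s)
      have h2 := congrArg (algebraMap D D') (c.rel₂ s)
      simp only [smul_eq_mul, map_add, map_sub, map_mul, map_one, map_zero] at h1 h2
      let s' : (c.map D').Tw D' := ⟨(algebraMap D D' (c.p D s), algebraMap D D' (c.q D s)), h1, h2⟩
      refine ⟨a • s', ?_⟩
      rw [map_smul]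
      change a • (algebraMap D D' (c.p D s) • (1 : D') ⊗ₜ[D] c.X D 1 -
        algebraMap D D' (c.q D s) • (1 : D') ⊗ₜ[D] (c.τ • c.Y D 1)) = _
      rw [algebraMap_smul, algebraMap_smul, ← tmul_smul, ← tmul_smul, ← tmul_sub,
        smul_comm _ c.τ, smul_X, smul_Y, X_sub_Y, smul_tmul', smul_eq_mul, mul_one]
  rw [CommRing.Pic.mapAlgebra_apply, CommRing.Pic.mk_eq_mk_iff]
  exact ⟨((CommRing.Pic.mk.linearEquiv D (c.Tw D)).baseChange D D' _ _).trans
    (LinearEquiv.ofBijective f (Module.Invertible.bijective_of_surjective hf)).symm⟩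

end Cx

end Pool.Agent.MP_bac99f_ag.H96
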