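import Pool.Agent.MP_bac99f_ag.H96.Chi
import Pool.Agent.MP_bac99f_ag.H96.Twist

/-!
The coordinate ring of the conic over a ring `A`, given by a basis `1, x, y, x y, y ^ 2, …`.
-/

namespace Pool.Agent.MP_bac99f_ag.H96

open Function TensorProduct Filter

set_option linter.unusedSectionVars false

/-- `A'` is the coordinate ring of the conic over `A`, with coordinates `c.x`, `c.y`. -/
structure Conic (A : Type) {A' : Type} [CommRing A] [CommRing A'] [Algebra A A'] (c : Cx A') where
  τ : A
  σ : A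
  h : A
  eτ : c.τ = algebraMap A A' τ
  eσ : c.σ = algebraMap A A' σ
  eh : c.h = algebraMap A A' h
  b : Module.Basis ℕ A A'
  b0 : b 0 = 1
  b1 : b 1 = c.x
  b2 : ∀ i, b (i + 2) = c.y * b i

namespace Conic

variable {A A' : Type} [CommRing A] [CommRing A'] [Algebra A A'] {c : Cx A'} (E : Conic A c)

include E

lemma rel : c.x * c.x = algebraMap A A' E.τ * (c.y * c.y) + 1 := E.eτ ▸ c.rel

lemma gen : Algebra.adjoin A {c.x, c.y} = ⊤ := by
  have : ∀ i, E.b i ∈ Algebra.adjoin A {c.x, c.y} := by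
    intro i
    induction i using Nat.twoStepInduction with
    | zero => exact E.b0 ▸ one_mem _
    | one => exact E.b1 ▸ Algebra.subset_adjoin (by simp)
    | more i h _ => exact E.b2 i ▸ mul_mem (Algebra.subset_adjoin (by simp)) h
  rw [eq_top_iff]
  rintro a -
  rw [← E.b.linearCombination_repr a, Finsupp.linearCombination_apply]
  exact Subalgebra.sum_mem _ fun i _ => Subalgebra.smul_mem _ (this i) _

lemma flat : Module.Flat A A' :=
  have := Module.Free.of_basis E.b
  inferInstance

lemma flat_tw : Module.Flat A (c.Tw A') :=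
  have := E.flat
  Module.Flat.trans A A' _

lemma x_mul_even (i : ℕ) : c.x * E.b (2 * i) = E.b (2 * i + 1) := by
  induction i with
  | zero => simp [E.b0, E.b1]
  | succ i ih =>
    rw [show 2 * (i + 1) + 1 = 2 * i + 1 + 2 by ring, show 2 * (i + 1) = 2 * i + 2 by ring,
      E.b2, E.b2, ← ih]
    ring

lemma x_mul_odd (i : ℕ) : c.x * E.b (2 * i + 1) = E.τ • E.b (2 * i + 4) + E.b (2 * i) := by
  rw [← E.x_mul_even, ← mul_assoc, E.rel, E.b2 (2 * i + 2), E.b2, Algebra.smul_def]
  ring

variable (N : Type) [AddCommGroup N] [Module A N]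

/-- Coordinates on the base change. -/
noncomputable def e : A' ⊗[A] N ≃ₗ[A] ℕ →₀ N := TensorProduct.equivFinsuppOfBasisLeft E.b

variable {N}

lemma e_tmul (i : ℕ) (n : N) : E.e N (E.b i ⊗ₜ n) = Finsupp.single i n := by
  simp [e]

lemma expand (t : A' ⊗[A] N) (S : Finset ℕ) (h : ∀ i ∉ S, E.e N t i = 0) :
    t = ∑ i ∈ S, E.b i ⊗ₜ E.e N t i := by
  apply (E.e N).injective
  ext j
  simp only [map_sum, e_tmul, Finsupp.finsetSum_apply, Finsupp.single_apply]
  by_cases hj : j ∈ S
  · simp [hj]
  · simp [hj, h j hj]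

lemma e_y (t : A' ⊗[A] N) (i : ℕ) : E.e N (c.y • t) (i + 2) = E.e N t i := by
  conv_lhs => rw [E.expand t (E.e N t).support fun _ => Finsupp.notMem_support_iff.mp]
  simp only [Finset.smul_sum, smul_tmul', smul_eq_mul, ← E.b2, map_sum, e_tmul,
    Finsupp.finsetSum_apply, Finsupp.single_apply, Nat.add_right_cancel_iff]
  by_cases hj : i ∈ (E.e N t).support
  · simp [hj]
  · simp [hj, Finsupp.notMem_support_iff.mp hj]

lemma e_lTensor (T : N →ₗ[A] N) (t : A' ⊗[A] N) (i : ℕ) :
    E.e N (T.lTensor A' t) i = T (E.e N t i) := by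
  induction t with
  | zero => simp
  | tmul a n => simp [e]
  | add a b ha hb => simp [ha, hb]

lemma delta (T : N →ₗ[A] N) (t : A' ⊗[A] N) (h : c.y • t = T.lTensor A' t) : t = 0 := by
  apply (E.e N).injective
  rw [map_zero]
  by_contra h0
  have hne := Finsupp.support_nonempty_iff.mpr h0
  have h1 := Finsupp.mem_support_iff.mp (Finset.max'_mem _ hne)
  rw [← E.e_y, h, E.e_lTensor, Finsupp.notMem_support_iff.mp fun hm => ?_, map_zero] at h1
  · exact h1 rfl
  · have := Finset.le_max' _ _ hm
    omega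

lemma delta_tw (T : N →ₗ[A] N) (t : c.Tw A' ⊗[A] N) (h : c.y • t = T.lTensor _ t) : t = 0 := by
  have h1 : ∀ f : c.Tw A' →ₗ[A'] A', AlgebraTensorModule.rTensor A N f t = 0 := fun f => by
    refine E.delta T _ ?_
    rw [← map_smul, h]
    clear h
    induction t with
    | zero => simp
    | tmul a n => simp
    | add a b ha hb => simp only [map_add, ha, hb]
  have h2 : ∀ t : c.Tw A' ⊗[A] N, t =
      AlgebraTensorModule.rTensor A N (c.X A') (AlgebraTensorModule.rTensor A N (c.p A') t) -
      c.τ • AlgebraTensorModule.rTensor A N (c.Y A')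
        (AlgebraTensorModule.rTensor A N (c.q A') t) := fun t => by
    induction t with
    | zero => simp
    | tmul a n =>
      simp only [AlgebraTensorModule.rTensor_tmul, smul_tmul']
      rw [← sub_tmul, c.X_sub_Y]
    | add a b ha hb =>
      simp only [map_add, smul_add]
      rw [add_sub_add_comm, ← ha, ← hb]
  rw [h2 t, h1, h1]
  simp

lemma y_reg : c.y ∈ nonZeroDivisors A' := by
  rw [mem_nonZeroDivisors_iff_left]
  intro a ha
  have := E.delta (N := A) 0 (a ⊗ₜ 1) (by rw [smul_tmul', smul_eq_mul, ha]; simp)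
  simpa using congrArg (TensorProduct.rid A A') this

lemma map_reg {a : A} (ha : a ∈ nonZeroDivisors A) : algebraMap A A' a ∈ nonZeroDivisors A' := by
  have := E.flat
  rw [mem_nonZeroDivisors_iff_left]
  intro b hb
  exact Module.Flat.isSMulRegular_of_nonZeroDivisors (M := A') ha
    (by simpa [Algebra.smul_def] using hb)

variable [IsNoetherianRing A] (χ : Chi A E.τ)

/-- The invariant on the conic. -/
noncomputable def chi : Chi A' (algebraMap A A' E.τ) := χ.step E.rel E.gen

lemma chi_tensor [Module.Finite A N] : (E.chi χ).χ (A' ⊗[A] N) = χ.χ N := by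
  let G : ℕ → Submodule A (A' ⊗[A] N) := fun j =>
    (Finsupp.supported N A (Finset.range (2 * j + 1) : Set ℕ)).comap (E.e N).toLinearMap
  have hG : ∀ j t, t ∈ G j ↔ ∀ i ∉ Finset.range (2 * j + 1), E.e N t i = 0 := fun j t =>
    Finsupp.mem_supported' A _
  have hb : ∀ j i n, i < 2 * j + 1 → E.b i ⊗ₜ[A] n ∈ G j := fun j i n hi => by
    rw [hG, e_tmul]
    exact fun k hk => Finsupp.single_eq_of_ne fun e => hk (by simpa [e] using hi)
  let q : ∀ j, G j ≃ₗ[A] Fin (2 * j + 1) → N := fun j =>
    ((E.e N).ofSubmodule' _).trans ((Finsupp.supportedEquivFinsupp _).trans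
      ((Finsupp.linearEquivFunOnFinite A N _).trans
        (LinearEquiv.funCongrLeft A N (Finset.equivFinOfCardEq (Finset.card_range _)).symm)))
  have hfin : ∀ j, Module.Finite A (G j) := fun j => Module.Finite.equiv (q j).symm
  refine χ.step_eq E.rel E.gen (F := G) ⟨fun j => Module.Finite.iff_fg.mp (hfin j),
    fun i j hij => Submodule.comap_mono (Finsupp.supported_mono (by simpa using hij)),
    fun j t ht => ?_, fun t => ⟨(E.e N t).support.sup id, (hG _ _).mpr fun i hi => ?_⟩,
    eventually_atTop.mpr ⟨1, fun j hj t ht => ?_⟩⟩ fun j => ?_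
  · rw [E.expand t _ ((hG _ _).mp ht), Finset.smul_sum, Finset.smul_sum]
    refine ⟨sum_mem fun i hi => ?_, sum_mem fun i hi => ?_⟩
    · rw [Finset.mem_range] at hi
      rw [smul_tmul', smul_eq_mul]
      obtain ⟨k, rfl | rfl⟩ := Nat.even_or_odd' i
      · rw [E.x_mul_even]
        exact hb _ _ _ (by omega)
      · rw [E.x_mul_odd, add_tmul, ← smul_tmul']
        exact add_mem (Submodule.smul_mem _ _ (hb _ _ _ (by omega))) (hb _ _ _ (by omega))
    · rw [Finset.mem_range] at hi
      rw [smul_tmul', smul_eq_mul, ← E.b2]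
      exact hb _ _ _ (by omega)
  · by_contra h
    have : i ≤ (E.e N t).support.sup id := Finset.le_sup (f := id) (Finsupp.mem_support_iff.mpr h)
    rw [Finset.mem_range] at hi
    omega
  · obtain ⟨j, rfl⟩ : ∃ k, j = k + 1 := ⟨j - 1, by omega⟩
    refine ⟨E.b (2 * j + 1) ⊗ₜ E.e N t (2 * j + 3) + E.b (2 * j + 2) ⊗ₜ E.e N t (2 * j + 4),
      add_mem (hb _ _ _ (by omega)) (hb _ _ _ (by omega)), ?_⟩
    have := E.expand t _ ((hG _ _).mp ht)
    rw [show 2 * (j + 1 + 1) + 1 = 2 * j + 3 + 1 + 1 by ring, Finset.sum_range_succ,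
      Finset.sum_range_succ, add_assoc, ← sub_eq_iff_eq_add] at this
    rw [smul_add, smul_tmul', smul_tmul', smul_eq_mul, smul_eq_mul, ← E.b2, ← E.b2, this]
    exact sum_mem fun i hi => hb _ _ _ (by rw [Finset.mem_range] at hi; omega)
  · have := hfin j
    rw [χ.congr (q j), χ.pi]
    push_cast
    rw [show (2 : ZMod 2) = 0 from rfl]
    ring

omit [IsNoetherianRing A] in
lemma exists_quot : Nonempty (A ≃ₗ[A] A' ⧸ LinearMap.range (c.q A')) := by
  let ε : A' →ₗ[A] A := E.b.coord 0 + E.b.coord 1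
  have hε : ∀ i, ε (E.b i) = if i < 2 then 1 else 0 := fun i => by
    simp only [ε, LinearMap.add_apply, Module.Basis.coord_apply, Module.Basis.repr_self,
      Finsupp.single_apply]
    rcases i with _ | _ | i <;> simp
  have h1 : ε ∘ₗ LinearMap.mulLeft A c.y = 0 := E.b.ext fun i => by
    simp [← E.b2, hε]
  have h2 : ε ∘ₗ LinearMap.mulLeft A (c.x - 1) = 0 := E.b.ext fun i => by
    simp only [LinearMap.comp_apply, LinearMap.mulLeft_apply, sub_mul, one_mul, map_sub,
      LinearMap.zero_apply]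
    obtain ⟨k, rfl | rfl⟩ := Nat.even_or_odd' i
    · rw [E.x_mul_even, hε, hε]
      rcases k with _ | k <;> simp [mul_add]
    · rw [E.x_mul_odd, map_add, map_smul, hε, hε, hε]
      rcases k with _ | k <;> simp [mul_add]
  let f : A →ₗ[A] A' ⧸ LinearMap.range (c.q A') :=
    (LinearMap.range (c.q A')).mkQ.restrictScalars A ∘ₗ Algebra.linearMap A A'
  refine ⟨LinearEquiv.ofBijective f ⟨(injective_iff_map_eq_zero _).mpr fun a ha => ?_, ?_⟩⟩
  · obtain ⟨s, hs⟩ := (Submodule.Quotient.mk_eq_zero _).mp ha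
    have h3 := congrArg ε (c.q_eq s)
    rw [map_sub, mul_comm _ c.y, mul_comm _ (c.x - 1)] at h3
    have h4 : ε (Algebra.linearMap A A' a) = a := by
      rw [Algebra.linearMap_apply, Algebra.algebraMap_eq_smul_one, map_smul, ← E.b0, hε]
      simp
    rw [← h4, ← hs, h3]
    exact sub_eq_zero.mpr ((LinearMap.congr_fun h1 _).trans
      (LinearMap.congr_fun h2 (c.h * c.q A' s)).symm)
  · rw [← LinearMap.range_eq_top, eq_top_iff, ← (LinearMap.range_eq_top
      (f := (LinearMap.range (c.q A')).mkQ.restrictScalars A)).mpr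
        (LinearMap.range (c.q A')).mkQ_surjective,
      LinearMap.range_eq_map ((LinearMap.range (c.q A')).mkQ.restrictScalars A), ← E.b.span_eq, Submodule.map_span_le]
    rintro _ ⟨i, rfl⟩
    rcases i with _ | _ | i
    · exact ⟨1, by simp [f, E.b0]⟩
    · refine ⟨1, ((Submodule.Quotient.eq _).mpr ?_).symm⟩
      simpa [E.b1] using c.x_mem
    · refine ⟨0, ((Submodule.Quotient.eq _).mpr ?_).symm⟩
      have := Submodule.smul_mem _ (E.b i) c.y_mem
      simpa [E.b2, mul_comm] using this

lemma chi_tw [Module.Finite A N] [Module.Flat A N] : (E.chi χ).χ (c.Tw A' ⊗[A] N) = 0 := by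
  obtain ⟨e⟩ := E.exists_quot
  have e' := (TensorProduct.lid A N).symm.trans (e.rTensor N)
  have := Module.Finite.equiv e'
  have h := (E.chi χ).exact (AlgebraTensorModule.rTensor A N (c.q A'))
    (AlgebraTensorModule.rTensor A N (LinearMap.range (c.q A')).mkQ)
    (Module.Flat.rTensor_preserves_injective_linearMap ((c.q A').restrictScalars A)
      (c.q_injective E.y_reg))
    (LinearMap.rTensor_surjective N (g := (LinearMap.range (c.q A')).mkQ.restrictScalars A)
      (LinearMap.range (c.q A')).mkQ_surjective)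
    (rTensor_exact N (f := (c.q A').restrictScalars A)
      (g := (LinearMap.range (c.q A')).mkQ.restrictScalars A)
      (LinearMap.exact_map_mkQ_range (c.q A')) (LinearMap.range (c.q A')).mkQ_surjective)
  rw [E.chi_tensor, chi, χ.step_of_finite E.rel E.gen ((A' ⧸ _) ⊗[A] N), ← χ.congr e'] at h
  simpa [chi] using h

end Conic

end Pool.Agent.MP_bac99f_ag.H96
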