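import Mathlib

/-!
The variety `k[t, u, u⁻¹, x_i, y_i] / (x_i ^ 2 - t y_i ^ 2 - 1)` and the kernel of a unimodular
row over it.
-/

namespace Pool.Agent.MP_bac99f_ag.H96

open Polynomial

namespace Var

lemma dim_integral (R S : Type) [CommRing R] [CommRing S] [Algebra R S] [Algebra.IsIntegral R S]
    (hinj : Function.Injective (algebraMap R S)) : ringKrullDim S = ringKrullDim R := by
  apply le_antisymm
  · exact Order.krullDim_le_of_strictMono (PrimeSpectrum.comap (algebraMap R S))
      fun p q h => Ideal.IsIntegral.comap_lt_comap (R := R) h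
  · refine iSup_le fun l => ?_
    obtain ⟨P, -, hP, hP'⟩ := Ideal.exists_ideal_over_prime_of_isIntegral (S := S)
      (RelSeries.head l).asIdeal ⊥ (by
        rw [← RingHom.ker_eq_comap_bot, (RingHom.injective_iff_ker_eq_bot _).1 hinj]
        exact bot_le)
    have : P.LiesOver (RelSeries.head l).asIdeal := ⟨hP'.symm⟩
    obtain ⟨L, hL, -⟩ := Ideal.exists_ltSeries_of_hasGoingUp l P
    rw [← hL]
    exact Order.LTSeries.length_le_krullDim L

lemma reg_loc {R : Type} [CommRing R] [IsRegularRing R] (f : R) :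
    IsRegularRing (Localization.Away f) := by
  rw [isRegularRing_iff]
  intro p hp
  exact IsRegularLocalRing.of_ringEquiv (IsLocalization.algEquiv
    (p.comap (algebraMap R _)).primeCompl (Localization.AtPrime (p.comap (algebraMap R _)))
    (Localization.AtPrime p)).toRingEquiv

lemma reg_at {R : Type} [CommRing R] (f : R) [IsRegularRing (Localization.Away f)]
    (p : Ideal R) [p.IsPrime] (hf : f ∉ p) : IsRegularLocalRing (Localization.AtPrime p) := by
  have disj : Disjoint (Submonoid.powers f : Set R) (p : Set R) := by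
    rw [Set.disjoint_left]
    rintro _ ⟨n, rfl⟩ hn
    exact hf (Ideal.IsPrime.mem_of_pow_mem ‹_› n hn)
  let pS := p.map (algebraMap R (Localization.Away f))
  have : pS.IsPrime := IsLocalization.isPrime_of_isPrime_disjoint (Submonoid.powers f) _ _ ‹_› disj
  have : IsLocalization.AtPrime (Localization.AtPrime pS) p := by
    convert IsLocalization.isLocalization_isLocalization_atPrime_isLocalization
      (Submonoid.powers f) (Localization.AtPrime pS) pS
    exact (IsLocalization.under_map_of_isPrime_disjoint (Submonoid.powers f) _ ‹_› disj).symm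
  exact IsRegularLocalRing.of_ringEquiv (IsLocalization.algEquiv p.primeCompl
    (Localization.AtPrime pS) (Localization.AtPrime p)).toRingEquiv

/-- `A'` is the coordinate ring of the conic `x ^ 2 = τ y ^ 2 + 1` over `A`. -/
structure IsConic {A A' : Type} [CommRing A] [CommRing A'] (i : A →+* A') (τ : A) (x y : A') :
    Prop where
  rel : x * x = i τ * (y * y) + 1
  lift : ∀ (B : Type) [CommRing B] (f : A →+* B) (x' y' : B), x' * x' = f τ * (y' * y') + 1 →
    ∃ F : A' →+* B, (∀ a, F (i a) = f a) ∧ F x = x' ∧ F y = y'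
  ext : ∀ (B : Type) [CommRing B] (F G : A' →+* B), (∀ a, F (i a) = G (i a)) → F x = G x →
    F y = G y → F = G

section conic

variable {A A' : Type} [CommRing A] [CommRing A'] {i : A →+* A'} {τ : A} {x y : A'}

lemma IsConic.neg (c : IsConic i τ x y) : IsConic i τ (-x) y where
  rel := by rw [neg_mul_neg, c.rel]
  lift B _ f x' y' h := by
    obtain ⟨F, h1, h2, h3⟩ := c.lift B f (-x') y' (by rw [neg_mul_neg, h])
    exact ⟨F, h1, by rw [map_neg, h2, neg_neg], h3⟩
  ext B _ F G h1 h2 h3 := c.ext B F G h1 (by simpa using h2) h3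

lemma IsConic.chart (c : IsConic i τ x y) (h : A) (h2 : 2 * h = 1) :
    Nonempty (Localization.Away (1 - C τ * X ^ 2 : A[X]) ≃+* Localization.Away (x + 1)) := by
  set S := Localization.Away (1 - C τ * X ^ 2 : A[X])
  set T := Localization.Away (x + 1)
  set s : A[X] →+* S := algebraMap _ _ with hs
  set r : A' →+* T := algebraMap _ _ with hr
  obtain ⟨d, hd'⟩ : ∃ d : S, s (1 - C τ * X ^ 2) * d = 1 :=
    ⟨_, IsLocalization.Away.mul_invSelf (S := S) (1 - C τ * X ^ 2 : A[X])⟩
  have hd := hd'
  rw [map_sub s, map_one s, map_mul s, map_pow s] at hd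
  obtain ⟨e, he⟩ : ∃ e : T, (r x + 1) * e = 1 :=
    ⟨_, by simpa using IsLocalization.Away.mul_invSelf (S := T) (x + 1)⟩
  have hS2 : 2 * s (C h) = 1 := by
    have := congrArg (fun a => s (C a)) h2
    simpa [map_ofNat] using this
  have hT2 : 2 * r (i h) = 1 := by
    have := congrArg (fun a => r (i a)) h2
    simpa [map_ofNat] using this
  have hrel : r x * r x = r (i τ) * (r y * r y) + 1 := by
    have := congrArg r c.rel
    simpa using this
  obtain ⟨φ, φ1, φ2, φ3⟩ := c.lift S (s.comp C) ((1 + s (C τ) * s X ^ 2) * d) (2 * s X * d) (by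
    simp only [RingHom.comp_apply]
    linear_combination ((1 - s (C τ) * s X ^ 2) * d + 1) * hd)
  simp only [RingHom.comp_apply] at φ1
  have hφ : φ (x + 1) = 2 * d := by
    rw [map_add, map_one, φ2]
    linear_combination (-1 : S) * hd
  have uφ : IsUnit (φ (x + 1)) := by
    refine IsUnit.of_mul_eq_one (s (C h) * (1 - s (C τ) * s X ^ 2)) ?_
    rw [hφ]
    linear_combination (2 * s (C h)) * hd + hS2
  let ψ : A[X] →+* T := eval₂RingHom (r.comp i) (r y * e)
  have ψ1 : ∀ a, ψ (C a) = r (i a) := fun a => by simp [ψ]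
  have ψ2 : ψ X = r y * e := by simp [ψ]
  have hψ : ψ (1 - C τ * X ^ 2) = 2 * e := by
    rw [map_sub, map_one, map_mul, map_pow, ψ1, ψ2]
    linear_combination (-(r x - 1) * e - 1) * he + e ^ 2 * hrel
  have uψ : IsUnit (ψ (1 - C τ * X ^ 2)) := by
    refine IsUnit.of_mul_eq_one (r (i h) * (r x + 1)) ?_
    rw [hψ]
    linear_combination (2 * r (i h)) * he + hT2
  let Φ : T →+* S := IsLocalization.Away.lift (x + 1) uφ
  let Ψ : S →+* T := IsLocalization.Away.lift (1 - C τ * X ^ 2 : A[X]) uψ
  have Φ1 : ∀ a, Φ (r a) = φ a := IsLocalization.Away.lift_eq _ uφ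
  have Ψ1 : ∀ a, Ψ (s a) = ψ a := IsLocalization.Away.lift_eq _ uψ
  have Φe : 2 * d * Φ e = 1 := by
    have := congrArg Φ he
    rw [map_mul, map_one, ← map_one r, ← map_add, Φ1, hφ] at this
    exact this
  have Ψd : 2 * e * Ψ d = 1 := by
    have := congrArg Ψ hd'
    rw [map_mul, map_one, Ψ1, hψ] at this
    exact this
  refine ⟨RingEquiv.ofRingHom Ψ Φ ?_ ?_⟩
  · apply IsLocalization.ringHom_ext (Submonoid.powers (x + 1))
    apply c.ext
    · intro a
      change Ψ (Φ (r (i a))) = r (i a)
      rw [Φ1, φ1, Ψ1, ψ1]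
    · change Ψ (Φ (r x)) = r x
      have h3 : Ψ d = r (i h) * (r x + 1) := by
        linear_combination (r (i h) * (r x + 1)) * Ψd - (2 * r (i h) * Ψ d) * he - Ψ d * hT2
      have h4 : r (i τ) * (r y * e) ^ 2 = 1 - 2 * e := by
        rw [← hψ, map_sub, map_one, map_mul, map_pow, ψ1, ψ2]; ring
      rw [Φ1, φ2, map_mul, map_add, map_one, map_mul, map_pow, Ψ1, Ψ1, ψ1, ψ2, h4, h3]
      linear_combination (r x + 1 - (r x + 1) * e) * hT2 - he
    · change Ψ (Φ (r y)) = r y
      rw [Φ1, φ3, map_mul, map_mul, map_ofNat, Ψ1, ψ2]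
      linear_combination (r y) * Ψd
  · apply IsLocalization.ringHom_ext (Submonoid.powers (1 - C τ * X ^ 2 : A[X]))
    apply Polynomial.ringHom_ext
    · intro a
      change Φ (Ψ (s (C a))) = s (C a)
      rw [Ψ1, ψ1, Φ1, φ1]
    · change Φ (Ψ (s X)) = s X
      rw [Ψ1, ψ2, map_mul, Φ1, φ3]
      linear_combination (s X) * Φe

lemma IsConic.regular (c : IsConic i τ x y) (h : A) (h2 : 2 * h = 1) [IsRegularRing A]
    [IsNoetherianRing A'] : IsRegularRing A' := by
  rw [isRegularRing_iff]
  intro p hp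
  have := reg_loc (1 - C τ * X ^ 2 : A[X])
  by_cases h1 : x + 1 ∈ p
  · obtain ⟨e⟩ := c.neg.chart h h2
    have := IsRegularRing.of_ringEquiv e
    refine reg_at (-x + 1) p fun h3 => hp.ne_top ?_
    rw [Ideal.eq_top_iff_one]
    have h4 := p.mul_mem_left (i h) (p.add_mem h1 h3)
    have h5 : 2 * i h = 1 := by simpa [map_ofNat] using congrArg i h2
    convert h4 using 1
    linear_combination -h5
  · obtain ⟨e⟩ := c.chart h h2
    have := IsRegularRing.of_ringEquiv e
    exact reg_at (x + 1) p h1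

lemma IsConic.domain (c : IsConic i τ x y) (h : A) (h2 : 2 * h = 1) [IsDomain A]
    (hx : x + 1 ∈ nonZeroDivisors A') : IsDomain A' := by
  obtain ⟨e⟩ := c.chart h h2
  have h0 : (1 - C τ * X ^ 2 : A[X]) ≠ 0 := fun h0 => by
    simpa using congrArg (Polynomial.eval 0) h0
  have := Localization.Away.isDomain h0
  have := e.symm.toMulEquiv.isDomain
  exact (IsLocalization.injective (Localization.Away (x + 1))
    (Submonoid.powers_le.2 hx)).isDomain (algebraMap A' (Localization.Away (x + 1)))

end conic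

/-- A model of the conic. -/
abbrev Con (A : Type) [CommRing A] (τ : A) : Type :=
  QuadraticAlgebra A[X] (C τ * X ^ 2 + 1) 0

section model

open QuadraticAlgebra

variable {A : Type} [CommRing A] (τ : A)

lemma con_isConic : IsConic ((algebraMap A[X] (Con A τ)).comp C) τ (omega : Con A τ)
    (algebraMap A[X] (Con A τ) X) where
  rel := by
    rw [omega_mul_omega_eq_algebraMap]
    simp [pow_two]
  lift B _ f x' y' h := by
    let : Algebra A[X] B := (eval₂RingHom f y').toAlgebra
    have ha : ∀ p : A[X], algebraMap A[X] B p = eval₂ f y' p := fun _ => rfl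
    let F : Con A τ →ₐ[A[X]] B := QuadraticAlgebra.lift ⟨x', by
      rw [zero_smul, add_zero, Algebra.smul_def, mul_one, ha, h]
      simp [pow_two]⟩
    refine ⟨F.toRingHom, fun a => ?_, ?_, ?_⟩
    · change F (algebraMap A[X] _ (C a)) = f a
      rw [AlgHom.commutes, ha, eval₂_C]
    · change F omega = x'
      simp [F]
    · change F (algebraMap A[X] _ X) = y'
      rw [AlgHom.commutes, ha, eval₂_X]
  ext B _ F G h1 h2 h3 := by
    have h4 : F.comp (algebraMap A[X] _) = G.comp (algebraMap A[X] _) :=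
      Polynomial.ringHom_ext h1 h3
    have h5 : ∀ p, F (algebraMap A[X] _ p) = G (algebraMap A[X] _ p) := fun p =>
      RingHom.congr_fun h4 p
    ext ⟨a, b⟩
    rw [mk_eq_add_smul_omega, Algebra.smul_def, map_add, map_add, map_mul, map_mul, h5, h5, h2]

lemma con_nzd [IsDomain A] (hτ : τ ≠ 0) : (omega : Con A τ) + 1 ∈ nonZeroDivisors (Con A τ) := by
  rw [← norm_mem_nonZeroDivisors_iff, mem_nonZeroDivisors_iff_ne_zero, norm_def]
  have : (C τ * X ^ 2 : A[X]) ≠ 0 := mul_ne_zero (by simpa using hτ) (by simp)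
  simpa using this

end model

lemma step (k A : Type) [Field k] [CommRing A] [Algebra k A] [Algebra.FiniteType k A]
    [IsRegularRing A] [IsDomain A] (h : A) (h2 : 2 * h = 1) (τ : A) (hτ : τ ≠ 0) :
    ∃ (A' : Type) (_ : CommRing A') (_ : Algebra k A'),
      Algebra.FiniteType k A' ∧ IsRegularRing A' ∧ IsDomain A' ∧
      ringKrullDim A' = ringKrullDim A + 1 ∧
      ∃ (i : A →+* A') (x y : A'), Function.Injective i ∧ IsConic i τ x y := by
  have hft : Algebra.FiniteType k (Con A τ) :=
    Algebra.FiniteType.trans (S := A[X]) (Algebra.FiniteType.trans (S := A) inferInstance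
      inferInstance) inferInstance
  have : IsNoetherianRing (Con A τ) := Algebra.FiniteType.isNoetherianRing k _
  refine ⟨Con A τ, inferInstance, inferInstance, hft, (con_isConic τ).regular h h2,
    (con_isConic τ).domain h h2 (con_nzd τ hτ), ?_, _, _, _, ?_, con_isConic τ⟩
  · rw [dim_integral A[X] _ QuadraticAlgebra.algebraMap_injective,
      Polynomial.ringKrullDim_of_isNoetherianRing]
  · exact QuadraticAlgebra.algebraMap_injective.comp C_injective

lemma tower (k : Type) [Field k] (h2 : (2 : k) ≠ 0) (m : ℕ) :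
    ∃ (R : Type) (_ : CommRing R) (_ : Algebra k R),
      Algebra.FiniteType k R ∧ IsRegularRing R ∧ IsDomain R ∧ ringKrullDim R = (m + 2 : ℕ) ∧
      ∃ (t u v : R) (x y : Fin m → R), t ≠ 0 ∧ u * v = 1 ∧
        (∀ i, x i * x i = t * (y i * y i) + 1) ∧
        ∀ (B : Type) [CommRing B] [Algebra k B] (t' u' v' : B) (x' y' : Fin m → B), u' * v' = 1 →
          (∀ i, x' i * x' i = t' * (y' i * y' i) + 1) →
          ∃ F : R →+* B, F t = t' ∧ F u = u' ∧ (∀ i, F (x i) = x' i) ∧ ∀ i, F (y i) = y' i := by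
  have half : ∀ (B : Type) [CommRing B] [Algebra k B], 2 * algebraMap k B 2⁻¹ = 1 := by
    intro B _ _
    rw [← map_ofNat (algebraMap k B) 2, ← map_mul, mul_inv_cancel₀ h2, map_one]
  induction m with
  | zero =>
    obtain ⟨R, _, _, a1, a2, a3, a4, i, x, y, hi, c⟩ := step k k[X] _ (half _) 1 one_ne_zero
    refine ⟨R, inferInstance, inferInstance, a1, a2, a3, ?_, i X, x + y, x - y, Fin.elim0,
      Fin.elim0, ?_, ?_, fun i => i.elim0, ?_⟩
    · rw [a4, Polynomial.ringKrullDim_of_isNoetherianRing, ringKrullDim_eq_zero_of_field]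
      rfl
    · exact fun h => X_ne_zero (hi (h.trans (map_zero i).symm))
    · have := c.rel
      rw [map_one] at this
      linear_combination this
    · intro B _ _ t' u' v' x' y' huv _
      have hh := half B
      set h := algebraMap k B 2⁻¹
      obtain ⟨F, f1, f2, f3⟩ := c.lift B (eval₂RingHom (algebraMap k B) t') (h * (u' + v'))
        (h * (u' - v')) (by
          rw [map_one]
          linear_combination (4 * h ^ 2) * huv + (2 * h + 1) * hh)
      refine ⟨F, by simp [f1], ?_, fun i => i.elim0, fun i => i.elim0⟩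
      rw [map_add, f2, f3]
      linear_combination u' * hh
  | succ m ih =>
    obtain ⟨A, _, _, b1, b2, b3, b4, t, u, v, x, y, ht, huv, hrel, huniv⟩ := ih
    obtain ⟨R, _, _, a1, a2, a3, a4, i, x₀, y₀, hi, c⟩ := step k A _ (half _) t ht
    refine ⟨R, inferInstance, inferInstance, a1, a2, a3, ?_, i t, i u, i v,
      Fin.cons x₀ (fun j => i (x j)), Fin.cons y₀ (fun j => i (y j)), ?_, ?_, ?_, ?_⟩
    · rw [a4, b4]
      push_cast
      ring
    · exact fun h => ht (hi (h.trans (map_zero i).symm))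
    · rw [← map_mul, huv, map_one]
    · refine Fin.cases c.rel fun j => ?_
      simpa using congrArg i (hrel j)
    · intro B _ _ t' u' v' x' y' huv' hrel'
      obtain ⟨f, f1, f2, f3, f4⟩ := huniv B t' u' v' (fun j => x' j.succ) (fun j => y' j.succ)
        huv' fun j => hrel' j.succ
      obtain ⟨F, F1, F2, F3⟩ := c.lift B f (x' 0) (y' 0) (by rw [f1]; exact hrel' 0)
      refine ⟨F, by rw [F1, f1], by rw [F1, f2], Fin.cases F2 fun j => ?_,
        Fin.cases F3 fun j => ?_⟩
      · simp [F1, f3]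
      · simp [F1, f4]

lemma row_unimodular {R : Type} [CommRing R] {m : ℕ} (t u v h : R) (x y : Fin m → R)
    (h2 : 2 * h = 1) (huv : u * v = 1) (hrel : ∀ i, x i * x i = t * (y i * y i) + 1) :
    ∃ b : Fin (m + 1) → R,
      (Fin.cons (1 + (u - 1) * ∏ i, (h * (1 + x i))) y : Fin (m + 1) → R) ⬝ᵥ b = 1 := by
  set I := Ideal.span (Set.range y)
  set e := ∏ i, (h * (1 + x i))
  have he : e * e - e ∈ I := by
    rw [← Ideal.Quotient.eq, map_mul]
    refine Finset.prod_induction (fun i => h * (1 + x i))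
      (fun a => Ideal.Quotient.mk I a * Ideal.Quotient.mk I a = Ideal.Quotient.mk I a) ?_ ?_ ?_
    · intro a b ha hb
      rw [map_mul, mul_mul_mul_comm, ha, hb]
    · simp
    · intro i _
      rw [← map_mul, Ideal.Quotient.eq]
      have hy : y i ∈ I := Ideal.subset_span ⟨i, rfl⟩
      convert I.mul_mem_left (h ^ 2 * t * y i) hy using 1
      linear_combination h ^ 2 * hrel i + (h * (1 + x i)) * h2
  obtain ⟨c, hc⟩ := Ideal.mem_span_range_iff_exists_fun.1
    (I.mul_mem_left (-((u - 1) * (v - 1))) he)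
  refine ⟨Fin.cons (1 + (v - 1) * e) c, ?_⟩
  simp only [dotProduct, Fin.sum_univ_succ, Fin.cons_zero, Fin.cons_succ]
  have : ∑ i, y i * c i = ∑ i, c i * y i := Finset.sum_congr rfl fun i _ => mul_comm _ _
  rw [this, hc]
  linear_combination e * huv

lemma kernel_row {R : Type} [CommRing R] [Nontrivial R] {m : ℕ} (a b : Fin (m + 1) → R)
    (hab : a ⬝ᵥ b = 1) :
    ∃ (P : Type) (_ : AddCommGroup P) (_ : Module R P),
      Module.Finite R P ∧ Module.Projective R P ∧
      (∀ p : PrimeSpectrum R, Module.rankAtStalk P p = m) ∧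
      Nonempty ((P × (Fin 1 → R)) ≃ₗ[R] (Fin (m + 1) → R)) ∧
      (Module.Free R P → ∃ M M' : Matrix (Fin (m + 1)) (Fin (m + 1)) R,
        M * M' = 1 ∧ M' * M = 1 ∧ M 0 = a) := by
  let α : (Fin (m + 1) → R) →ₗ[R] R := dotProductBilin R R a
  have hα : ∀ w, α w = a ⬝ᵥ w := fun _ => rfl
  let P := LinearMap.ker α
  let π : (Fin (m + 1) → R) →ₗ[R] P :=
    (LinearMap.id - α.smulRight b).codRestrict P fun w => by
      simp [P, LinearMap.mem_ker, hα, hab]
  have hπ : π ∘ₗ P.subtype = LinearMap.id := by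
    ext ⟨w, hw⟩ : 1
    have : α w = 0 := hw
    apply Subtype.ext
    simp [π, this]
  let E : (P × R) ≃ₗ[R] (Fin (m + 1) → R) :=
    LinearEquiv.ofLinearMap (P.subtype.coprod (LinearMap.toSpanSingleton R _ b)) (π.prod α)
      (by
        apply LinearMap.ext
        intro w
        simp [π])
      (by
        apply LinearMap.ext
        rintro ⟨⟨w, hw⟩, r⟩
        have : a ⬝ᵥ w = 0 := hw
        ext : 1
        · apply Subtype.ext
          simp [π, hα, this, hab]
        · simp [hα, this, hab])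
  have hE : ∀ w, (E.symm w).2 = a ⬝ᵥ w := fun _ => rfl
  have hfin : Module.Finite R P := Module.Finite.of_surjective π fun p =>
    ⟨p, LinearMap.congr_fun hπ p⟩
  have hproj : Module.Projective R P := Module.Projective.of_split P.subtype π hπ
  refine ⟨P, inferInstance, inferInstance, hfin, hproj, fun p => ?_,
    ⟨((LinearEquiv.refl R P).prodCongr (LinearEquiv.funUnique (Fin 1) R R)).trans E⟩, ?_⟩
  · have h1 := congrFun (Module.rankAtStalk_eq_of_equiv E) p
    rw [Module.rankAtStalk_prod, Module.rankAtStalk_self,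
      Module.rankAtStalk_eq_finrank_of_free (M := Fin (m + 1) → R)] at h1
    simpa using h1
  · intro hfree
    have h1 : Module.finrank R P = m := by
      have := E.finrank_eq
      simpa using this
    let β : P ≃ₗ[R] (Fin m → R) := LinearEquiv.ofFinrankEq _ _ (by simpa using h1)
    let G : (Fin (m + 1) → R) ≃ₗ[R] (Fin (m + 1) → R) :=
      E.symm.trans ((LinearEquiv.prodComm R P R).trans (((LinearEquiv.refl R R).prodCongr β).trans
        (Fin.consLinearEquiv R fun _ : Fin (m + 1) => R)))
    refine ⟨LinearMap.toMatrix' G.toLinearMap, LinearMap.toMatrix' G.symm.toLinearMap, ?_, ?_, ?_⟩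
    · rw [← LinearMap.toMatrix'_comp]; simp
    · rw [← LinearMap.toMatrix'_comp]; simp
    · ext j
      rw [LinearMap.toMatrix'_apply]
      change (E.symm _).2 = a j
      rw [hE]
      simp

end Var

theorem variety (k : Type) [Field k] (h2 : (2 : k) ≠ 0) (m : ℕ) :
    ∃ (R : Type) (_ : CommRing R) (_ : Algebra k R),
      Algebra.FiniteType k R ∧ IsRegularRing R ∧ IsDomain R ∧ ringKrullDim R = (m + 2 : ℕ) ∧
      ∃ (P : Type) (_ : AddCommGroup P) (_ : Module R P),
        Module.Finite R P ∧ Module.Projective R P ∧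
        (∀ p : PrimeSpectrum R, Module.rankAtStalk P p = m) ∧
        Nonempty ((P × (Fin 1 → R)) ≃ₗ[R] (Fin (m + 1) → R)) ∧
        (Module.Free R P → ∀ (B : Type) [CommRing B] [Algebra k B] (t u v h : B)
          (x y : Fin m → B), 2 * h = 1 → u * v = 1 → (∀ i, x i * x i = t * (y i * y i) + 1) →
          ∃ M M' : Matrix (Fin (m + 1)) (Fin (m + 1)) B, M * M' = 1 ∧ M' * M = 1 ∧
            M 0 = Fin.cons (1 + (u - 1) * ∏ i, (h * (1 + x i))) y) := by
  obtain ⟨R, _, _, a1, a2, a3, a4, t, u, v, x, y, -, huv, hrel, huniv⟩ := Var.tower k h2 m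
  have hh : 2 * algebraMap k R 2⁻¹ = 1 := by
    rw [← map_ofNat (algebraMap k R) 2, ← map_mul, mul_inv_cancel₀ h2, map_one]
  set h := algebraMap k R 2⁻¹
  obtain ⟨b, hb⟩ := Var.row_unimodular t u v h x y hh huv hrel
  obtain ⟨P, _, _, p1, p2, p3, p4, p5⟩ := Var.kernel_row _ b hb
  refine ⟨R, inferInstance, inferInstance, a1, a2, a3, a4, P, inferInstance, inferInstance,
    p1, p2, p3, p4, fun hfree B _ _ t' u' v' h' x' y' hh' huv' hrel' => ?_⟩
  obtain ⟨M, M', m1, m2, m3⟩ := p5 hfree
  obtain ⟨F, -, f2, f3, f4⟩ := huniv B t' u' v' x' y' huv' hrel'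
  have hF : F h = h' := by
    have := congrArg F hh
    rw [map_mul, map_ofNat, map_one] at this
    linear_combination h' * this - F h * hh'
  refine ⟨M.map F, M'.map F, ?_, ?_, ?_⟩
  · rw [← Matrix.map_mul, m1, Matrix.map_one _ F.map_zero F.map_one]
  · rw [← Matrix.map_mul, m2, Matrix.map_one _ F.map_zero F.map_one]
  · ext j
    rw [Matrix.map_apply, m3]
    refine Fin.cases ?_ (fun j => ?_) j
    · simp [f2, f3, hF]
    · simp [f4]

end Pool.Agent.MP_bac99f_ag.H96
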