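import Pool.Agent.MP_bac99f_ag.H96.Almost
import Pool.Agent.MP_bac99f_ag.H96.Variety

/-!
The unimodular row cannot be completed to an invertible matrix.
-/

namespace Pool.Agent.MP_bac99f_ag.H96

open Function TensorProduct CommRing Matrix

variable {D : Type} [CommRing D]

/-- The linear form given by a row. -/
def dot {n : ℕ} (a : Fin n → D) : (Fin n → D) →ₗ[D] D where
  toFun v := a ⬝ᵥ v
  map_add' := dotProduct_add a
  map_smul' r v := dotProduct_smul r a v

lemma dot_apply {n : ℕ} (a v : Fin n → D) : dot a v = a ⬝ᵥ v := rfl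

lemma patch {m : ℕ} (P Q : D) (hPQ : IsCoprime P Q) (a : Fin (m + 1) → D)
    (S S' : Matrix (Fin (m + 1)) (Fin (m + 1)) D) (h1 : S * S' = (P * Q) ^ 2 • 1)
    (h2 : S' * S = (P * Q) ^ 2 • 1) (h3 : S' 0 = (P * Q) • a)
    (h4 : a ᵥ* S = (P * Q) • Pi.single 0 1) :
    ∃ (F : Type) (_ : AddCommGroup F) (_ : Module D F) (s : F →ₗ[D] D), Module.Finite D F ∧
      Module.Projective D F ∧ AIso s (dot a) (P ^ 2) P (P ^ 3) ∧ Q ∈ LinearMap.range s := by
  obtain ⟨c₁, c₂, hc⟩ := (hPQ.pow : IsCoprime (P ^ 2) (Q ^ 2))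
  let F : Submodule D ((Fin (m + 1) → D) × (Fin (m + 1) → D)) :=
    LinearMap.eqLocus (P ^ 2 • LinearMap.snd D _ _) (S'.mulVecLin ∘ₗ LinearMap.fst D _ _) ⊓
    LinearMap.eqLocus (Q ^ 2 • LinearMap.fst D _ _) (S.mulVecLin ∘ₗ LinearMap.snd D _ _)
  have hF : ∀ w, w ∈ F ↔ P ^ 2 • w.2 = S' *ᵥ w.1 ∧ Q ^ 2 • w.1 = S *ᵥ w.2 := fun w => Iff.rfl
  let α₁ : (Fin (m + 1) → D) →ₗ[D] F := ((P ^ 2 • LinearMap.id).prod S'.mulVecLin).codRestrict F
    fun u => (hF _).mpr ⟨by simp [mulVec_smul], by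
      simp [h1, smul_mulVec, smul_smul, mul_pow, mul_comm]⟩
  let α₂ : (Fin (m + 1) → D) →ₗ[D] F := (S.mulVecLin.prod (Q ^ 2 • LinearMap.id)).codRestrict F
    fun u => (hF _).mpr ⟨by simp [h2, smul_mulVec, smul_smul, mul_pow], by simp [mulVec_smul]⟩
  have e₁ : ∀ w : F, α₁ w.1.1 = P ^ 2 • w := fun w =>
    Subtype.ext (Prod.ext rfl ((hF _).mp w.2).1.symm)
  have e₂ : ∀ w : F, α₂ w.1.2 = Q ^ 2 • w := fun w =>
    Subtype.ext (Prod.ext ((hF _).mp w.2).2.symm rfl)
  let s : F →ₗ[D] D := ((c₁ * P) • dot a ∘ₗ LinearMap.fst D _ _ +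
    (c₂ * Q) • LinearMap.proj 0 ∘ₗ LinearMap.snd D _ _) ∘ₗ F.subtype
  have hs : ∀ w : F, s w = c₁ * P * (a ⬝ᵥ w.1.1) + c₂ * Q * w.1.2 0 := fun w => rfl
  have s₁ : ∀ u, s (α₁ u) = P * dot a u := fun u => by
    rw [hs]
    change c₁ * P * (a ⬝ᵥ P ^ 2 • u) + c₂ * Q * (S' 0 ⬝ᵥ u) = P * (a ⬝ᵥ u)
    rw [h3, dotProduct_smul, smul_dotProduct, smul_eq_mul, smul_eq_mul]
    linear_combination P * (a ⬝ᵥ u) * hc
  have hr : (c₁ • α₁).coprod (c₂ • α₂) ∘ₗ F.subtype = LinearMap.id := LinearMap.ext fun w => by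
    change c₁ • α₁ w.1.1 + c₂ • α₂ w.1.2 = w
    rw [e₁, e₂, smul_smul, smul_smul, ← add_smul, hc, one_smul]
  refine ⟨F, inferInstance, inferInstance, s, Module.Finite.of_surjective _
    (LinearMap.surjective_of_comp_eq_id _ _ hr), Module.Projective.of_split _ _ hr,
    ⟨P • LinearMap.fst D _ _ ∘ₗ F.subtype, α₁, fun w => ?_, s₁, fun w => ?_, fun u => ?_⟩,
    α₂ (Pi.single 0 1), ?_⟩
  · change dot a (P • w.1.1) = _
    rw [map_smul, smul_eq_mul, ← s₁, e₁, map_smul, smul_eq_mul]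
  · change α₁ (P • w.1.1) = _
    rw [map_smul, e₁, smul_smul, ← pow_succ']
  · change P • P ^ 2 • u = _
    rw [smul_smul, ← pow_succ']
  · rw [hs]
    change c₁ * P * (a ⬝ᵥ S *ᵥ Pi.single 0 1) + c₂ * Q * (Q ^ 2 * 1) = Q
    rw [dotProduct_mulVec, h4, smul_dotProduct, dotProduct_single, Pi.single_eq_same, smul_eq_mul]
    linear_combination Q * hc

lemma aiso_row {m : ℕ} (φ h : D) (y : Fin (m + 1) → D)
    (hφ : h * φ - h * y 0 ∈ Ideal.span (Set.range fun i : Fin m => y i.succ)) :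
    AIso (dot (Fin.cons φ fun i => y i.succ)) (dot y) h h (h * h) := by
  obtain ⟨b, hb⟩ := Ideal.mem_span_range_iff_exists_fun.mp hφ
  refine ⟨h • LinearMap.id + (LinearMap.proj 0).smulRight (Fin.cons 0 b),
    h • LinearMap.id - (LinearMap.proj 0).smulRight (Fin.cons 0 b), fun v => ?_, fun v => ?_,
    fun v => ?_, fun v => ?_⟩
  · simp only [LinearMap.add_apply, map_add, LinearMap.smul_apply, LinearMap.smulRight_apply,
      map_smul, LinearMap.id_apply, LinearMap.proj_apply, smul_eq_mul]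
    simp only [dot_apply, dotProduct, Fin.sum_univ_succ, Fin.cons_zero, Fin.cons_succ,
      mul_comm _ (b _), hb]
    ring
  · simp only [LinearMap.sub_apply, map_sub, LinearMap.smul_apply, LinearMap.smulRight_apply,
      map_smul, LinearMap.id_apply, LinearMap.proj_apply, smul_eq_mul]
    simp only [dot_apply, dotProduct, Fin.sum_univ_succ, Fin.cons_zero, Fin.cons_succ,
      mul_comm _ (b _), hb]
    ring
  · ext i
    simp
    ring
  · ext i
    simp
    ring

lemma aiso_tw {n : ℕ} (c : Fin n → Cx D) :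
    ∃ s : (∀ i : Fin n, ell c (Pi.single i 1)) →ₗ[D] D,
      AIso (dot fun i => (c i).y) s 1 (∏ i, (1 + (c i).x)) (∏ i, (1 + (c i).x)) ∧
      ∀ i, (c i).x - 1 ∈ LinearMap.range s := by
  have e : ∀ i, (c i).Tw D ≃ₗ[D] ell c (Pi.single i 1) := fun i =>
    (Pic.mk_eq_iff.mp (ell_single c i).symm).some
  let G : Fin n → D := fun i => ∏ j ∈ Finset.univ.erase i, (1 + (c j).x)
  have hG : ∀ i, (1 + (c i).x) * G i = ∏ i, (1 + (c i).x) := fun i =>
    Finset.mul_prod_erase _ (fun j => 1 + (c j).x) (Finset.mem_univ i)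
  refine ⟨∑ i, (c i).q D ∘ₗ (e i).symm.toLinearMap ∘ₗ LinearMap.proj i,
    ⟨LinearMap.pi fun i => (e i).toLinearMap ∘ₗ ((2 : D) • (c i).X D) ∘ₗ LinearMap.proj i,
      LinearMap.pi fun i => (G i • (c i).p D) ∘ₗ (e i).symm.toLinearMap ∘ₗ LinearMap.proj i,
      fun v => ?_, fun v => ?_, fun v => funext fun i => ?_, fun v => funext fun i => ?_⟩,
    fun i => ?_⟩
  · simp only [LinearMap.sum_apply, dot_apply, dotProduct, one_mul]
    refine Finset.sum_congr rfl fun i _ => ?_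
    simp
    linear_combination (c i).y * v i * (c i).hh
  · simp only [LinearMap.sum_apply, dot_apply, dotProduct, Finset.mul_sum]
    refine Finset.sum_congr rfl fun i _ => ?_
    have := (c i).rel₂ ((e i).symm (v i))
    simp only [smul_eq_mul] at this
    simp [← hG i]
    linear_combination G i * this
  · simp [← hG i]
    linear_combination G i * (1 + (c i).x) * v i * (c i).hh
  · simp only [LinearMap.pi_apply, LinearMap.comp_apply, LinearMap.smul_apply,
      LinearMap.proj_apply, LinearEquiv.coe_coe, Pi.smul_apply, map_smul]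
    have := congrArg (e i) ((c i).two_X_p ((e i).symm (v i)))
    simp only [map_smul, LinearEquiv.apply_symm_apply] at this
    rw [← hG i]
    linear_combination (norm := module) G i • this
  · obtain ⟨t, ht⟩ := (c i).x_mem
    refine ⟨Pi.single i (e i t), ?_⟩
    rw [LinearMap.sum_apply, Finset.sum_eq_single i (fun j _ hj => by simp [hj]) (by simp)]
    simpa using ht

lemma clear_denominators {m : ℕ} (y u : D) (hy : y ∈ nonZeroDivisors D) (a : Fin (m + 1) → D)
    (M M' : Matrix (Fin (m + 1)) (Fin (m + 1)) (Localization.Away y)) (hM : M * M' = 1)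
    (hM' : M' * M = 1) (h0 : M 0 = fun j => algebraMap D _ (a j)) :
    ∃ (N : ℕ) (S S' : Matrix (Fin (m + 1)) (Fin (m + 1)) D), S * S' = ((u * y) ^ N) ^ 2 • 1 ∧
      S' * S = ((u * y) ^ N) ^ 2 • 1 ∧ S' 0 = (u * y) ^ N • a ∧
      a ᵥ* S = (u * y) ^ N • Pi.single 0 1 := by
  have hinj : Injective (algebraMap D (Localization.Away y)) :=
    IsLocalization.injective _ (Submonoid.powers_le.mpr hy)
  obtain ⟨⟨_, N, rfl⟩, hb⟩ := IsLocalization.exist_integer_multiples_of_finite (Submonoid.powers y)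
    (Sum.elim (fun ij : _ × _ => M ij.1 ij.2) fun ij : _ × _ => M' ij.1 ij.2)
  choose g hg using hb
  let φ := algebraMap D (Localization.Away y)
  let S : Matrix (Fin (m + 1)) (Fin (m + 1)) D := fun i j => u ^ N * g (.inr (i, j))
  let S' : Matrix (Fin (m + 1)) (Fin (m + 1)) D := fun i j => u ^ N * g (.inl (i, j))
  have hS : S.map φ = φ ((u * y) ^ N) • M' := by
    ext i j
    simp [S, φ, hg, Algebra.smul_def, mul_pow, mul_assoc]
  have hS' : S'.map φ = φ ((u * y) ^ N) • M := by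
    ext i j
    simp [S', φ, hg, Algebra.smul_def, mul_pow, mul_assoc]
  have hone : ∀ r : D, (r • (1 : Matrix (Fin (m + 1)) (Fin (m + 1)) D)).map φ = φ r • 1 :=
    fun r => by
      ext i j
      simp [Matrix.one_apply, apply_ite φ]
  refine ⟨N, S, S', Matrix.map_injective hinj ?_, Matrix.map_injective hinj ?_,
    funext fun j => hinj ?_, funext fun j => hinj ?_⟩
  · change (S * S').map φ = Matrix.map _ φ
    rw [Matrix.map_mul, hS, hS', hone, smul_mul_smul_comm, hM', map_pow φ _ 2, sq]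
  · change (S' * S).map φ = Matrix.map _ φ
    rw [Matrix.map_mul, hS, hS', hone, smul_mul_smul_comm, hM, map_pow φ _ 2, sq]
  · have := congrFun (congrFun hS' 0) j
    rw [Matrix.smul_apply, h0] at this
    simpa using this
  · have h1 : (φ ∘ a) ᵥ* M' = Pi.single 0 1 := by
      have := congrFun hM 0
      rw [Matrix.mul_apply_eq_vecMul, h0] at this
      exact this.trans (funext fun j => by simp [Matrix.one_apply, Pi.single_apply, eq_comm])
    rw [RingHom.map_vecMul, hS, vecMul_smul, h1]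
    simp [Pi.single_apply, apply_ite φ, φ]

theorem obstruction [IsNoetherianRing D] {m : ℕ} (hm : 2 ≤ m) (c : Fin (m + 1) → Cx D) {τ : D}
    (χ : Chi D τ) (hτ : ∀ i, (c i).τ = τ) (hy : ∀ i, (c i).y ∈ nonZeroDivisors D)
    (hχ : ∀ g, χ.χ (ell c g) = if g = 0 then 1 else 0)
    (hres : ∀ (M : Type) [AddCommGroup M] [Module D M] [Module.Finite D M], Res (ell c) (m + 1) M)
    (M M' : Matrix (Fin (m + 1)) (Fin (m + 1)) (Localization.Away (c 0).y)) (hM : M * M' = 1)
    (hM' : M' * M = 1) (h0 : M 0 = fun j => algebraMap D _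
      ((Fin.cons (1 + ((c 0).y - 1) * ∏ i : Fin m, ((c 0).h * (1 + (c i.succ).x)))
        fun i => (c i.succ).y : Fin (m + 1) → D) j)) : False := by
  set φ := 1 + ((c 0).y - 1) * ∏ i : Fin m, ((c 0).h * (1 + (c i.succ).x)) with hφ
  obtain ⟨N, S, S', h1, h2, h3, h4⟩ := clear_denominators _ (τ * (c 0).y) (hy 0) _ M M' hM hM' h0
  have hpq : (τ * (c 0).y * (c 0).y) ^ N = (1 + (c 0).x) ^ N * ((c 0).x - 1) ^ N := by
    rw [← mul_pow, ← hτ 0]
    congr 1
    linear_combination -(c 0).rel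
  rw [hpq] at h1 h2 h3 h4
  have hco : IsCoprime (1 + (c 0).x) ((c 0).x - 1) :=
    ⟨(c 0).h, -(c 0).h, by linear_combination (c 0).hh⟩
  obtain ⟨F, _, _, s, _, _, hA, hQ⟩ := patch _ _ hco.pow _ S S' h1 h2 h3 h4
  obtain ⟨s₀, hC, hx⟩ := aiso_tw c
  have hB := aiso_row φ (∏ i : Fin m, (1 + (c i.succ).x)) (fun i => (c i).y) (by
    rw [← Ideal.Quotient.eq_zero_iff_mem]
    set π := Ideal.Quotient.mk (Ideal.span (Set.range fun i : Fin m => (c i.succ).y))
    have : (∏ i : Fin m, π (1 + (c i.succ).x)) * ∏ i : Fin m, π ((c 0).h * (1 + (c i.succ).x)) =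
        ∏ i : Fin m, π (1 + (c i.succ).x) := by
      rw [← Finset.prod_mul_distrib]
      refine Finset.prod_congr rfl fun i _ => ?_
      have e1 : π (c i.succ).y = 0 :=
        Ideal.Quotient.eq_zero_iff_mem.mpr (Ideal.subset_span ⟨i, rfl⟩)
      have e2 := congrArg π (c i.succ).rel
      have e3 := congrArg π (c 0).hh
      simp only [map_mul, map_add, map_one, map_ofNat, e1] at e2 e3 ⊢
      linear_combination π (c 0).h * e2 + (1 + π (c i.succ).x) * e3
    simp only [hφ, map_sub, map_mul π, map_add π 1 (_ * _), map_prod, map_one] at this ⊢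
    linear_combination (π (c 0).y - 1) * this)
  obtain ⟨ι₀, ι₁, _, _, f₀, f₁, ⟨e⟩⟩ := (hres F).stabV
  obtain ⟨N₁, hN₁⟩ := exteriorPower_subsingleton D F
  obtain ⟨N₂, hN₂⟩ := exteriorPower_subsingleton D (∀ i : Fin (m + 1), ell c (Pi.single i 1))
  have hp : 1 + (c 0).x ∣ ∏ i, (1 + (c i).x) := Finset.dvd_prod_of_mem _ (Finset.mem_univ 0)
  have hh : ∏ i : Fin m, (1 + (c i.succ).x) ∣ ∏ i, (1 + (c i).x) :=
    Fin.prod_univ_succ (fun i => 1 + (c i).x) ▸ dvd_mul_left _ _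
  have hmul : ∀ a b : D, (∃ k, a ∣ (∏ i, (1 + (c i).x)) ^ k) → (∃ k, b ∣ (∏ i, (1 + (c i).x)) ^ k) →
      ∃ k, a * b ∣ (∏ i, (1 + (c i).x)) ^ k := fun a b ⟨i, hi⟩ ⟨j, hj⟩ =>
    ⟨i + j, pow_add (∏ i, (1 + (c i).x)) i j ▸ mul_dvd_mul hi hj⟩
  have hp' : ∀ k, ∃ j, ((1 + (c 0).x) ^ N) ^ k ∣ (∏ i, (1 + (c i).x)) ^ j := fun k =>
    ⟨N * k, pow_mul (1 + (c 0).x) N k ▸ pow_dvd_pow_of_dvd hp _⟩
  have hh' : ∃ j, ∏ i : Fin m, (1 + (c i.succ).x) ∣ (∏ i, (1 + (c i).x)) ^ j := ⟨1, by simpa⟩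
  have hH : ∃ j, ∏ i, (1 + (c i).x) ∣ (∏ i, (1 + (c i).x)) ^ j := ⟨1, by simp⟩
  have key := ((hA.trans hB).trans hC).koszul χ (H := ∏ i, (1 + (c i).x))
    (hmul _ _ (hmul _ _ (hp' 2) hh') ⟨0, by simp⟩)
    (hmul _ _ (hmul _ _ (by simpa using hp' 1) hh') hH)
    (hmul _ _ (hmul _ _ (hp' 3) (hmul _ _ hh' hh')) hH) ?_ ?_ (max N₁ N₂)
    (hN₁ _ (le_max_left _ _)) (hN₂ _ (le_max_right _ _))
  · obtain ⟨f, g, -, -, hgf, hfg⟩ := hA
    rw [← pow_mul] at hgf hfg
    rw [euler_one χ _ (c 0).hh _ (ell_add c) hχ _ fun k hk => hN₂ k (le_of_max_le_right hk),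
      euler_zero χ _ (c 0).hh _ (ell_add c) hχ F f₀ f₁ e (r := m + 1) (by omega)
        (card_eq c χ 0 (hy 0) hχ f g hgf hfg _ _ e) (Pi.single 0 1)
        (fun h => absurd (congrFun h 0) (by simp)) (fun g' => ?_) _
        fun k hk => hN₁ k (le_of_max_le_left hk)] at key
    · exact zero_ne_one key
    · rw [chi_pair c χ 0 (hy 0) g' f g hgf hfg,
        χ.congr (TensorProduct.piScalarRight D D (ell c g') (Fin (m + 1))),
        χ.congr (TensorProduct.piScalarRight D D (ell c (g' + _)) (Fin (m + 1))), χ.pi, χ.pi,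
        hχ, hχ, mul_add]
  · set π := Ideal.Quotient.mk (LinearMap.range s)
    have e1 : IsUnit (π (1 + (c 0).x)) := by
      have e2 : IsNilpotent (π ((c 0).x - 1)) :=
        ⟨N, by rw [← map_pow]; exact Ideal.Quotient.eq_zero_iff_mem.mpr hQ⟩
      have e3 : IsUnit (π 2) := (IsUnit.of_mul_eq_one _ (c 0).hh).map π
      convert e2.isUnit_add_right_of_commute e3 (Commute.all _ _) using 1
      rw [← map_add]
      congr 1
      ring
    obtain ⟨f, g, -, hg, -, -⟩ := hA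
    have e2 : π φ = 0 := by
      have : π (s (g (Pi.single 0 1))) = 0 := Ideal.Quotient.eq_zero_iff_mem.mpr ⟨_, rfl⟩
      rw [hg, dot_apply, dotProduct_single, mul_one, Fin.cons_zero, map_mul, map_pow] at this
      exact (e1.pow N).mul_right_eq_zero.mp this
    rw [Fin.prod_univ_succ, map_mul]
    refine e1.mul (isUnit_of_dvd_unit (map_dvd π (Finset.prod_dvd_prod_of_dvd _
      (fun i : Fin m => (c 0).h * (1 + (c i.succ).x)) fun i _ => dvd_mul_left _ _))
      (IsUnit.of_mul_eq_one (π (1 - (c 0).y)) ?_))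
    simp only [hφ, map_add π 1 (_ * _), map_mul π (_ - _), map_sub, map_one] at e2 ⊢
    linear_combination -e2
  · rw [map_prod]
    refine IsUnit.prod_univ_iff.mpr fun i => IsUnit.of_mul_eq_one (Ideal.Quotient.mk _ (c i).h) ?_
    rw [← map_mul, ← map_one (Ideal.Quotient.mk _), Ideal.Quotient.eq]
    convert Submodule.smul_mem _ (c i).h (hx i) using 1
    rw [smul_eq_mul]
    linear_combination (c i).hh

theorem exists_module (k : Type) [Field k] (h2 : (2 : k) ≠ 0) (m : ℕ) (hm : 2 ≤ m) :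
    ∃ (R : Type) (_ : CommRing R) (_ : Algebra k R),
      Algebra.FiniteType k R ∧ IsRegularRing R ∧ IsDomain R ∧ ringKrullDim R = (m + 2 : ℕ) ∧
      ∃ (P : Type) (_ : AddCommGroup P) (_ : Module R P),
        Module.Finite R P ∧ Module.Projective R P ∧
        (∀ p : PrimeSpectrum R, Module.rankAtStalk P p = m) ∧
        Nonempty ((P × (Fin 1 → R)) ≃ₗ[R] (Fin (m + 1) → R)) ∧ ¬ Module.Free R P := by
  obtain ⟨R, _, _, h1, h3, h4, h5, P, _, _, h6, h7, h8, h9, h10⟩ := variety k h2 m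
  refine ⟨R, _, _, h1, h3, h4, h5, P, _, _, h6, h7, h8, h9, fun hP => ?_⟩
  have hX : ¬ IsSquare (RatFunc.X : RatFunc k) := by
    rintro ⟨r, hr⟩
    have h0 : r ≠ 0 := by
      rintro rfl
      exact RatFunc.X_ne_zero (by simpa using hr)
    have := congrArg RatFunc.intDegree hr
    rw [RatFunc.intDegree_mul h0 h0, RatFunc.intDegree_X] at this
    omega
  have h2' : (2 : RatFunc k) ≠ 0 := by
    rw [← map_ofNat (algebraMap k (RatFunc k)) 2]
    exact (map_ne_zero _).mpr h2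
  obtain ⟨A, _, _, f, c, τ, χ, -, hτ, hy, hχ, hres⟩ := exists_stage h2' hX (m + 1)
  let φ := algebraMap A (Localization.Away (c 0).y)
  let : Algebra k (Localization.Away (c 0).y) :=
    (φ.comp (f.comp (algebraMap k (RatFunc k)))).toAlgebra
  obtain ⟨M, M', hM, hM', h0⟩ := h10 hP (Localization.Away (c 0).y) (φ τ) (φ (c 0).y)
    (IsLocalization.Away.invSelf (c 0).y) (φ (c 0).h) (fun i => φ (c i.succ).x)
    (fun i => φ (c i.succ).y) ((c 0).map _).hh (IsLocalization.Away.mul_invSelf _)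
    fun i => hτ i.succ ▸ ((c i.succ).map _).rel
  refine obstruction hm c χ hτ hy hχ hres M M' hM hM' (h0.trans (funext fun j => ?_))
  refine Fin.cases ?_ (fun j => rfl) j
  simp [φ]

end Pool.Agent.MP_bac99f_ag.H96
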