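import Mathlib

/-!
Finite resolutions by modules that are stably sums of given invertible modules.
-/

namespace Pool.Agent.MP_bac99f_ag.H96

open Function TensorProduct CommRing

section

variable {A : Type} [CommRing A] {G : Type} (L : G → Pic A)

/-- Stably a finite sum of modules `L g`. -/
def StabV (M : Type) [AddCommGroup M] [Module A M] : Prop :=
  ∃ (ι₀ ι₁ : Type) (_ : Fintype ι₀) (_ : Fintype ι₁) (f₀ : ι₀ → G) (f₁ : ι₁ → G),
    Nonempty ((M × ∀ i, L (f₁ i)) ≃ₗ[A] ∀ i, L (f₀ i))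

/-- A resolution of length `n` by modules that are stably finite sums of modules `L g`. -/
def Res : ℕ → ∀ (M : Type) [AddCommGroup M] [Module A M], Prop
  | 0, M, _, _ => StabV L M
  | n + 1, M, _, _ => ∃ (V : Type) (_ : AddCommGroup V) (_ : Module A V) (π : V →ₗ[A] M),
      StabV L V ∧ Surjective π ∧ Res n (LinearMap.ker π)

variable {L}

/-- Concatenation of two finite sums of modules `L g`. -/
noncomputable def sumEquiv {ι κ : Type} (f : ι → G) (g : κ → G) :
    (∀ k, L (Sum.elim f g k)) ≃ₗ[A] ((∀ i, L (f i)) × ∀ j, L (g j)) :=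
  LinearEquiv.sumPiEquivProdPi A ι κ fun k => L (Sum.elim f g k)

section

variable {M N : Type} [AddCommGroup M] [Module A M] [AddCommGroup N] [Module A N]

theorem StabV.congr (e : M ≃ₗ[A] N) (h : StabV L M) : StabV L N := by
  obtain ⟨ι₀, ι₁, _, _, f₀, f₁, ⟨e'⟩⟩ := h
  exact ⟨ι₀, ι₁, inferInstance, inferInstance, f₀, f₁, ⟨e.symm.prodCongr (.refl _ _) ≪≫ₗ e'⟩⟩

theorem StabV.projective (h : StabV L M) : Module.Projective A M := by
  obtain ⟨ι₀, ι₁, _, _, f₀, f₁, ⟨e⟩⟩ := h
  have : Module.Projective A (∀ i, L (f₀ i)) :=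
    .of_equiv' (DFinsupp.linearEquivFunOnFintype (R := A) (M := fun i => L (f₀ i)))
  have : Module.Projective A (M × ∀ i, L (f₁ i)) := .of_equiv' e.symm
  exact .of_split (LinearMap.inl A M (∀ i, L (f₁ i))) (LinearMap.fst _ _ _) rfl

theorem StabV.prod (h : StabV L M) (h' : StabV L N) : StabV L (M × N) := by
  obtain ⟨ι₀, ι₁, _, _, f₀, f₁, ⟨e⟩⟩ := h
  obtain ⟨κ₀, κ₁, _, _, g₀, g₁, ⟨e'⟩⟩ := h'
  exact ⟨ι₀ ⊕ κ₀, ι₁ ⊕ κ₁, inferInstance, inferInstance, Sum.elim f₀ g₀, Sum.elim f₁ g₁,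
    ⟨(LinearEquiv.refl _ _).prodCongr (sumEquiv f₁ g₁) ≪≫ₗ LinearEquiv.prodProdProdComm A _ _ _ _
      ≪≫ₗ e.prodCongr e' ≪≫ₗ (sumEquiv f₀ g₀).symm⟩⟩

theorem StabV.cancel (h : StabV L (N × M)) (h' : StabV L N) : StabV L M := by
  obtain ⟨ι₀, ι₁, _, _, f₀, f₁, ⟨e⟩⟩ := h
  obtain ⟨κ₀, κ₁, _, _, g₀, g₁, ⟨e'⟩⟩ := h'
  exact ⟨ι₀ ⊕ κ₁, κ₀ ⊕ ι₁, inferInstance, inferInstance, Sum.elim f₀ g₁, Sum.elim g₀ f₁,
    ⟨(LinearEquiv.refl _ _).prodCongr (sumEquiv g₀ f₁ ≪≫ₗ e'.symm.prodCongr (.refl _ _)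
        ≪≫ₗ LinearEquiv.prodAssoc A _ _ _
        ≪≫ₗ (LinearEquiv.refl _ _).prodCongr (LinearEquiv.prodComm A _ _)
        ≪≫ₗ (LinearEquiv.prodAssoc A _ _ _).symm)
      ≪≫ₗ (LinearEquiv.prodAssoc A _ _ _).symm
      ≪≫ₗ ((LinearEquiv.prodAssoc A _ _ _).symm
        ≪≫ₗ (LinearEquiv.prodComm A _ _).prodCongr (.refl _ _) ≪≫ₗ e).prodCongr (.refl _ _)
      ≪≫ₗ (sumEquiv f₀ g₁).symm⟩⟩

theorem StabV.zero [Subsingleton M] : StabV L M :=
  ⟨Empty, Empty, inferInstance, inferInstance, Empty.elim, Empty.elim,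
    ⟨LinearEquiv.ofSubsingleton _ _⟩⟩

end

theorem exists_split {M' M M'' : Type} [AddCommGroup M'] [Module A M'] [AddCommGroup M]
    [Module A M] [AddCommGroup M''] [Module A M''] [Module.Projective A M'']
    {f : M' →ₗ[A] M} {g : M →ₗ[A] M''} (hf : Injective f) (hg : Surjective g) (hfg : Exact f g) :
    Nonempty (M ≃ₗ[A] M' × M'') := by
  obtain ⟨s, hs⟩ := Module.projective_lifting_property g LinearMap.id hg
  exact ⟨(hfg.splitSurjectiveEquiv hf ⟨s, hs⟩).1⟩

/-- The left term of a short exact sequence is the kernel. -/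
noncomputable def kerEquiv {M' M M'' : Type} [AddCommGroup M'] [Module A M'] [AddCommGroup M]
    [Module A M] [AddCommGroup M''] [Module A M''] {f : M' →ₗ[A] M} {g : M →ₗ[A] M''}
    (hf : Injective f) (hfg : Exact f g) : M' ≃ₗ[A] LinearMap.ker g :=
  LinearEquiv.ofInjective f hf ≪≫ₗ LinearEquiv.ofEq _ _ hfg.linearMap_ker_eq.symm

theorem Res.congr {n : ℕ} {M N : Type} [AddCommGroup M] [Module A M] [AddCommGroup N]
    [Module A N] (e : M ≃ₗ[A] N) (h : Res L n M) : Res L n N := by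
  induction n generalizing M N with
  | zero => exact StabV.congr e h
  | succ n ih =>
    obtain ⟨V, _, _, π, h1, h2, h3⟩ := h
    exact ⟨V, inferInstance, inferInstance, e.toLinearMap ∘ₗ π, h1, e.surjective.comp h2,
      ih (LinearEquiv.ofEq _ _ (by ext v; simp)) h3⟩

theorem Res.succ {n : ℕ} {M : Type} [AddCommGroup M] [Module A M] (h : Res L n M) :
    Res L (n + 1) M := by
  induction n generalizing M with
  | zero =>
    refine ⟨M, inferInstance, inferInstance, LinearMap.id, h, surjective_id, ?_⟩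
    have : Subsingleton (LinearMap.ker (LinearMap.id : M →ₗ[A] M)) :=
      ⟨fun a b => Subtype.ext (a.2.trans b.2.symm)⟩
    exact StabV.zero
  | succ n ih =>
    obtain ⟨V, _, _, π, h1, h2, h3⟩ := h
    exact ⟨V, inferInstance, inferInstance, π, h1, h2, ih h3⟩

theorem Res.ext {n : ℕ} {M' M M'' : Type} [AddCommGroup M'] [Module A M'] [AddCommGroup M]
    [Module A M] [AddCommGroup M''] [Module A M''] (f : M' →ₗ[A] M) (g : M →ₗ[A] M'')
    (hf : Injective f) (hg : Surjective g) (hfg : Exact f g) (h' : Res L n M')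
    (h'' : Res L n M'') : Res L n M := by
  induction n generalizing M' M M'' with
  | zero =>
    have := StabV.projective h''
    obtain ⟨e⟩ := exists_split hf hg hfg
    exact (StabV.prod h' h'').congr e.symm
  | succ n ih =>
    obtain ⟨V', _, _, π', a1, a2, a3⟩ := h'
    obtain ⟨V'', _, _, π'', b1, b2, b3⟩ := h''
    have := b1.projective
    obtain ⟨s, hs⟩ := Module.projective_lifting_property g π'' hg
    have hs' : ∀ v, g (s v) = π'' v := fun v => LinearMap.congr_fun hs v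
    refine ⟨V' × V'', inferInstance, inferInstance, (f ∘ₗ π').coprod s, a1.prod b1, fun m => ?_,
      ih ((LinearMap.inl A V' V'').restrict (p := LinearMap.ker π') fun v hv => ?_)
        ((LinearMap.snd A V' V'').restrict (q := LinearMap.ker π'') fun v hv => ?_)
        (fun a b h => Subtype.ext (congrArg (fun x => x.1.1) h)) (fun v => ?_) (fun v => ?_) a3 b3⟩
    · obtain ⟨v'', h1⟩ := b2 (g m)
      obtain ⟨m', h2⟩ := (hfg (m - s v'')).1 (by rw [map_sub, hs', h1, sub_self])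
      obtain ⟨v', rfl⟩ := a2 m'
      exact ⟨(v', v''), by simp [h2]⟩
    · simp [LinearMap.mem_ker.1 hv]
    · have h1 := congrArg g (LinearMap.mem_ker.1 hv)
      simpa [hs', hfg.apply_apply_eq_zero] using h1
    · obtain ⟨m', h2⟩ := (hfg (s v)).1 (by rw [hs']; exact v.2)
      obtain ⟨v', rfl⟩ := a2 m'
      exact ⟨⟨(-v', v), by simp [h2]⟩, rfl⟩
    · constructor
      · intro h
        have h1 : v.1.2 = 0 := congrArg Subtype.val h
        have h2 := LinearMap.mem_ker.1 v.2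
        simp only [LinearMap.coprod_apply, h1, map_zero, add_zero, LinearMap.comp_apply] at h2
        exact ⟨⟨v.1.1, hf (h2.trans (map_zero f).symm)⟩, Subtype.ext (Prod.ext rfl h1.symm)⟩
      · rintro ⟨w, rfl⟩
        rfl

theorem Res.quot {n : ℕ} {M' M M'' : Type} [AddCommGroup M'] [Module A M'] [AddCommGroup M]
    [Module A M] [AddCommGroup M''] [Module A M''] (f : M' →ₗ[A] M) (g : M →ₗ[A] M'')
    (hf : Injective f) (hg : Surjective g) (hfg : Exact f g) (h' : Res L n M') (h : Res L n M) :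
    Res L (n + 1) M'' := by
  have h1 := h'.congr (kerEquiv hf hfg)
  cases n with
  | zero => exact ⟨M, inferInstance, inferInstance, g, h, hg, h1⟩
  | succ n =>
    obtain ⟨V, _, _, π, a1, a2, a3⟩ := h
    refine ⟨V, inferInstance, inferInstance, g ∘ₗ π, a1, hg.comp a2,
      Res.ext (Submodule.inclusion (LinearMap.ker_le_ker_comp π g))
        (π.restrict (q := LinearMap.ker g) fun v hv => hv) (Submodule.inclusion_injective _)
        (fun m => ?_) (fun v => ?_) a3.succ h1⟩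
    · obtain ⟨v, hv⟩ := a2 m
      exact ⟨⟨v, show g (π v) = 0 by rw [hv]; exact m.2⟩, Subtype.ext hv⟩
    · exact ⟨fun h => ⟨⟨v.1, congrArg Subtype.val h⟩, rfl⟩,
        by rintro ⟨w, rfl⟩; exact Subtype.ext w.2⟩

theorem Res.stabV {n : ℕ} {M : Type} [AddCommGroup M] [Module A M] [Module.Projective A M]
    (h : Res L n M) : StabV L M := by
  induction n generalizing M with
  | zero => exact h
  | succ n ih =>
    obtain ⟨V, _, _, π, a1, a2, a3⟩ := h
    obtain ⟨e⟩ := exists_split (Submodule.injective_subtype _) a2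
      (LinearMap.exact_subtype_ker_map π)
    have := a1.projective
    have : Module.Projective A (LinearMap.ker π × M) := .of_equiv' e
    have : Module.Projective A (LinearMap.ker π) :=
      .of_split (LinearMap.inl A _ M) (LinearMap.fst _ _ _) rfl
    exact (a1.congr e).cancel (ih a3)

theorem StabV.baseChange {A' : Type} [CommRing A'] [Algebra A A'] {G' : Type} {L' : G' → Pic A'}
    (W : Type) [AddCommGroup W] [Module A' W] [Module A W] [IsScalarTower A A' W]
    (φ : G → G') (hφ : ∀ g, Nonempty (W ⊗[A] L g ≃ₗ[A'] L' (φ g)))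
    {M : Type} [AddCommGroup M] [Module A M] (h : StabV L M) : StabV L' (W ⊗[A] M) := by
  classical
  obtain ⟨ι₀, ι₁, _, _, f₀, f₁, ⟨e⟩⟩ := h
  have E : ∀ {ι : Type} [Fintype ι] (f : ι → G),
      (W ⊗[A] ∀ i, L (f i)) ≃ₗ[A'] ∀ i, L' (φ (f i)) := fun f =>
    piRight A A' W _ ≪≫ₗ LinearEquiv.piCongrRight fun i => (hφ (f i)).some
  exact ⟨ι₀, ι₁, inferInstance, inferInstance, fun i => φ (f₀ i), fun i => φ (f₁ i),
    ⟨(LinearEquiv.refl _ _).prodCongr (E f₁).symm ≪≫ₗ (prodRight A A' W _ _).symm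
      ≪≫ₗ AlgebraTensorModule.congr (.refl A' W) e ≪≫ₗ E f₀⟩⟩

theorem Res.baseChange {A' : Type} [CommRing A'] [Algebra A A'] {G' : Type} {L' : G' → Pic A'}
    (W : Type) [AddCommGroup W] [Module A' W] [Module A W] [IsScalarTower A A' W]
    [Module.Flat A W] (φ : G → G') (hφ : ∀ g, Nonempty (W ⊗[A] L g ≃ₗ[A'] L' (φ g)))
    {n : ℕ} {M : Type} [AddCommGroup M] [Module A M] (h : Res L n M) :
    Res L' n (W ⊗[A] M) := by
  induction n generalizing M with
  | zero => exact StabV.baseChange W φ hφ h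
  | succ n ih =>
    obtain ⟨V, _, _, π, a1, a2, a3⟩ := h
    refine ⟨W ⊗[A] V, inferInstance, inferInstance, AlgebraTensorModule.lTensor A' W π,
      a1.baseChange W φ hφ, LinearMap.lTensor_surjective W a2, (ih a3).congr (kerEquiv
        (f := AlgebraTensorModule.lTensor A' W (LinearMap.ker π).subtype) ?_ ?_)⟩
    · exact Module.Flat.lTensor_preserves_injective_linearMap _ (Submodule.injective_subtype _)
    · exact lTensor_exact W (LinearMap.exact_subtype_ker_map π) a2

end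

theorem Res.field {K : Type} [Field K] {G : Type} (L : G → Pic K) (g : G) (M : Type)
    [AddCommGroup M] [Module K M] [Module.Finite K M] : Res L 0 M := by
  obtain ⟨e⟩ := (Module.Invertible.free_iff_linearEquiv (R := K) (M := L g)).1 inferInstance
  exact ⟨Fin (Module.finrank K M), Empty, inferInstance, inferInstance, fun _ => g, Empty.elim,
    ⟨LinearEquiv.prodUnique ≪≫ₗ (Module.finBasis K M).equivFun
      ≪≫ₗ LinearEquiv.piCongrRight fun _ => e.symm⟩⟩

end Pool.Agent.MP_bac99f_ag.H96
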