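import Pool.Agent.MP_bac99f_ag.H96.Conic

/-!
Every finitely generated module over the conic has a two step resolution by an induced module
and a twisted induced module.
-/

namespace Pool.Agent.MP_bac99f_ag.H96

open Function TensorProduct Filter

set_option linter.unusedSectionVars false

variable {A A' : Type} [CommRing A] [CommRing A'] [Algebra A A'] (c : Cx A')
  {W W' N N' : Type} [AddCommGroup W] [Module A W] [AddCommGroup W'] [Module A W']
  [AddCommGroup N] [Module A N] [AddCommGroup N'] [Module A N']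

/-- The map `s ⊗ w ↦ q s ⊗ a w - p s ⊗ b w`. -/
noncomputable def Cx.κ (a b : W →ₗ[A] N) : c.Tw A' ⊗[A] W →ₗ[A'] A' ⊗[A] N :=
  AlgebraTensorModule.map (c.q A') a - AlgebraTensorModule.map (c.p A') b

lemma Cx.κ_tmul (a b : W →ₗ[A] N) (s : c.Tw A') (w : W) :
    c.κ a b (s ⊗ₜ w) = c.q A' s ⊗ₜ a w - c.p A' s ⊗ₜ b w := by
  simp [Cx.κ]

lemma Cx.lTensor_κ (a b : W →ₗ[A] N) (f : N →ₗ[A] N') (t : c.Tw A' ⊗[A] W) :
    f.lTensor A' (c.κ a b t) = c.κ (f ∘ₗ a) (f ∘ₗ b) t := by
  induction t with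
  | zero => simp
  | tmul s w => simp [Cx.κ_tmul]
  | add s t hs ht => simp only [map_add, hs, ht]

lemma Cx.κ_lTensor (a b : W →ₗ[A] N) (f : W' →ₗ[A] W) (t : c.Tw A' ⊗[A] W') :
    c.κ a b (f.lTensor _ t) = c.κ (a ∘ₗ f) (b ∘ₗ f) t := by
  induction t with
  | zero => simp
  | tmul s w => simp [Cx.κ_tmul]
  | add s t hs ht => simp only [map_add, hs, ht]

lemma lTensor_mem {L : Type} [AddCommGroup L] [Module A L] (f : W →ₗ[A] N) (S : Submodule A N)
    (h : ∀ w, f w ∈ S) (t : L ⊗[A] W) :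
    f.lTensor L t ∈ LinearMap.range (S.subtype.lTensor L) :=
  ⟨(f.codRestrict S h).lTensor L t, by
    rw [← LinearMap.lTensor_comp_apply, LinearMap.subtype_comp_codRestrict]⟩

lemma lTensor_range_mono {L : Type} [AddCommGroup L] [Module A L] {S T : Submodule A N}
    (h : S ≤ T) : LinearMap.range (S.subtype.lTensor L) ≤ LinearMap.range (T.subtype.lTensor L) := by
  rintro _ ⟨t, rfl⟩
  exact lTensor_mem _ _ (fun w => h w.2) t

namespace Conic

variable {c} (E : Conic A c)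

include E

lemma κ_theta (θ : N →ₗ[A] N) (hθ : ∀ n, θ (θ n) = E.τ • n) (φ : W →ₗ[A] N)
    (t : c.Tw A' ⊗[A] W) (h : c.κ (θ ∘ₗ φ) φ t = 0) : φ.lTensor _ t = 0 := by
  have : ∀ t, φ.lTensor _ t = -(AlgebraTensorModule.map (c.Y A') θ (c.κ (θ ∘ₗ φ) φ t) +
      AlgebraTensorModule.map (c.X A') LinearMap.id (c.κ (θ ∘ₗ φ) φ t)) := fun t => by
    induction t with
    | zero => simp
    | tmul s w =>
      simp only [Cx.κ_tmul, map_sub, AlgebraTensorModule.map_tmul, LinearMap.comp_apply, hθ,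
        LinearMap.id_apply, LinearMap.lTensor_tmul, c.X_q]
      conv_lhs => rw [← c.X_sub_Y s, sub_tmul, E.eτ, algebraMap_smul, smul_tmul]
      abel
    | add s t hs ht =>
      simp only [map_add, hs, ht]
      abel
  rw [this, h]
  simp

variable (M : Type) [AddCommGroup M] [Module A' M] [Module A M] [IsScalarTower A A' M]

omit E in
/-- The map without any truncation. -/
noncomputable def K (A : Type) [CommRing A] [Algebra A A'] (c : Cx A') (M : Type) [AddCommGroup M]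
    [Module A' M] [Module A M] [IsScalarTower A A' M] : c.Tw A' ⊗[A] c.Tw M →ₗ[A'] A' ⊗[A] M :=
  c.κ ((c.p M).restrictScalars A) ((c.q M).restrictScalars A)

omit E in
lemma K_tmul (s : c.Tw A') (w : c.Tw M) :
    K A c M (s ⊗ₜ w) = c.q A' s ⊗ₜ c.p M w - c.p A' s ⊗ₜ c.q M w := c.κ_tmul _ _ s w

lemma τ_smul {L : Type} [AddCommGroup L] [Module A' L] [Module A L] [IsScalarTower A A' L]
    (l : L) : c.τ • l = E.τ • l := by rw [E.eτ, algebraMap_smul]

lemma K_injective : Injective (K A c M) := by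
  rw [injective_iff_map_eq_zero]
  intro t ht
  refine E.delta_tw (mulBy A c.y) t ?_
  have : ∀ t, c.y • t - (mulBy A c.y).lTensor _ t =
      (2 : A') • (AlgebraTensorModule.map (c.X A') ((c.X M).restrictScalars A) (K A c M t) +
      c.τ • AlgebraTensorModule.map (c.Y A') ((c.Y M).restrictScalars A) (K A c M t)) := fun t => by
    induction t with
    | zero => simp
    | tmul s w =>
      simp only [K_tmul, map_sub, AlgebraTensorModule.map_tmul, LinearMap.restrictScalars_apply,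
        LinearMap.lTensor_tmul, mulBy_apply]
      rw [← c.X_q s, ← c.X_q w, ← c.two_X_q w, smul_tmul', ← c.two_X_q s]
      have h2 : ∀ u : c.Tw M, (2 : A') • u = u + u := fun u => two_smul _ _
      have h3 : c.X A' (c.q A' s) ⊗ₜ[A] w = c.X A' (c.q A' s) ⊗ₜ[A] c.X M (c.p M w) -
          c.τ • c.X A' (c.q A' s) ⊗ₜ[A] c.Y M (c.q M w) := by
        rw [E.τ_smul, ← tmul_smul, ← tmul_sub, ← E.τ_smul, c.X_sub_Y]
      have h4 : s ⊗ₜ[A] c.X M (c.q M w) = c.X A' (c.p A' s) ⊗ₜ[A] c.X M (c.q M w) -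
          c.τ • c.Y A' (c.q A' s) ⊗ₜ[A] c.X M (c.q M w) := by
        rw [smul_tmul', ← sub_tmul, c.X_sub_Y]
      rw [← smul_tmul', h2, tmul_add, h3, h4]
      module
    | add s t hs ht =>
      simp only [map_add, smul_add] at hs ht ⊢
      rw [add_sub_add_comm, hs, ht]
      abel
  rw [← sub_eq_zero, this, ht]
  simp

omit E in
lemma μ_K (t : c.Tw A' ⊗[A] c.Tw M) :
    (LinearMap.id : M →ₗ[A] M).liftBaseChange A' (K A c M t) = 0 := by
  induction t with
  | zero => simp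
  | tmul s w => simp [K_tmul, c.cross]
  | add s t hs ht => simp only [map_add, hs, ht, add_zero]

lemma sub_mem_range (a : A') (m : M) :
    a ⊗ₜ[A] m - 1 ⊗ₜ[A] (a • m) ∈ LinearMap.range (K A c M) := by
  have h1 : ∀ (a : A') (v : M), a ⊗ₜ[A] v = a • (1 : A') ⊗ₜ[A] v := fun a v => by
    rw [smul_tmul', smul_eq_mul, mul_one]
  have h2 : ∀ (r : A) (v : M), (1 : A') ⊗ₜ[A] (algebraMap A A' r • v) =
      algebraMap A A' r • (1 : A') ⊗ₜ[A] v := fun r v => by
    rw [algebraMap_smul, algebraMap_smul, tmul_smul]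
  have h3 : ∀ v : M, (1 : A') ⊗ₜ[A] (c.h • v) = c.h • (1 : A') ⊗ₜ[A] v := E.eh ▸ h2 _
  have h4 : ∀ v : M, (1 : A') ⊗ₜ[A] (c.σ • v) = c.σ • (1 : A') ⊗ₜ[A] v := E.eσ ▸ h2 _
  have ha : a ∈ Algebra.adjoin A {c.x, c.y} := E.gen ▸ Algebra.mem_top
  induction ha using Algebra.adjoin_induction generalizing m with
  | mem a ha =>
    rcases ha with rfl | rfl
    · refine ⟨(2 * c.τ) • (c.X A' 1 ⊗ₜ c.Y M m + c.Y A' 1 ⊗ₜ c.X M m), ?_⟩
      simp only [map_smul, map_add, K_tmul, c.p_X, c.q_X, c.p_Y, c.q_Y]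
      rw [h1 (_ • 1), h1 (_ • 1), h1 (_ • 1), h1 c.x]
      simp only [mul_smul, h3, h4, add_smul, sub_smul, one_smul, tmul_add, tmul_sub]
      linear_combination (norm := module)
        (4 * c.h ^ 2) • c.hτ • (c.x • (1 : A') ⊗ₜ[A] m - (1 : A') ⊗ₜ[A] (c.x • m)) +
        (2 * c.h + 1) • c.hh • (c.x • (1 : A') ⊗ₜ[A] m - (1 : A') ⊗ₜ[A] (c.x • m))
    · refine ⟨(2 : A') • (c.X A' 1 ⊗ₜ c.X M m + c.τ • c.Y A' 1 ⊗ₜ c.Y M m), ?_⟩
      simp only [map_smul, map_add, K_tmul, c.p_X, c.q_X, c.p_Y, c.q_Y]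
      rw [h1 (_ • 1), h1 (_ • 1), h1 (_ • 1), h1 (_ • 1), h1 c.y]
      simp only [mul_smul, h3, h4, add_smul, sub_smul, one_smul, tmul_add, tmul_sub]
      linear_combination (norm := module)
        (2 * c.h ^ 2) • c.hτ • ((c.x - 1) • (1 : A') ⊗ₜ[A] (c.y • m) -
          c.y • ((1 : A') ⊗ₜ[A] (c.x • m) - (1 : A') ⊗ₜ[A] m)) +
        (2 * c.h + 1) • c.hh • (c.y • (1 : A') ⊗ₜ[A] m - (1 : A') ⊗ₜ[A] (c.y • m))
  | algebraMap r =>
    rw [h2, ← h1, sub_self]
    exact zero_mem _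
  | add a b _ _ ha hb =>
    rw [add_tmul, add_smul, tmul_add, add_sub_add_comm]
    exact add_mem (ha m) (hb m)
  | mul a b _ _ ha hb =>
    have := add_mem (Submodule.smul_mem _ a (hb m)) (ha (b • m))
    rwa [smul_sub, ← h1, sub_add_sub_cancel, smul_tmul', ← mul_smul] at this

lemma mem_range_K (t : A' ⊗[A] M) (h : (LinearMap.id : M →ₗ[A] M).liftBaseChange A' t = 0) :
    t ∈ LinearMap.range (K A c M) := by
  have : ∀ t : A' ⊗[A] M, t - 1 ⊗ₜ[A] (LinearMap.id : M →ₗ[A] M).liftBaseChange A' t ∈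
      LinearMap.range (K A c M) := fun t => by
    induction t with
    | zero => simp
    | tmul a m => exact E.sub_mem_range M a m
    | add s t hs ht =>
      rw [map_add, tmul_add, add_sub_add_comm]
      exact add_mem hs ht
  simpa [h] using this t

variable {M}

omit E in
/-- The induced filtration on the twisted module. -/
def twFil (c : Cx A') (S : Submodule A M) : Submodule A (c.Tw M) :=
  S.comap ((c.p M).restrictScalars A) ⊓ S.comap ((c.q M).restrictScalars A)

lemma descent [IsNoetherianRing A] {F : ℕ → Submodule A M} (hF : Good c.x c.y F) :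
    ∀ᶠ j in atTop, ∀ u ∈ LinearMap.range ((twFil c (F (j + 1))).subtype.lTensor (c.Tw A')),
      K A c M u ∈ LinearMap.range ((F j).subtype.lTensor A') →
        u ∈ LinearMap.range ((twFil c (F j)).subtype.lTensor (c.Tw A')) := by
  have := E.flat
  have := E.flat_tw
  filter_upwards [hF.exists_theta E.rel (G := fun _ => ⊤) fun _ _ _ => ⟨trivial, trivial⟩, hF.inj]
    with j ⟨θ, hθ, hθ'⟩ hinj
  rintro _ ⟨u, rfl⟩ ⟨v, hv⟩
  let φ : twFil c (F (j + 1)) →ₗ[A] (F (j + 1) ⊓ ⊤).map (F j).mkQ :=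
    ((F j).mkQ ∘ₗ (c.q M).restrictScalars A ∘ₗ (twFil c (F (j + 1))).subtype).codRestrict _
      fun w => Submodule.mem_map_of_mem ⟨w.2.2, trivial⟩
  have h1 : ((F (j + 1) ⊓ ⊤).map (F j).mkQ).subtype ∘ₗ θ ∘ₗ φ =
      ((F j).mkQ ∘ₗ (c.p M).restrictScalars A) ∘ₗ (twFil c (F (j + 1))).subtype := by
    ext w
    refine hθ' (c.q M w) (c.p M w) ⟨w.2.2, trivial⟩ w.2.1 ?_
    rw [c.rel₂, add_smul, one_smul, sub_add_cancel_right]
    exact neg_mem w.2.2
  have h2 : c.κ (θ ∘ₗ φ) φ u = 0 := by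
    apply Module.Flat.lTensor_preserves_injective_linearMap (M := A') _
      ((F (j + 1) ⊓ ⊤).map (F j).mkQ).subtype_injective
    rw [c.lTensor_κ, map_zero, h1, LinearMap.subtype_comp_codRestrict, ← LinearMap.comp_assoc,
      ← c.κ_lTensor, ← c.lTensor_κ]
    change (F j).mkQ.lTensor A' (K A c M _) = 0
    rw [← hv, ← LinearMap.lTensor_comp_apply, LinearMap.range_le_ker_iff.mp (by simp)]
    simp
  obtain ⟨u, rfl⟩ := (Module.Flat.lTensor_exact (c.Tw A') φ.exact_subtype_ker_map u).mp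
    (E.κ_theta θ hθ φ u h2)
  rw [← LinearMap.lTensor_comp_apply]
  refine lTensor_mem _ _ (fun w => ?_) _
  have h3 : c.q M w.1.1 ∈ F j := (Submodule.Quotient.mk_eq_zero _).mp (congrArg Subtype.val w.2)
  refine ⟨hinj _ w.1.2.1 ?_, h3⟩
  change c.y • c.p M w.1.1 ∈ _
  rw [c.rel₂, add_smul, one_smul]
  exact add_mem w.1.2.2 (hF.compat _ _ h3).1

variable (M) in
theorem resolve [IsNoetherianRing A] [Module.Finite A' M] :
    ∃ (W N : Type) (_ : AddCommGroup W) (_ : Module A W) (_ : AddCommGroup N) (_ : Module A N)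
      (f : c.Tw A' ⊗[A] W →ₗ[A'] A' ⊗[A] N) (g : A' ⊗[A] N →ₗ[A'] M),
      Module.Finite A W ∧ Module.Finite A N ∧ Injective f ∧ Surjective g ∧ Exact f g := by
  have := E.flat
  have := E.flat_tw
  obtain ⟨F, hF, hsp⟩ := exists_good (M := M) E.rel E.gen
  obtain ⟨d, hd⟩ := eventually_atTop.mp (E.descent hF)
  let a : twFil c (F d) →ₗ[A] F d :=
    ((c.p M).restrictScalars A ∘ₗ (twFil c (F d)).subtype).codRestrict _ fun w => w.2.1
  let b : twFil c (F d) →ₗ[A] F d :=
    ((c.q M).restrictScalars A ∘ₗ (twFil c (F d)).subtype).codRestrict _ fun w => w.2.2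
  have hi := Module.Flat.lTensor_preserves_injective_linearMap (M := A') _ (F d).subtype_injective
  have hi' := Module.Flat.lTensor_preserves_injective_linearMap (M := c.Tw A') _
    (twFil c (F d)).subtype_injective
  have h1 : ∀ t, (F d).subtype.lTensor A' (c.κ a b t) =
      K A c M ((twFil c (F d)).subtype.lTensor _ t) := fun t => by
    rw [c.lTensor_κ, K, c.κ_lTensor]
    rfl
  have h2 : ∀ t, (F d).subtype.liftBaseChange A' t =
      (LinearMap.id : M →ₗ[A] M).liftBaseChange A' ((F d).subtype.lTensor A' t) := fun t => by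
    induction t with
    | zero => simp
    | tmul a m => simp
    | add s t hs ht => simp only [map_add, hs, ht]
  have := hF.finite d
  refine ⟨twFil c (F d), F d, _, inferInstance, _, inferInstance, c.κ a b,
    (F d).subtype.liftBaseChange A', Module.Finite.of_injective (a.prod b) fun w w' e =>
      Subtype.ext (c.ext (congrArg (fun z => (z.1 : M)) e) (congrArg (fun z => (z.2 : M)) e)),
    this, fun s t e => hi' (E.K_injective M (by rw [← h1, e, h1])), ?_, fun t => ⟨fun ht => ?_, ?_⟩⟩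
  · rw [← LinearMap.range_eq_top, LinearMap.range_liftBaseChange, eq_top_iff, ← hsp,
      Submodule.range_subtype]
    exact Submodule.span_mono (hF.mono (Nat.zero_le d))
  · obtain ⟨u, hu⟩ := E.mem_range_K M _ ((h2 t).symm.trans ht)
    have hmono : ∀ i j, i ≤ j → twFil c (F i) ≤ twFil c (F j) := fun i j hij w hw =>
      ⟨hF.mono hij hw.1, hF.mono hij hw.2⟩
    have h3 : ∀ u : c.Tw A' ⊗[A] c.Tw M,
        ∃ j, u ∈ LinearMap.range ((twFil c (F (d + j))).subtype.lTensor (c.Tw A')) := fun u => by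
      induction u with
      | zero => exact ⟨0, zero_mem _⟩
      | tmul s w =>
        obtain ⟨i, hi⟩ := hF.exh (c.p M w)
        obtain ⟨j, hj⟩ := hF.exh (c.q M w)
        exact ⟨i + j, s ⊗ₜ ⟨w, hF.mono (by omega) hi, hF.mono (by omega) hj⟩, rfl⟩
      | add s t hs ht =>
        obtain ⟨i, hi⟩ := hs
        obtain ⟨j, hj⟩ := ht
        exact ⟨i + j, add_mem (lTensor_range_mono (hmono _ _ (by omega)) hi)
          (lTensor_range_mono (hmono _ _ (by omega)) hj)⟩
    obtain ⟨j, hj⟩ := h3 u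
    have h4 : u ∈ LinearMap.range ((twFil c (F d)).subtype.lTensor (c.Tw A')) := by
      induction j with
      | zero => exact hj
      | succ j ih =>
        exact ih (hd (d + j) (by omega) u hj
          (lTensor_range_mono (hF.mono (by omega)) (⟨t, hu.symm⟩ : _ ∈ LinearMap.range _)))
    obtain ⟨u, rfl⟩ := h4
    exact ⟨u, hi (by rw [h1, hu])⟩
  · rintro ⟨u, rfl⟩
    rw [h2, h1, μ_K]

end Conic

end Pool.Agent.MP_bac99f_ag.H96
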