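import Pool.Agent.MP_bac99f_ag.H96.Resolve
import Pool.Agent.MP_bac99f_ag.H96.Res

/-!
The product of `n` conics over a field in which `τ` is not a square.
-/

namespace Pool.Agent.MP_bac99f_ag.H96

open Function TensorProduct CommRing Polynomial

theorem exists_conic {A : Type} [CommRing A] [IsNoetherianRing A] (τ σ h : A) (hτ : τ * σ = 1)
    (hh : 2 * h = 1) : ∃ (A' : Type) (_ : CommRing A') (_ : Algebra A A')
      (_ : IsNoetherianRing A') (c : Cx A') (E : Conic A c), E.τ = τ := by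
  let A' := QuadraticAlgebra A[X] (C τ * X ^ 2 + 1) 0
  let c : Cx A' :=
    { τ := algebraMap A A' τ
      σ := algebraMap A A' σ
      h := algebraMap A A' h
      x := QuadraticAlgebra.omega
      y := algebraMap A[X] A' X
      hτ := by rw [← map_mul, hτ, map_one]
      hh := by simpa only [map_mul, map_ofNat, map_one] using congrArg (algebraMap A A') hh
      rel := by
        rw [QuadraticAlgebra.omega_mul_omega_eq_add, zero_smul, add_zero,
          IsScalarTower.algebraMap_apply A A[X] A', ← Algebra.algebraMap_eq_smul_one]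
        simp [sq, A'] }
  let b : Module.Basis ℕ A A' := ((Polynomial.basisMonomials A).smulTower
    (QuadraticAlgebra.basis (C τ * X ^ 2 + 1) 0)).reindex (Nat.divModEquiv 2).symm
  have hb : ∀ i, b i = (X ^ (i / 2) : A[X]) • QuadraticAlgebra.basis (C τ * X ^ 2 + 1) 0
      (Fin.ofNat 2 i) := fun i => by
    simp [b, monomial_one_right_eq_X_pow]
  have h0 : QuadraticAlgebra.basis (C τ * X ^ 2 + 1 : A[X]) 0 0 = 1 := by
    ext1 <;> simp [QuadraticAlgebra.basis] <;> rfl
  have h1 : QuadraticAlgebra.basis (C τ * X ^ 2 + 1 : A[X]) 0 1 = QuadraticAlgebra.omega := by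
    ext1 <;> simp [QuadraticAlgebra.basis]
  refine ⟨A', inferInstance, inferInstance, IsNoetherianRing.of_finite A[X] A', c,
    ⟨τ, σ, h, rfl, rfl, rfl, b, ?_, ?_, fun i => ?_⟩, rfl⟩
  · simpa [hb] using h0
  · simpa [hb] using h1
  · rw [hb, hb, Nat.add_div_right _ two_pos, pow_succ' X (i / 2), mul_smul, Algebra.smul_def,
      show Fin.ofNat 2 (i + 2) = Fin.ofNat 2 i from Fin.ext (by simp)]

/-- The tensor product of the twisted modules selected by `g`. -/
noncomputable def ell {A : Type} [CommRing A] {n : ℕ} (c : Fin n → Cx A) (g : Fin n → ZMod 2) :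
    Pic A := ∏ i, Pic.mk A ((c i).Tw A) ^ (g i).val

section

variable {A : Type} [CommRing A] {n : ℕ} (c : Fin n → Cx A)

lemma ell_add (g g' : Fin n → ZMod 2) : ell c (g + g') = ell c g * ell c g' := by
  rw [ell, ell, ell, ← Finset.prod_mul_distrib]
  refine Finset.prod_congr rfl fun i _ => ?_
  rw [← pow_add, Pi.add_apply, ZMod.val_add, ← pow_eq_pow_mod _ ((sq _).trans (c i).mk_sq)]

lemma ell_single (i : Fin n) : ell c (Pi.single i 1) = Pic.mk A ((c i).Tw A) := by
  rw [ell, Finset.prod_eq_single i (fun j _ hj => by simp [hj]) (by simp)]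
  simp [ZMod.val_one]

lemma ell_cons {A' : Type} [CommRing A'] [Algebra A A'] (c₀ : Cx A') (ε : ZMod 2)
    (g : Fin n → ZMod 2) : ell (Fin.cons c₀ fun i => (c i).map A') (Fin.cons ε g) =
      Pic.mk A' (c₀.Tw A') ^ ε.val * Pic.mapAlgebra A A' (ell c g) := by
  simp only [ell, Fin.prod_univ_succ, Fin.cons_zero, Fin.cons_succ, map_prod, map_pow,
    Cx.mapAlgebra_mk]
  rfl

lemma ell_cons_zero {A' : Type} [CommRing A'] [Algebra A A'] (c₀ : Cx A') (g : Fin n → ZMod 2) :
    Nonempty (A' ⊗[A] ell c g ≃ₗ[A']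
      ell (Fin.cons c₀ fun i => (c i).map A') (Fin.cons 0 g : Fin (n + 1) → ZMod 2)) := by
  rw [← Pic.mk_eq_iff, ell_cons]
  simp

lemma ell_cons_one {A' : Type} [CommRing A'] [Algebra A A'] (c₀ : Cx A') (g : Fin n → ZMod 2) :
    Nonempty (c₀.Tw A' ⊗[A] ell c g ≃ₗ[A']
      ell (Fin.cons c₀ fun i => (c i).map A') (Fin.cons 1 g : Fin (n + 1) → ZMod 2)) := by
  have : Pic.mk A' (c₀.Tw A' ⊗[A'] (A' ⊗[A] ell c g)) =
      ell (Fin.cons c₀ fun i => (c i).map A') (Fin.cons 1 g : Fin (n + 1) → ZMod 2) := by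
    rw [ell_cons, Pic.mk_tensor]
    simp [ZMod.val_one]
  obtain ⟨e⟩ := Pic.mk_eq_iff.mp this
  exact ⟨(AlgebraTensorModule.cancelBaseChange A A' A' _ _).symm.trans e⟩

end

theorem exists_stage {K : Type} [Field K] (h2 : (2 : K) ≠ 0) {τ : K} (hτ : ¬ IsSquare τ) (n : ℕ) :
    ∃ (A : Type) (_ : CommRing A) (_ : IsNoetherianRing A) (f : K →+* A) (c : Fin n → Cx A)
      (τ' : A) (χ : Chi A τ'), f τ = τ' ∧ (∀ i, (c i).τ = τ') ∧
      (∀ i, (c i).y ∈ nonZeroDivisors A) ∧
      (∀ g, χ.χ (ell c g) = if g = 0 then 1 else 0) ∧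
      ∀ (M : Type) [AddCommGroup M] [Module A M] [Module.Finite A M], Res (ell c) n M := by
  induction n with
  | zero =>
    refine ⟨K, inferInstance, inferInstance, .id K, finZeroElim, τ, Chi.base hτ, rfl, finZeroElim,
      finZeroElim, fun g => ?_, fun M _ _ _ => Res.field _ 0 M⟩
    rw [if_pos (Subsingleton.elim _ _)]
    change ((Module.finrank K _ : ℕ) : ZMod 2) = 1
    rw [Module.Invertible.finrank_eq_one, Nat.cast_one]
  | succ n ih =>
    obtain ⟨A, _, _, f, c, τ', χ, h1, h3, h4, h5, h6⟩ := ih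
    have h0 : τ ≠ 0 := fun e => hτ (e ▸ IsSquare.zero)
    obtain ⟨A', _, _, _, c₀, E, rfl⟩ := exists_conic τ' (f τ⁻¹) (f 2⁻¹)
      (by rw [← h1, ← map_mul, mul_inv_cancel₀ h0, map_one])
      (by rw [← map_ofNat f 2, ← map_mul, mul_inv_cancel₀ h2, map_one])
    have := E.flat
    have := E.flat_tw
    refine ⟨A', inferInstance, inferInstance, (algebraMap A A').comp f,
      Fin.cons c₀ fun i => (c i).map A', _, E.chi χ, congrArg _ h1,
      Fin.cases E.eτ fun i => congrArg _ (h3 i), Fin.cases E.y_reg fun i => E.map_reg (h4 i),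
      fun g => ?_, fun M _ _ _ => ?_⟩
    · obtain ⟨ε, g, rfl⟩ : ∃ ε g', g = Fin.cons ε g' := ⟨_, _, (Fin.cons_self_tail g).symm⟩
      have hε : ε = 0 ∨ ε = 1 := by revert ε; decide
      rcases hε with rfl | rfl
      · obtain ⟨e⟩ := ell_cons_zero c c₀ g
        rw [← (E.chi χ).congr e, E.chi_tensor, h5]
        congr 1
        rw [eq_iff_iff]
        exact ⟨fun h => funext (Fin.cases rfl (congrFun h)), fun h => funext fun i => congrFun h i.succ⟩
      · obtain ⟨e⟩ := ell_cons_one c c₀ g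
        have := Module.Finite.equiv e.symm
        rw [← (E.chi χ).congr e, E.chi_tw, if_neg fun h => absurd (congrFun h 0) (by simp)]
    · let : Module A M := Module.compHom M (algebraMap A A')
      have : IsScalarTower A A' M := IsScalarTower.of_algebraMap_smul fun _ _ => rfl
      obtain ⟨W, N, _, _, _, _, φ, ψ, _, _, hφ, hψ, hex⟩ := E.resolve M
      exact Res.quot φ ψ hφ hψ hex (Res.baseChange _ _ (ell_cons_one c c₀) (h6 W))
        (Res.baseChange _ _ (ell_cons_zero c c₀) (h6 N))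

end Pool.Agent.MP_bac99f_ag.H96
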